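import Pool.Agent.Lib_helper77.Pyth.Defs

namespace Pool.Agent.Pyth

open Module

section

variable {F E : Type} [Field F] [Field E] [Algebra F E] {t : ℕ} (y : Fin t → E)

/-- span of monomials of degree at most `r` -/
noncomputable def Wsp (F : Type) {E : Type} [Field F] [Field E] [Algebra F E] {t : ℕ}
    (y : Fin t → E) (r : ℕ) : Submodule F E :=
  Submodule.span F (mono y '' {κ | tdeg κ ≤ r})

theorem mono_zero : mono y 0 = 1 := by simp [mono]

theorem tdeg_zero : tdeg (0 : Fin t →₀ ℕ) = 0 := by simp [tdeg]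

theorem mono_add_single (κ : Fin t →₀ ℕ) (i : Fin t) :
    mono y (κ + Finsupp.single i 1) = y i * mono y κ := by
  unfold mono
  simp only [Finsupp.add_apply, pow_add, Finset.prod_mul_distrib]
  rw [mul_comm]
  congr 1
  rw [Finset.prod_eq_single i]
  · simp
  · intro j _ hj
    rw [Finsupp.single_apply, if_neg (Ne.symm hj), pow_zero]
  · intro h; exact absurd (Finset.mem_univ i) h

theorem tdeg_add_single (κ : Fin t →₀ ℕ) (i : Fin t) :
    tdeg (κ + Finsupp.single i 1) = tdeg κ + 1 := by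
  unfold tdeg
  simp only [Finsupp.add_apply, Finset.sum_add_distrib]
  congr 1
  rw [Finset.sum_eq_single i]
  · simp
  · intro j _ hj
    rw [Finsupp.single_apply, if_neg (Ne.symm hj)]
  · intro h; exact absurd (Finset.mem_univ i) h

theorem exists_of_tdeg_succ {κ : Fin t →₀ ℕ} {r : ℕ} (h : tdeg κ = r + 1) :
    ∃ (κ' : Fin t →₀ ℕ) (i : Fin t), κ = κ' + Finsupp.single i 1 ∧ tdeg κ' = r := by
  have h1 : ∃ i, κ i ≠ 0 := by
    by_contra hno
    push Not at hno
    have : tdeg κ = 0 := by unfold tdeg; simp [hno]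
    omega
  obtain ⟨i, hi⟩ := h1
  have h2 : κ = (κ - Finsupp.single i 1) + Finsupp.single i 1 := by
    ext j
    by_cases hj : j = i
    · subst hj; simp; omega
    · simp [Ne.symm hj]
  refine ⟨κ - Finsupp.single i 1, i, h2, ?_⟩
  have h3 : tdeg κ = tdeg (κ - Finsupp.single i 1) + 1 := by
    conv_lhs => rw [h2]
    exact tdeg_add_single _ _
  omega

theorem mono_mem_Wsp {κ : Fin t →₀ ℕ} {r : ℕ} (h : tdeg κ ≤ r) : mono y κ ∈ Wsp F y r :=
  Submodule.subset_span ⟨κ, h, rfl⟩

theorem Wsp_mono {r s : ℕ} (h : r ≤ s) : Wsp F y r ≤ Wsp F y s :=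
  Submodule.span_mono (Set.image_mono (fun κ (hκ : tdeg κ ≤ r) => le_trans hκ h))

theorem one_mem_Wsp (r : ℕ) : (1 : E) ∈ Wsp F y r := by
  have := mono_mem_Wsp (F := F) y (κ := 0) (r := r) (by rw [tdeg_zero]; omega)
  rwa [mono_zero] at this

theorem mul_mem_Wsp {r : ℕ} {w : E} (hw : w ∈ Wsp F y r) (i : Fin t) :
    y i * w ∈ Wsp F y (r + 1) := by
  unfold Wsp at hw
  induction hw using Submodule.span_induction with
  | mem x hx =>
    obtain ⟨κ, hκ, rfl⟩ := hx
    rw [← mono_add_single]
    refine mono_mem_Wsp y ?_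
    rw [tdeg_add_single]
    have : tdeg κ ≤ r := hκ
    omega
  | zero => rw [mul_zero]; exact Submodule.zero_mem _
  | add u v _ _ hu hv => rw [mul_add]; exact Submodule.add_mem _ hu hv
  | smul a u _ hu => rw [mul_smul_comm]; exact Submodule.smul_mem _ _ hu

theorem Wsp_succ_le {r : ℕ} {U : Submodule F E} (h1 : Wsp F y r ≤ U)
    (h2 : ∀ i, ∀ w ∈ Wsp F y r, y i * w ∈ U) : Wsp F y (r + 1) ≤ U := by
  unfold Wsp
  rw [Submodule.span_le]
  rintro _ ⟨κ, hκ, rfl⟩
  have hκ' : tdeg κ ≤ r + 1 := hκ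
  rcases Nat.lt_or_ge (tdeg κ) (r + 1) with h | h
  · exact h1 (mono_mem_Wsp y (by omega))
  · obtain ⟨κ', i, rfl, hdeg⟩ := exists_of_tdeg_succ (show tdeg κ = r + 1 by omega)
    rw [mono_add_single]
    exact h2 i _ (mono_mem_Wsp y hdeg.le)

theorem eq_top_of_stable (hgen : Algebra.adjoin F (Set.range y) = ⊤) {U : Submodule F E}
    (hU : ∀ i, ∀ u ∈ U, y i * u ∈ U) (hne : ∃ u ∈ U, u ≠ 0) : U = ⊤ := by
  have h1 : ∀ a : E, ∀ u ∈ U, a * u ∈ U := by
    intro a
    have ha : a ∈ Algebra.adjoin F (Set.range y) := by rw [hgen]; trivial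
    induction ha using Algebra.adjoin_induction with
    | mem x hx => obtain ⟨i, rfl⟩ := hx; exact hU i
    | algebraMap c => intro u hu; rw [← Algebra.smul_def]; exact U.smul_mem _ hu
    | add x z _ _ hx hz => intro u hu; rw [add_mul]; exact U.add_mem (hx u hu) (hz u hu)
    | mul x z _ _ hx hz => intro u hu; rw [mul_assoc]; exact hx _ (hz u hu)
  obtain ⟨u, hu, hu0⟩ := hne
  rw [eq_top_iff]
  intro a _
  have := h1 (a * u⁻¹) u hu
  rwa [mul_assoc, inv_mul_cancel₀ hu0, mul_one] at this

theorem Wsp_eq_top_of_succ_le (hgen : Algebra.adjoin F (Set.range y) = ⊤) {r : ℕ}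
    (h : Wsp F y (r + 1) ≤ Wsp F y r) : Wsp F y r = ⊤ :=
  eq_top_of_stable y hgen (fun i _ hu => h (mul_mem_Wsp y hu i)) ⟨1, one_mem_Wsp y r, one_ne_zero⟩

variable [FiniteDimensional F E]

theorem finrank_lt_succ (hgen : Algebra.adjoin F (Set.range y) = ⊤) {r : ℕ}
    (h : Wsp F y r ≠ ⊤) : finrank F (Wsp F y r) + 1 ≤ finrank F (Wsp F y (r + 1)) := by
  have hlt : Wsp F y r < Wsp F y (r + 1) := by
    refine lt_of_le_of_ne (Wsp_mono y (Nat.le_succ r)) ?_
    intro heq
    exact h (Wsp_eq_top_of_succ_le y hgen heq.ge)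
  exact Submodule.finrank_lt_finrank_of_lt hlt

/-- the growth lemma -/
theorem growth (hgen : Algebra.adjoin F (Set.range y) = ⊤)
    (h3 : 3 ≤ finrank F (Submodule.span F (insert 1 (Set.range y)))) {r : ℕ}
    (htop : Wsp F y (r + 1) ≠ ⊤) :
    finrank F (Wsp F y r) + 2 ≤ finrank F (Wsp F y (r + 1)) := by
  by_contra hcon
  push Not at hcon
  have hrtop : Wsp F y r ≠ ⊤ := by
    intro h
    apply htop
    rw [eq_top_iff, ← h]
    exact Wsp_mono y (Nat.le_succ r)
  have h1 := finrank_lt_succ y hgen hrtop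
  have h2 : finrank F (Wsp F y (r + 1)) = finrank F (Wsp F y r) + 1 := by omega
  -- choose θ
  obtain ⟨θ, hθ, hθn⟩ : ∃ θ ∈ Wsp F y (r + 1), θ ∉ Wsp F y r := by
    by_contra hno
    push Not at hno
    exact hrtop (Wsp_eq_top_of_succ_le y hgen hno)
  obtain ⟨l₀, hl₀, hl₀W⟩ := Submodule.exists_le_ker_of_notMem hθn
  set l : E →ₗ[F] F := (l₀ θ)⁻¹ • l₀ with hl
  have hlθ : l θ = 1 := by
    rw [hl, LinearMap.smul_apply, smul_eq_mul, inv_mul_cancel₀ hl₀]
  have hlW : ∀ w ∈ Wsp F y r, l w = 0 := by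
    intro w hw
    have : l₀ w = 0 := hl₀W hw
    rw [hl, LinearMap.smul_apply, this, smul_zero]
  -- decomposition
  have hspan : Wsp F y (r + 1) = Wsp F y r ⊔ Submodule.span F {θ} := by
    symm
    apply Submodule.eq_of_le_of_finrank_le
    · refine sup_le (Wsp_mono y (Nat.le_succ r)) ?_
      rw [Submodule.span_singleton_le_iff_mem]; exact hθ
    · rw [h2]
      have hlt : Wsp F y r < Wsp F y r ⊔ Submodule.span F {θ} := by
        refine lt_of_le_of_ne le_sup_left ?_
        intro heq
        apply hθn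
        rw [heq]
        exact Submodule.mem_sup_right (Submodule.mem_span_singleton_self θ)
      exact Submodule.finrank_lt_finrank_of_lt hlt
  have hdec : ∀ v ∈ Wsp F y (r + 1), v - l v • θ ∈ Wsp F y r := by
    intro v hv
    rw [hspan, Submodule.mem_sup] at hv
    obtain ⟨w, hw, z, hz, rfl⟩ := hv
    obtain ⟨c, rfl⟩ := Submodule.mem_span_singleton.mp hz
    rw [map_add, hlW w hw, map_smul, hlθ, zero_add, smul_eq_mul, mul_one, add_sub_cancel_right]
    exact hw
  -- some y i₀ θ leaves W (r+1)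
  obtain ⟨i₀, hi₀⟩ : ∃ i₀, y i₀ * θ ∉ Wsp F y (r + 1) := by
    by_contra hno
    push Not at hno
    apply htop
    refine eq_top_of_stable y hgen ?_ ⟨1, one_mem_Wsp y _, one_ne_zero⟩
    intro i v hv
    have e : y i * v = y i * (v - l v • θ) + l v • (y i * θ) := by
      rw [mul_sub, mul_smul_comm, sub_add_cancel]
    rw [e]
    exact Submodule.add_mem _ (mul_mem_Wsp y (hdec v hv) i) (Submodule.smul_mem _ _ (hno i))
  obtain ⟨l₁, hl₁, hl₁W⟩ := Submodule.exists_le_ker_of_notMem hi₀
  set l' : E →ₗ[F] F := (l₁ (y i₀ * θ))⁻¹ • l₁ with hl'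
  have hl'θ : l' (y i₀ * θ) = 1 := by
    rw [hl', LinearMap.smul_apply, smul_eq_mul, inv_mul_cancel₀ hl₁]
  have hl'W : ∀ w ∈ Wsp F y (r + 1), l' w = 0 := by
    intro w hw
    have : l₁ w = 0 := hl₁W hw
    rw [hl', LinearMap.smul_apply, this, smul_zero]
  -- proportionality
  have hprop : ∀ j, ∀ φ ∈ Wsp F y r, l (y j * φ) = l' (y j * θ) * l (y i₀ * φ) := by
    intro j φ hφ
    have e1 : l' (y i₀ * (y j * φ)) = l (y j * φ) := by
      have hd := hdec _ (mul_mem_Wsp y hφ j)
      have e : y i₀ * (y j * φ) = y i₀ * (y j * φ - l (y j * φ) • θ) + l (y j * φ) • (y i₀ * θ) := by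
        rw [mul_sub, mul_smul_comm, sub_add_cancel]
      rw [e, map_add, hl'W _ (mul_mem_Wsp y hd i₀), map_smul, hl'θ, zero_add, smul_eq_mul, mul_one]
    have e2 : l' (y j * (y i₀ * φ)) = l (y i₀ * φ) * l' (y j * θ) := by
      have hd := hdec _ (mul_mem_Wsp y hφ i₀)
      have e : y j * (y i₀ * φ) = y j * (y i₀ * φ - l (y i₀ * φ) • θ) + l (y i₀ * φ) • (y j * θ) := by
        rw [mul_sub, mul_smul_comm, sub_add_cancel]
      rw [e, map_add, hl'W _ (mul_mem_Wsp y hd j), map_smul, zero_add, smul_eq_mul]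
    rw [← e1, mul_left_comm, e2, mul_comm]
  set u : Fin t → E := fun j => y j - l' (y j * θ) • y i₀ with hu
  have huW : ∀ j, ∀ φ ∈ Wsp F y r, u j * φ ∈ Wsp F y r := by
    intro j φ hφ
    have h4 : u j * φ = y j * φ - l' (y j * θ) • (y i₀ * φ) := by
      rw [hu]; simp only []; rw [sub_mul, smul_mul_assoc]
    have h5 : u j * φ ∈ Wsp F y (r + 1) := by
      rw [h4]
      exact Submodule.sub_mem _ (mul_mem_Wsp y hφ j) (Submodule.smul_mem _ _ (mul_mem_Wsp y hφ i₀))
    have h6 : l (u j * φ) = 0 := by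
      rw [h4, map_sub, map_smul, hprop j φ hφ, smul_eq_mul, sub_self]
    have h7 := hdec _ h5
    rwa [h6, zero_smul, sub_zero] at h7
  -- some u j is not in F
  obtain ⟨j, hj⟩ : ∃ j, ∀ c : F, u j ≠ algebraMap F E c := by
    by_contra hno
    push Not at hno
    have hle : Submodule.span F (insert 1 (Set.range y)) ≤ Submodule.span F {1, y i₀} := by
      rw [Submodule.span_le]
      intro z hz
      rcases hz with rfl | ⟨j, rfl⟩
      · exact Submodule.subset_span (by simp)
      · obtain ⟨c, hc⟩ := hno j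
        have e : y j = c • (1 : E) + l' (y j * θ) • y i₀ := by
          rw [← Algebra.algebraMap_eq_smul_one, ← hc, hu]; simp
        rw [SetLike.mem_coe, e]
        exact Submodule.add_mem _ (Submodule.smul_mem _ _ (Submodule.subset_span (by simp)))
          (Submodule.smul_mem _ _ (Submodule.subset_span (by simp)))
    have h8 := Submodule.finrank_mono hle
    have h9 : finrank F (Submodule.span F ({1, y i₀} : Set E)) ≤ 2 := by
      classical
      have := finrank_span_finset_le_card (R := F) ({1, y i₀} : Finset E)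
      have h10 : ((({1, y i₀} : Finset E) : Set E)) = {1, y i₀} := by simp
      rw [Set.finrank, h10] at this
      exact this.trans Finset.card_le_two
    omega
  -- final contradiction
  have huW1 : ∀ v ∈ Wsp F y (r + 1), u j * v ∈ Wsp F y (r + 1) := by
    have hle : Wsp F y (r + 1) ≤ (Wsp F y (r + 1)).comap (LinearMap.mulLeft F (u j)) := by
      refine Wsp_succ_le y ?_ ?_
      · intro w hw
        exact Wsp_mono y (Nat.le_succ r) (huW j w hw)
      · intro i w hw
        rw [Submodule.mem_comap, LinearMap.mulLeft_apply, mul_left_comm]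
        exact mul_mem_Wsp y (huW j w hw) i
    exact fun v hv => hle hv
  set c : F := l (u j * θ) with hc
  have hcθ : (u j - algebraMap F E c) * θ ∈ Wsp F y r := by
    have := hdec _ (huW1 θ hθ)
    rw [sub_mul, ← Algebra.smul_def]
    exact this
  have hune : u j - algebraMap F E c ≠ 0 := sub_ne_zero.mpr (hj c)
  set g : E := u j - algebraMap F E c with hg
  have hgW : ∀ w ∈ Wsp F y r, g * w ∈ Wsp F y r := by
    intro w hw
    rw [hg, sub_mul, ← Algebra.smul_def]
    exact Submodule.sub_mem _ (huW j w hw) (Submodule.smul_mem _ _ hw)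
  let T : Wsp F y r →ₗ[F] Wsp F y r := (LinearMap.mulLeft F g).restrict hgW
  have hTinj : Function.Injective T := by
    intro a b hab
    have : g * (a : E) = g * (b : E) := congrArg Subtype.val hab
    exact Subtype.ext (mul_left_cancel₀ hune this)
  have hTsurj : Function.Surjective T := LinearMap.surjective_of_injective hTinj
  obtain ⟨w, hw⟩ := hTsurj ⟨g * θ, hcθ⟩
  have hw' : g * (w : E) = g * θ := congrArg Subtype.val hw
  have : (w : E) = θ := mul_left_cancel₀ hune hw'
  exact hθn (this ▸ w.2)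

theorem finrank_Wsp_ge (hgen : Algebra.adjoin F (Set.range y) = ⊤)
    (h3 : 3 ≤ finrank F (Submodule.span F (insert 1 (Set.range y))) ∨ finrank F E ≤ 2) (r : ℕ) :
    min (finrank F E) (2 * r + 1) ≤ finrank F (Wsp F y r) := by
  have hpos : ∀ r, 1 ≤ finrank F (Wsp F y r) := by
    intro r
    rw [Nat.one_le_iff_ne_zero]
    intro h0
    rw [Submodule.finrank_eq_zero] at h0
    have := one_mem_Wsp (F := F) y r
    rw [h0, Submodule.mem_bot] at this
    exact one_ne_zero this
  have htop : ∀ r, Wsp F y r = ⊤ → finrank F (Wsp F y r) = finrank F E := by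
    intro r h; rw [h, finrank_top]
  rcases h3 with h3 | h3
  · induction r with
    | zero => exact (min_le_right _ _).trans (by simpa using hpos 0)
    | succ r ih =>
      by_cases h : Wsp F y (r + 1) = ⊤
      · rw [htop _ h]; exact min_le_left _ _
      · have := growth y hgen h3 h
        omega
  · rcases Nat.eq_zero_or_pos r with h | h
    · subst h; exact (min_le_right _ _).trans (by simpa using hpos 0)
    · refine (min_le_left _ _).trans ?_
      have h1 : finrank F E ≤ finrank F (Wsp F y 1) := by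
        by_cases h0 : Wsp F y 0 = ⊤
        · have h2 : Wsp F y 1 = ⊤ := by
            rw [eq_top_iff, ← h0]; exact Wsp_mono y (by omega)
          rw [htop _ h2]
        · have := finrank_lt_succ y hgen h0
          have := hpos 0
          have h5 : Wsp F y (0 + 1) = Wsp F y 1 := rfl
          rw [h5] at *
          omega
      exact h1.trans (Submodule.finrank_mono (Wsp_mono y h))

omit [FiniteDimensional F E] in
/-- greedy choice of monomials -/
theorem exists_greedy (r : ℕ) : ∃ S : Set (Fin t →₀ ℕ), LinearIndepOn F (mono y) S ∧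
    S ⊆ {κ | tdeg κ ≤ r} ∧
    ∀ r' ≤ r, Wsp F y r' ≤ Submodule.span F (mono y '' {κ | κ ∈ S ∧ tdeg κ ≤ r'}) := by
  induction r with
  | zero =>
    obtain ⟨b, hbt, -, hspan, hli⟩ := exists_linearIndepOn_extension (K := F) (v := mono y)
      (s := ∅) (t := {κ | tdeg κ ≤ 0}) (linearIndepOn_empty F _) (Set.empty_subset _)
    refine ⟨b, hli, hbt, fun r' hr' => ?_⟩
    have : r' = 0 := by omega
    subst this
    unfold Wsp
    rw [Submodule.span_le]
    have e : {κ | κ ∈ b ∧ tdeg κ ≤ 0} = b := by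
      ext κ; exact ⟨fun h => h.1, fun h => ⟨h, hbt h⟩⟩
    rw [e]; exact hspan
  | succ r ih =>
    obtain ⟨S, hli, hS, hsp⟩ := ih
    obtain ⟨b, hbt, hSb, hspan, hlib⟩ := exists_linearIndepOn_extension (K := F) (v := mono y)
      (s := S) (t := S ∪ {κ | tdeg κ = r + 1}) hli Set.subset_union_left
    refine ⟨b, hlib, ?_, fun r' hr' => ?_⟩
    · intro κ hκ
      rcases hbt hκ with h | h
      · have : tdeg κ ≤ r := hS h
        exact le_trans this (Nat.le_succ r)
      · exact le_of_eq h
    · rcases Nat.lt_or_ge r' (r + 1) with h | h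
      · refine (hsp r' (by omega)).trans (Submodule.span_mono (Set.image_mono ?_))
        rintro κ ⟨h1, h2⟩
        exact ⟨hSb h1, h2⟩
      · have hr'' : r' = r + 1 := by omega
        subst hr''
        have e : {κ | κ ∈ b ∧ tdeg κ ≤ r + 1} = b := by
          ext κ
          refine ⟨fun h => h.1, fun h => ⟨h, ?_⟩⟩
          rcases hbt h with h | h
          · have : tdeg κ ≤ r := hS h
            exact le_trans this (Nat.le_succ r)
          · exact le_of_eq h
        rw [e]
        conv_lhs => unfold Wsp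
        rw [Submodule.span_le]
        rintro _ ⟨κ, hκ, rfl⟩
        have hκ' : tdeg κ ≤ r + 1 := hκ
        rcases Nat.lt_or_ge (tdeg κ) (r + 1) with h1 | h1
        · have h2 : mono y κ ∈ Wsp F y r := mono_mem_Wsp y (by omega)
          have h3 := hsp r le_rfl h2
          refine Submodule.span_mono (Set.image_mono ?_) h3
          rintro κ' ⟨h4, -⟩
          exact hSb h4
        · exact hspan ⟨κ, Or.inr (show tdeg κ = r + 1 by omega), rfl⟩

theorem sum_trunc (μ N : ℕ) :
    4 * (∑ r ∈ Finset.range N, (μ - (2 * r + 1))) + (μ - 2 * N) ^ 2 ≤ μ ^ 2 := by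
  induction N with
  | zero => simp
  | succ N ih =>
    rw [Finset.sum_range_succ]
    rcases Nat.lt_or_ge μ (2 * N + 2) with h | h
    · have h1 : μ - (2 * N + 1) = 0 := by omega
      have h2 : μ - 2 * (N + 1) = 0 := by omega
      rw [h1, h2]
      have : 0 ≤ (μ - 2 * N) ^ 2 := Nat.zero_le _
      omega
    · obtain ⟨x, hx⟩ : ∃ x, μ = 2 * N + 2 + x := ⟨μ - (2 * N + 2), by omega⟩
      have h1 : μ - (2 * N + 1) = x + 1 := by omega
      have h2 : μ - 2 * (N + 1) = x := by omega
      have h3 : μ - 2 * N = x + 2 := by omega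
      rw [h1, h2]
      rw [h3] at ih
      nlinarith

/-- Module B1 (pure field theory: growth lemma and choice of a monomial basis). -/
theorem exists_monomial_basis (F E : Type) [Field F] [Field E] [CharZero F] [Algebra F E]
    [FiniteDimensional F E] (t : ℕ) (y : Fin t → E)
    (hgen : Algebra.adjoin F (Set.range y) = ⊤)
    (h3 : 3 ≤ finrank F (Submodule.span F (insert 1 (Set.range y))) ∨ finrank F E ≤ 2) :
    ∃ S : Finset (Fin t →₀ ℕ), S.card = finrank F E ∧
      LinearIndependent F (fun κ : S => mono y κ.1) ∧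
      (∀ κ ∈ S, ∀ κ' : Fin t →₀ ℕ, tdeg κ' < tdeg κ →
        mono y κ' ∈ Submodule.span F (Set.image (mono y) {κ'' | κ'' ∈ S ∧ tdeg κ'' < tdeg κ})) ∧
      4 * ∑ κ ∈ S, tdeg κ ≤ (finrank F E) ^ 2 := by
  classical
  set μ := finrank F E with hμ
  obtain ⟨S₀, hli, hS₀, hsp⟩ := exists_greedy (F := F) y μ
  have hli' : LinearIndependent F (fun κ : S₀ => mono y κ.1) := hli
  have hfin' : Finite S₀ := LinearIndependent.finite_of_isNoetherian hli'
  have hfin : S₀.Finite := hfin'
  set S : Finset (Fin t →₀ ℕ) := hfin.toFinset with hS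
  have hmem : ∀ κ, κ ∈ S ↔ κ ∈ S₀ := fun κ => by rw [hS]; exact hfin.mem_toFinset
  have hcard : ∀ B : Finset (Fin t →₀ ℕ), B ⊆ S →
      finrank F (Submodule.span F (mono y '' (B : Set (Fin t →₀ ℕ)))) = B.card := by
    intro B hB
    have hliB : LinearIndepOn F (mono y) (B : Set (Fin t →₀ ℕ)) :=
      hli.mono (fun κ hκ => (hmem κ).mp (hB hκ))
    have hliB' : LinearIndependent F (fun κ : (B : Set (Fin t →₀ ℕ)) => mono y κ.1) := hliB
    have h1 := finrank_span_eq_card hliB'
    have h2 : Set.range (fun κ : (B : Set (Fin t →₀ ℕ)) => mono y κ.1) =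
        mono y '' (B : Set (Fin t →₀ ℕ)) := by
      rw [Set.image_eq_range]
    rw [h2] at h1
    rw [h1]
    simp
  have hge : ∀ r ≤ μ, min μ (2 * r + 1) ≤ (S.filter (fun κ => tdeg κ ≤ r)).card := by
    intro r hr
    rw [← hcard _ (Finset.filter_subset _ _)]
    refine (finrank_Wsp_ge y hgen h3 r).trans (Submodule.finrank_mono ((hsp r hr).trans
      (Submodule.span_mono (Set.image_mono ?_))))
    rintro κ ⟨h1, h2⟩
    simp only [Finset.coe_filter, Set.mem_setOf_eq]
    exact ⟨(hmem κ).mpr h1, h2⟩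
  have hdegle : ∀ κ ∈ S, tdeg κ ≤ μ := fun κ hκ => hS₀ ((hmem κ).mp hκ)
  have hScard : S.card = μ := by
    apply le_antisymm
    · rw [← hcard S subset_rfl]
      exact Submodule.finrank_le _
    · have h1 := hge μ le_rfl
      have h2 : (S.filter (fun κ => tdeg κ ≤ μ)).card ≤ S.card := Finset.card_filter_le _ _
      have h4 : min μ (2 * μ + 1) = μ := min_eq_left (by omega)
      omega
  refine ⟨S, hScard, ?_, ?_, ?_⟩
  · have hliS : LinearIndepOn F (mono y) (S : Set (Fin t →₀ ℕ)) :=
      hli.mono (fun κ hκ => (hmem κ).mp hκ)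
    exact hliS
  · intro κ hκ κ' hlt
    have h1 : mono y κ' ∈ Wsp F y (tdeg κ - 1) := mono_mem_Wsp y (by omega)
    have h2 := hsp (tdeg κ - 1) (by have := hdegle κ hκ; omega) h1
    refine Submodule.span_mono (Set.image_mono ?_) h2
    rintro κ'' ⟨h4, h5⟩
    exact ⟨(hmem κ'').mpr h4, by omega⟩
  · have h1 : ∑ κ ∈ S, tdeg κ = ∑ r ∈ Finset.range μ, (S.filter (fun κ => r < tdeg κ)).card := by
      have h2 : ∀ κ ∈ S, tdeg κ = ∑ r ∈ Finset.range μ, if r < tdeg κ then 1 else 0 := by
        intro κ hκ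
        rw [← Finset.card_filter]
        have h4 : (Finset.range μ).filter (fun r => r < tdeg κ) = Finset.range (tdeg κ) := by
          ext r
          simp only [Finset.mem_filter, Finset.mem_range]
          have := hdegle κ hκ
          omega
        rw [h4, Finset.card_range]
      rw [Finset.sum_congr rfl h2, Finset.sum_comm]
      refine Finset.sum_congr rfl fun r _ => ?_
      rw [← Finset.card_filter]
    have h2 : ∑ κ ∈ S, tdeg κ ≤ ∑ r ∈ Finset.range μ, (μ - (2 * r + 1)) := by
      rw [h1]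
      refine Finset.sum_le_sum fun r hr => ?_
      have hr' : r ≤ μ := (Finset.mem_range.mp hr).le
      have h4 := hge r hr'
      have h5 : (S.filter (fun κ => tdeg κ ≤ r)).card + (S.filter (fun κ => ¬ tdeg κ ≤ r)).card
          = S.card := Finset.card_filter_add_card_filter_not _
      have h6 : (S.filter (fun κ => ¬ tdeg κ ≤ r)) = (S.filter (fun κ => r < tdeg κ)) := by
        refine Finset.filter_congr fun κ _ => ?_
        omega
      rw [h6, hScard] at h5
      omega
    have h4 := sum_trunc μ μ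
    have h5 : 4 * ∑ κ ∈ S, tdeg κ ≤ 4 * ∑ r ∈ Finset.range μ, (μ - (2 * r + 1)) :=
      Nat.mul_le_mul_left 4 h2
    omega

end

end Pool.Agent.Pyth
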