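import Pool.Agent.Lib_helper77.Pyth.Dickson
import Pool.Agent.Lib_helper77.Pyth.MonoBasis

namespace Pool.Agent.Pyth

open Polynomial

/-- sup norm bound for Dickson polynomials -/
theorem dseq_bound {ρ x : ℝ} (hρ : 0 < ρ) (hx : |x| ≤ ρ) (n : ℕ) :
    |dseq x (ρ ^ 2 / 4) n| ≤ 2 * (ρ / 2) ^ n := by
  set a : ℝ := ρ ^ 2 / 4 with ha
  set w : ℂ := ⟨x / 2, Real.sqrt (a - x ^ 2 / 4)⟩ with hw
  have hx2 : x ^ 2 ≤ ρ ^ 2 := by
    rw [← sq_abs x]; exact pow_le_pow_left₀ (abs_nonneg _) hx 2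
  have hnn : 0 ≤ a - x ^ 2 / 4 := by rw [ha]; linarith
  have hns : Complex.normSq w = a := by
    rw [Complex.normSq_apply, hw]
    simp only []
    rw [Real.mul_self_sqrt hnn]; ring
  have ha0 : 0 < a := by positivity
  have hw0 : w ≠ 0 := by
    intro h; rw [h] at hns; simp at hns; linarith
  have hnw : ‖w‖ = ρ / 2 := by
    have h1 : ‖w‖ ^ 2 = (ρ / 2) ^ 2 := by
      rw [← Complex.normSq_eq_norm_sq, hns, ha]; ring
    exact (pow_left_inj₀ (norm_nonneg _) (by positivity) (by norm_num)).mp h1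
  have hconj : (a : ℂ) / w = (starRingEnd ℂ) w := by
    rw [div_eq_iff hw0, mul_comm, Complex.mul_conj, hns]
  have hxw : (x : ℂ) = w + (a : ℂ) / w := by
    rw [hconj]
    apply Complex.ext
    · simp [hw]
    · simp [hw]
  have h1 : ((dseq x a n : ℝ) : ℂ) = w ^ n + ((a : ℂ) / w) ^ n := by
    have h2 := map_dseq (Complex.ofRealHom) x a n
    change ((dseq x a n : ℝ) : ℂ) = dseq ((x : ℝ) : ℂ) ((a : ℝ) : ℂ) n at h2
    rw [h2, hxw, dseq_add_div _ _ hw0]
  have h2 : |dseq x a n| = ‖((dseq x a n : ℝ) : ℂ)‖ := by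
    rw [Complex.norm_real, Real.norm_eq_abs]
  rw [h2, h1]
  refine (norm_add_le _ _).trans ?_
  rw [norm_pow, norm_pow, hconj, RCLike.norm_conj, hnw]
  linarith

/-- monic polynomials with small sup norm on `[-ρ, ρ]`, by coefficients -/
theorem exists_cheb_coeffs {ρ : ℝ} (hρ : 0 < ρ) : ∃ c : ℕ → ℕ → ℝ, (∀ n, c n n = 1) ∧
    ∀ n x, |x| ≤ ρ → |∑ j ∈ Finset.range (n + 1), c n j * x ^ j| ≤ 2 * (ρ / 2) ^ n := by
  refine ⟨fun n j => if n = 0 then 1 else (dseq (X : ℝ[X]) (C (ρ ^ 2 / 4)) n).coeff j, ?_, ?_⟩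
  · intro n
    rcases n with _ | n
    · simp
    · simp only [Nat.succ_ne_zero, if_false]
      obtain ⟨hm, hd⟩ := dseq_monic (ρ ^ 2 / 4 : ℝ) n
      have := hm.coeff_natDegree
      rwa [hd] at this
  · intro n x hx
    rcases n with _ | n
    · simp
    · simp only [Nat.succ_ne_zero, if_false]
      obtain ⟨hm, hd⟩ := dseq_monic (ρ ^ 2 / 4 : ℝ) n
      have h1 : ∑ j ∈ Finset.range (n + 1 + 1), (dseq (X : ℝ[X]) (C (ρ ^ 2 / 4)) (n + 1)).coeff j * x ^ j
          = (dseq (X : ℝ[X]) (C (ρ ^ 2 / 4)) (n + 1)).eval x := by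
        rw [eval_eq_sum_range, hd]
      have h2 : (dseq (X : ℝ[X]) (C (ρ ^ 2 / 4)) (n + 1)).eval x = dseq x (ρ ^ 2 / 4) (n + 1) := by
        have := map_dseq (evalRingHom x) (X : ℝ[X]) (C (ρ ^ 2 / 4)) (n + 1)
        simpa using this
      rw [h1, h2]
      exact dseq_bound hρ hx _

theorem tdeg_lt_of_le {t : ℕ} {κ κ' : Fin t →₀ ℕ} (h : ∀ i, κ' i ≤ κ i) (hne : κ' ≠ κ) :
    tdeg κ' < tdeg κ := by
  unfold tdeg
  refine Finset.sum_lt_sum (fun i _ => h i) ?_
  by_contra hno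
  push Not at hno
  apply hne
  ext i
  exact le_antisymm (h i) (hno i (Finset.mem_univ i))

/-- product Chebyshev polynomials in several variables -/
theorem exists_multi_cheb {ρ : ℝ} (hρ : 0 < ρ) {t : ℕ} (κ : Fin t →₀ ℕ) :
    ∃ (Λ : Finset (Fin t →₀ ℕ)) (C : (Fin t →₀ ℕ) → ℝ), (∀ l ∈ Λ, tdeg l < tdeg κ) ∧
      ∀ v : Fin t → ℝ, (∀ i, |v i| ≤ ρ) →
        |mono v κ + ∑ l ∈ Λ, C l * mono v l| ≤ 2 ^ t * (ρ / 2) ^ tdeg κ := by
  classical
  obtain ⟨c, hc1, hc2⟩ := exists_cheb_coeffs hρ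
  set P : Finset (Fin t → ℕ) := Fintype.piFinset (fun i => Finset.range (κ i + 1)) with hP
  set emb : (Fin t → ℕ) → (Fin t →₀ ℕ) := fun p => Finsupp.equivFunOnFinite.symm p with hemb
  have hembapp : ∀ p i, emb p i = p i := fun p i => rfl
  have hembinj : Function.Injective emb := Finsupp.equivFunOnFinite.symm.injective
  have hκP : (⇑κ) ∈ P := by
    rw [hP, Fintype.mem_piFinset]; intro i; simp
  have hembκ : emb (⇑κ) = κ := by ext i; rfl
  refine ⟨(P.erase (⇑κ)).image emb, fun l => ∏ i, c (κ i) (l i), ?_, ?_⟩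
  · intro l hl
    rw [Finset.mem_image] at hl
    obtain ⟨p, hp, rfl⟩ := hl
    rw [Finset.mem_erase, hP, Fintype.mem_piFinset] at hp
    refine tdeg_lt_of_le (fun i => ?_) ?_
    · have := Finset.mem_range.mp (hp.2 i)
      rw [hembapp]; omega
    · intro h
      apply hp.1
      funext i
      have := congrArg (fun f : Fin t →₀ ℕ => f i) h
      exact this
  · intro v hv
    have h1 : mono v κ + ∑ l ∈ (P.erase (⇑κ)).image emb, (∏ i, c (κ i) (l i)) * mono v l =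
        ∏ i, ∑ j ∈ Finset.range (κ i + 1), c (κ i) j * v i ^ j := by
      rw [Finset.prod_univ_sum, ← Finset.add_sum_erase _ _ hκP]
      congr 1
      · unfold mono
        refine Finset.prod_congr rfl fun i _ => ?_
        rw [hc1, one_mul]
      · rw [Finset.sum_image (fun a _ b _ h => hembinj h)]
        refine Finset.sum_congr rfl fun p _ => ?_
        rw [Finset.prod_mul_distrib]
        rfl
    rw [h1, Finset.abs_prod]
    calc ∏ i, |∑ j ∈ Finset.range (κ i + 1), c (κ i) j * v i ^ j|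
        ≤ ∏ i, (2 * (ρ / 2) ^ (κ i)) :=
          Finset.prod_le_prod (fun i _ => abs_nonneg _) (fun i _ => hc2 _ _ (hv i))
      _ = 2 ^ t * (ρ / 2) ^ tdeg κ := by
          rw [Finset.prod_mul_distrib, Finset.prod_const, Finset.card_univ, Fintype.card_fin,
            Finset.prod_pow_eq_pow_sum]
          rfl

end Pool.Agent.Pyth
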