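import Mathlib

/-!
Common definitions for the proof of S16891 (Pythagoras numbers of rings of integers of infinite
totally real fields).
-/

namespace Pool.Agent.Pyth

open Polynomial NumberField

/-- Every complex embedding of `K` is real. -/
def TotReal (K : Type*) [Field K] : Prop := ∀ (φ : K →+* ℂ) (x : K), (φ x).im = 0

/-- The normalised logarithmic norm `log |N(x)| / [K : ℚ]`. -/
noncomputable def lam (K : Type*) [Field K] [NumberField K] (x : K) : ℝ :=
  Real.log |((Algebra.norm ℚ x : ℚ) : ℝ)| / (Module.finrank ℚ K : ℝ)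

/-- `x` is a sum of `n` squares of integral elements of `K`. -/
def SumSq (K : Type*) [Field K] (n : ℕ) (x : K) : Prop :=
  ∃ f : Fin n → K, (∀ i, IsIntegral ℤ (f i)) ∧ x = ∑ i, f i ^ 2

/-- the monomial `∏ y i ^ κ i` -/
noncomputable def mono {E : Type*} [CommRing E] {t : ℕ} (y : Fin t → E) (κ : Fin t →₀ ℕ) : E :=
  ∏ i, y i ^ κ i

/-- total degree of a multi-index -/
def tdeg {t : ℕ} (κ : Fin t →₀ ℕ) : ℕ := ∑ i, κ i

end Pool.Agent.Pyth
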