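import Pool.Agent.Lib_helper77.Pyth.Defs

namespace Pool.Agent.Pyth

open Polynomial

section

variable {R : Type*} [CommRing R] (x a : R)

/-- Dickson polynomials of the second kind (shifted) -/
def sseq : ℕ → R
  | 0 => 0
  | 1 => 1
  | n + 2 => x * sseq (n + 1) - a * sseq n

/-- Dickson polynomials of the first kind -/
def dseq : ℕ → R
  | 0 => 2
  | 1 => x
  | n + 2 => x * dseq (n + 1) - a * dseq n

theorem sseq_succ_succ (n : ℕ) : sseq x a (n + 2) = x * sseq x a (n + 1) - a * sseq x a n := rfl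
theorem dseq_succ_succ (n : ℕ) : dseq x a (n + 2) = x * dseq x a (n + 1) - a * dseq x a n := rfl

theorem sseq_identity (n : ℕ) :
    sseq x a (n + 1) ^ 2 - x * sseq x a (n + 1) * sseq x a n + a * sseq x a n ^ 2 = a ^ n := by
  induction n with
  | zero => simp [sseq]
  | succ n ih =>
    rw [sseq_succ_succ, show a ^ (n + 1) = a * a ^ n by ring, ← ih]
    ring

theorem dseq_eq (n : ℕ) : dseq x a n = 2 * sseq x a (n + 1) - x * sseq x a n := by
  induction n using Nat.twoStepInduction with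
  | zero => simp [sseq, dseq]
  | one => simp only [sseq, dseq]; ring
  | more n ih1 ih2 =>
    rw [dseq_succ_succ, ih1, ih2]
    simp only [sseq_succ_succ]
    ring

theorem dseq_sq (n : ℕ) : (4 * a - x ^ 2) * sseq x a n ^ 2 = 4 * a ^ n - dseq x a n ^ 2 := by
  rw [dseq_eq, ← sseq_identity x a n]
  ring

theorem dseq_add_div {K : Type*} [Field K] (w a : K) (hw : w ≠ 0) (n : ℕ) :
    dseq (w + a / w) a n = w ^ n + (a / w) ^ n := by
  induction n using Nat.twoStepInduction with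
  | zero => simp [dseq]; norm_num
  | one => simp [dseq]
  | more n ih1 ih2 =>
    rw [dseq_succ_succ, ih1, ih2]
    have h : w * (a / w) = a := by field_simp
    have e : (w + a / w) * (w ^ (n + 1) + (a / w) ^ (n + 1)) - a * (w ^ n + (a / w) ^ n)
      = w ^ (n + 2) + (a / w) ^ (n + 2) + (w * (a / w) - a) * (w ^ n + (a / w) ^ n) := by ring
    rw [e, h]; ring

end

theorem dseq_monic {R : Type*} [CommRing R] [Nontrivial R] (a : R) (n : ℕ) :
    (dseq (X : R[X]) (C a) (n + 1)).Monic ∧ (dseq (X : R[X]) (C a) (n + 1)).natDegree = n + 1 := by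
  induction n using Nat.twoStepInduction with
  | zero => exact ⟨monic_X, natDegree_X⟩
  | one =>
    have e : dseq (X : R[X]) (C a) 2 = X ^ 2 - C (a * 2) := by
      simp only [dseq]
      rw [C_mul, show (C (2 : R) : R[X]) = 2 from rfl]; ring
    exact ⟨by rw [e]; exact monic_X_pow_sub_C _ (by norm_num), by rw [e]; exact natDegree_X_pow_sub_C⟩
  | more n ih1 ih2 =>
    rw [dseq_succ_succ]
    have hm : (X * dseq (X : R[X]) (C a) (n + 2)).Monic := monic_X.mul ih2.1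
    have hd : (X * dseq (X : R[X]) (C a) (n + 2)).natDegree = n + 3 := by
      rw [monic_X.natDegree_mul ih2.1, natDegree_X, ih2.2]; ring
    have hlt : (C a * dseq (X : R[X]) (C a) (n + 1)).degree <
        (X * dseq (X : R[X]) (C a) (n + 2)).degree := by
      rw [degree_eq_natDegree hm.ne_zero, hd]
      refine lt_of_le_of_lt (degree_le_natDegree) ?_
      have : (C a * dseq (X : R[X]) (C a) (n + 1)).natDegree ≤ n + 1 :=
        (natDegree_C_mul_le _ _).trans ih1.2.le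
      exact_mod_cast (by omega)
    refine ⟨hm.sub_of_left hlt, ?_⟩
    rw [natDegree_sub_eq_left_of_natDegree_lt, hd]
    rw [hd]
    exact lt_of_le_of_lt ((natDegree_C_mul_le _ _).trans ih1.2.le) (by omega)

theorem map_dseq {R S : Type*} [CommRing R] [CommRing S] (f : R →+* S) (x a : R) (n : ℕ) :
    f (dseq x a n) = dseq (f x) (f a) n := by
  induction n using Nat.twoStepInduction with
  | zero => exact map_ofNat f 2
  | one => simp [dseq]
  | more n ih1 ih2 => rw [dseq_succ_succ, dseq_succ_succ, map_sub, map_mul, map_mul, ih1, ih2]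

/-- roots of `D_k(z, b²) = c` with `|c| < 2 b^k` are real and lie in `[-2b, 2b]` -/
theorem dseq_root_real {b c : ℝ} (hb : 0 < b) {k : ℕ} (hk : 1 ≤ k) (hc : c ^ 2 < 4 * (b ^ 2) ^ k)
    {z : ℂ} (hz : dseq z ((b ^ 2 : ℝ) : ℂ) k = (c : ℂ)) : z.im = 0 ∧ |z.re| ≤ 2 * b := by
  set a : ℝ := b ^ 2 with ha
  have ha0 : 0 < a := by positivity
  -- choose `w`
  obtain ⟨w, hw⟩ : ∃ w : ℂ, w ^ 2 - z * w + (a : ℂ) = 0 := by
    obtain ⟨s, hs⟩ : ∃ s : ℂ, s ^ 2 = z ^ 2 - 4 * (a : ℂ) :=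
      IsAlgClosed.exists_pow_nat_eq _ (by norm_num)
    refine ⟨(z + s) / 2, ?_⟩
    have : ((z + s) / 2) ^ 2 - z * ((z + s) / 2) + (a : ℂ) = (s ^ 2 - (z ^ 2 - 4 * (a : ℂ))) / 4 := by
      ring
    rw [this, hs]; ring
  have hw0 : w ≠ 0 := by
    rintro rfl
    have : (a : ℂ) = 0 := by simpa using hw
    have : a = 0 := by exact_mod_cast this
    linarith
  have hzw : z = w + (a : ℂ) / w := by
    field_simp
    linear_combination (-1 : ℂ) * hw
  rw [hzw, dseq_add_div _ _ hw0] at hz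
  set v : ℂ := w ^ k with hv
  have hv0 : v ≠ 0 := pow_ne_zero _ hw0
  have hv2 : v ^ 2 - (c : ℂ) * v + ((a ^ k : ℝ) : ℂ) = 0 := by
    have h1 : ((a : ℂ) / w) ^ k = ((a ^ k : ℝ) : ℂ) / v := by
      rw [div_pow, hv]; push_cast; rfl
    rw [h1] at hz
    have h2 : (v + ((a ^ k : ℝ) : ℂ) / v) * v = (c : ℂ) * v := by rw [hz]
    rw [add_mul, div_mul_cancel₀ _ hv0] at h2
    linear_combination h2
  have hre := congrArg Complex.re hv2
  have him := congrArg Complex.im hv2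
  simp only [Complex.add_re, Complex.sub_re, Complex.add_im, Complex.sub_im, Complex.mul_re,
    Complex.mul_im, Complex.ofReal_re, Complex.ofReal_im, pow_two, Complex.zero_re,
    Complex.zero_im] at hre him
  have hnv : v.re ^ 2 + v.im ^ 2 = a ^ k := by
    have hq : v.im * (2 * v.re - c) = 0 := by nlinarith
    rcases mul_eq_zero.mp hq with h | h
    · exfalso
      rw [h] at hre
      have : (v.re - c / 2) ^ 2 + (a ^ k - c ^ 2 / 4) = 0 := by nlinarith
      have h3 : 0 < a ^ k - c ^ 2 / 4 := by linarith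
      nlinarith [sq_nonneg (v.re - c / 2)]
    · have : c = 2 * v.re := by linarith
      rw [this] at hre
      nlinarith
  have hnw : Complex.normSq w = a := by
    have h1 : Complex.normSq v = a ^ k := by
      rw [Complex.normSq_apply]; nlinarith
    rw [hv, map_pow] at h1
    exact (pow_left_inj₀ (Complex.normSq_nonneg w) ha0.le (by omega)).mp h1
  have hconj : (a : ℂ) / w = (starRingEnd ℂ) w := by
    rw [div_eq_iff hw0, mul_comm, Complex.mul_conj, hnw]
  rw [hzw, hconj]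
  constructor
  · simp
  · have h1 : (w + (starRingEnd ℂ) w).re = 2 * w.re := by simp; ring
    rw [h1, abs_mul, abs_two]
    have h2 : |w.re| ≤ b := by
      rw [Complex.normSq_apply] at hnw
      apply abs_le_of_sq_le_sq _ hb.le
      nlinarith [sq_nonneg w.im]
    linarith

/-- Module D2. -/
theorem exists_dickson (b k c : ℕ) (hb : 1 ≤ b) (hk : 1 ≤ k) (hc : c < 2 * b ^ k) :
    ∃ P S : ℤ[X], P.Monic ∧ P.natDegree = k ∧
      P ∣ (C (4 * (b : ℤ) ^ 2) - X ^ 2) * S ^ 2 - C (4 * (b : ℤ) ^ (2 * k) - (c : ℤ) ^ 2) ∧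
      ∀ z : ℂ, aeval z P = 0 → z.im = 0 ∧ |z.re| ≤ 2 * b := by
  obtain ⟨n, rfl⟩ : ∃ n, k = n + 1 := ⟨k - 1, by omega⟩
  set D : ℤ[X] := dseq X (C ((b : ℤ) ^ 2)) (n + 1) with hD
  obtain ⟨hm, hd⟩ := dseq_monic ((b : ℤ) ^ 2) n
  have hlt : (C (c : ℤ)).degree < D.degree := by
    refine lt_of_le_of_lt degree_C_le ?_
    rw [degree_eq_natDegree hm.ne_zero, hd]
    exact_mod_cast Nat.succ_pos n
  refine ⟨D - C (c : ℤ), sseq X (C ((b : ℤ) ^ 2)) (n + 1), hm.sub_of_left hlt, ?_, ?_, ?_⟩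
  · rw [natDegree_sub_eq_left_of_natDegree_lt, hd]
    rw [natDegree_C]; rw [hd]; omega
  · have h := dseq_sq (X : ℤ[X]) (C ((b : ℤ) ^ 2)) (n + 1)
    refine ⟨-(D + C (c : ℤ)), ?_⟩
    have e1 : (C (4 * (b : ℤ) ^ 2) : ℤ[X]) = 4 * C ((b : ℤ) ^ 2) := by
      rw [C_mul]; rfl
    have e2 : (C (4 * (b : ℤ) ^ (2 * (n + 1)) - (c : ℤ) ^ 2) : ℤ[X]) =
        4 * (C ((b : ℤ) ^ 2)) ^ (n + 1) - C (c : ℤ) ^ 2 := by
      rw [C_sub, C_mul, pow_mul, C_pow, C_pow, C_pow (n := 2)]; rfl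
    rw [e1, e2, h]
    ring
  · intro z hz
    have h1 : dseq z (((b : ℝ) ^ 2 : ℝ) : ℂ) (n + 1) = ((c : ℝ) : ℂ) := by
      rw [map_sub, aeval_C, sub_eq_zero] at hz
      have h2 := map_dseq (aeval z : ℤ[X] →ₐ[ℤ] ℂ).toRingHom (X : ℤ[X]) (C ((b : ℤ) ^ 2)) (n + 1)
      have h3 : (aeval z : ℤ[X] →ₐ[ℤ] ℂ).toRingHom X = z := aeval_X z
      have h4 : (aeval z : ℤ[X] →ₐ[ℤ] ℂ).toRingHom (C ((b : ℤ) ^ 2)) = (((b : ℝ) ^ 2 : ℝ) : ℂ) := by
        change aeval z (C ((b : ℤ) ^ 2)) = _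
        rw [aeval_C]; push_cast; simp
      rw [h3, h4] at h2
      rw [← h2]
      change aeval z D = _
      rw [hz]; simp
    have hb0 : (0 : ℝ) < b := by exact_mod_cast hb
    refine dseq_root_real hb0 (by omega) ?_ h1
    have hc' : (c : ℝ) < 2 * (b : ℝ) ^ (n + 1) := by exact_mod_cast hc
    have hc0 : (0 : ℝ) ≤ c := Nat.cast_nonneg _
    calc (c : ℝ) ^ 2 < (2 * (b : ℝ) ^ (n + 1)) ^ 2 := by
          exact pow_lt_pow_left₀ hc' hc0 (by norm_num)
      _ = 4 * ((b : ℝ) ^ 2) ^ (n + 1) := by rw [mul_pow, ← pow_mul, ← pow_mul, mul_comm (n+1) 2]; norm_num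

end Pool.Agent.Pyth
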