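import Pool.Agent.Lib_helper77.Pyth.Dickson

namespace Pool.Agent.Pyth

open Module Matrix NumberField

/-- the discriminant of a basis of integral elements is at least the field discriminant -/
theorem abs_discr_le_of_basis (E : Type) [Field E] [NumberField E] {κ : Type} [Fintype κ]
    [DecidableEq κ] (b : Basis κ ℚ E) (hb : ∀ i, IsIntegral ℤ (b i)) :
    |(NumberField.discr E : ℝ)| ≤ |((Algebra.discr ℚ b : ℚ) : ℝ)| := by
  classical
  set ι := Free.ChooseBasisIndex ℤ (𝓞 E) with hι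
  set b₀ : Basis ι ℚ E := integralBasis E with hb₀
  set e : κ ≃ ι := b.indexEquiv b₀ with he
  set b' : Basis ι ℚ E := b.reindex e with hb'
  have h1 : Algebra.discr ℚ b' = Algebra.discr ℚ b := by
    rw [hb', Basis.coe_reindex]
    exact Algebra.discr_reindex ℚ b e
  have h2 : Algebra.discr ℚ b' = (b₀.toMatrix b').det ^ 2 * Algebra.discr ℚ b₀ := by
    have h3 := Algebra.discr_of_matrix_vecMul (A := ℚ) (b₀ : ι → E) (b₀.toMatrix b')
    rw [Basis.toMatrix_map_vecMul] at h3
    exact h3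
  -- integrality of the matrix
  have h4 : ∃ P : Matrix ι ι ℤ, P.map (algebraMap ℤ ℚ) = b₀.toMatrix b' := by
    refine ⟨fun i j => (RingOfIntegers.basis E).repr
      ⟨b' j, by rw [hb', Basis.reindex_apply]; exact hb _⟩ i, ?_⟩
    ext i j
    rw [Matrix.map_apply, Basis.toMatrix_apply, hb₀]
    exact (integralBasis_repr_apply E ⟨b' j, by rw [hb', Basis.reindex_apply]; exact hb _⟩ i).symm
  obtain ⟨P, hP⟩ := h4
  have h5 : (b₀.toMatrix b').det = (P.det : ℚ) := by
    rw [← hP]
    have := (RingHom.map_det (algebraMap ℤ ℚ) P).symm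
    rw [RingHom.mapMatrix_apply] at this
    rw [this]; simp
  have h6 : Algebra.discr ℚ b₀ = (NumberField.discr E : ℚ) := (NumberField.coe_discr E).symm
  have h7 : (Algebra.discr ℚ b' : ℚ) ≠ 0 := Algebra.discr_not_zero_of_basis ℚ b'
  have h8 : P.det ≠ 0 := by
    intro h0
    rw [h2, h5, h0] at h7
    simp at h7
  have h9 : (1 : ℝ) ≤ ((P.det : ℤ) : ℝ) ^ 2 := by
    have : (1 : ℤ) ≤ P.det ^ 2 := by
      have := sq_nonneg P.det
      have h10 : P.det ^ 2 ≠ 0 := pow_ne_zero 2 h8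
      omega
    exact_mod_cast this
  rw [← h1, h2, h5, h6]
  rw [Rat.cast_mul, Rat.cast_pow, Rat.cast_intCast, Rat.cast_intCast, abs_mul, abs_pow, sq_abs]
  have h10 : 0 ≤ |(NumberField.discr E : ℝ)| := abs_nonneg _
  nlinarith

/-- absolute value of the discriminant as a determinant of embeddings -/
theorem abs_discr_eq (E : Type) [Field E] [NumberField E] {κ : Type} [Fintype κ]
    [DecidableEq κ] (b : κ → E) (e : κ ≃ (E →ₐ[ℚ] ℂ)) :
    |((Algebra.discr ℚ b : ℚ) : ℝ)| = ‖(Matrix.of (fun i j => e j (b i)) : Matrix κ κ ℂ).det‖ ^ 2 := by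
  have h := Algebra.discr_eq_det_embeddingsMatrixReindex_pow_two ℚ ℂ b e
  have h2 : Algebra.embeddingsMatrixReindex ℚ ℂ b e = Matrix.of (fun i j => e j (b i)) := by
    ext i j
    simp [Algebra.embeddingsMatrixReindex]
  rw [h2] at h
  have h3 := congrArg norm h
  rw [norm_pow] at h3
  rw [← h3]
  have h4 : (algebraMap ℚ ℂ) (Algebra.discr ℚ b) = (((Algebra.discr ℚ b : ℚ) : ℝ) : ℂ) := by
    simp
  rw [h4, Complex.norm_real, Real.norm_eq_abs]

/-- Leibniz bound for determinants -/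
theorem norm_det_le {κ : Type} [Fintype κ] [DecidableEq κ] (A : Matrix κ κ ℂ) (B : κ → ℝ)
    (h : ∀ i j, ‖A i j‖ ≤ B i) : ‖A.det‖ ≤ ((Fintype.card κ).factorial : ℝ) * ∏ i, B i := by
  rw [← Matrix.det_transpose, Matrix.det_apply]
  refine (norm_sum_le _ _).trans ?_
  have h1 : ∀ σ ∈ (Finset.univ : Finset (Equiv.Perm κ)),
      ‖Equiv.Perm.sign σ • ∏ i, Aᵀ (σ i) i‖ ≤ ∏ i, B i := by
    intro σ _
    have h2 : ‖Equiv.Perm.sign σ • ∏ i, Aᵀ (σ i) i‖ = ‖∏ i, Aᵀ (σ i) i‖ := by
      rcases Int.units_eq_one_or (Equiv.Perm.sign σ) with hs | hs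
      · rw [hs, one_smul]
      · rw [hs, Units.neg_smul, one_smul, norm_neg]
    rw [h2, norm_prod]
    exact Finset.prod_le_prod (fun i _ => norm_nonneg _) (fun i _ => by
      rw [Matrix.transpose_apply]; exact h i (σ i))
  refine (Finset.sum_le_sum h1).trans ?_
  rw [Finset.sum_const, Finset.card_univ, Fintype.card_perm, nsmul_eq_mul]

/-- unitriangular change of rows -/
theorem norm_det_le_of_triangular {κ : Type} [Fintype κ] [DecidableEq κ] (deg : κ → ℕ)
    (Φ U : Matrix κ κ ℂ) (hU1 : ∀ i, U i i = 1) (hU0 : ∀ i j, i ≠ j → deg i ≤ deg j → U i j = 0)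
    (B : κ → ℝ) (h : ∀ i j, ‖(U * Φ) i j‖ ≤ B i) :
    ‖Φ.det‖ ≤ ((Fintype.card κ).factorial : ℝ) * ∏ i, B i := by
  have hdetU : U.det = 1 := by
    rw [← Matrix.det_transpose]
    have hBT : Matrix.BlockTriangular Uᵀ deg := by
      intro i j hij
      rw [Matrix.transpose_apply]
      refine hU0 j i ?_ hij.le
      rintro rfl
      exact lt_irrefl _ hij
    rw [hBT.det]
    refine Finset.prod_eq_one fun a _ => ?_
    have : (Uᵀ.toSquareBlock deg a) = 1 := by
      ext i j
      rw [Matrix.toSquareBlock_def, Matrix.of_apply, Matrix.transpose_apply]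
      by_cases hij : i = j
      · subst hij; rw [Matrix.one_apply_eq, hU1]
      · rw [Matrix.one_apply_ne hij]
        refine hU0 _ _ (fun h => hij (Subtype.ext h.symm)) ?_
        have h1 : deg i.1 = a := i.2
        have h2 : deg j.1 = a := j.2
        omega
    rw [this, Matrix.det_one]
  have h1 : (U * Φ).det = Φ.det := by rw [Matrix.det_mul, hdetU, one_mul]
  rw [← h1]
  exact norm_det_le _ B h

end Pool.Agent.Pyth
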