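import Pool.Agent.Lib_helper77.Pyth.Defs

namespace Pool.Agent.Pyth

open Polynomial NumberField Module

/-- Module A. -/
theorem span_dvd_different (E : Type) [Field E] [NumberField E] {Z W : 𝓞 E} {Q : ℕ}
    (hQ : Squarefree Q) (h : Z * W ^ 2 = (Q : 𝓞 E)) :
    Ideal.span {W} ∣ differentIdeal ℤ (𝓞 E) := by
  classical
  have hQ0 : Q ≠ 0 := hQ.ne_zero
  have hW0 : W ≠ 0 := by
    rintro rfl
    have : (Q : 𝓞 E) = 0 := by rw [← h]; simp
    exact hQ0 (by exact_mod_cast this)
  have hI0 : Ideal.span {W} ≠ (⊥ : Ideal (𝓞 E)) := by simpa using hW0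
  have hD0 : differentIdeal ℤ (𝓞 E) ≠ ⊥ := differentIdeal_ne_bot
  rw [UniqueFactorizationMonoid.dvd_iff_normalizedFactors_le_normalizedFactors hI0 hD0,
    Multiset.le_iff_count]
  intro P
  by_cases hP : P ∈ UniqueFactorizationMonoid.normalizedFactors (Ideal.span {W})
  swap
  · rw [Multiset.count_eq_zero_of_notMem hP]; exact Nat.zero_le _
  have hPprime : Prime P := UniqueFactorizationMonoid.prime_of_normalized_factor P hP
  have hPp : P.IsPrime := Ideal.isPrime_of_prime hPprime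
  have hP0 : P ≠ ⊥ := hPprime.ne_zero
  set v := Multiset.count P (UniqueFactorizationMonoid.normalizedFactors (Ideal.span {W})) with hv
  have hv1 : 1 ≤ v := Multiset.one_le_count_iff_mem.mpr hP
  have hnorm : normalize P = P := by simp
  have hcount : ∀ (J : Ideal (𝓞 E)), J ≠ ⊥ → ∀ n : ℕ, P ^ n ∣ J ↔
      n ≤ Multiset.count P (UniqueFactorizationMonoid.normalizedFactors J) := by
    intro J hJ n
    rw [pow_dvd_iff_le_emultiplicity,
      UniqueFactorizationMonoid.emultiplicity_eq_count_normalizedFactors hPprime.irreducible hJ, hnorm]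
    exact Nat.cast_le
  have hPv : P ^ v ∣ Ideal.span {W} := (hcount _ hI0 v).mpr le_rfl
  rw [← hcount _ hD0 v]
  -- the prime below
  have hcomap : (P.comap (algebraMap ℤ (𝓞 E))).IsPrime := Ideal.comap_isPrime _ _
  obtain ⟨p, hp⟩ : ∃ p : ℤ, P.comap (algebraMap ℤ (𝓞 E)) = Ideal.span {p} :=
    ⟨_, (Submodule.IsPrincipal.span_singleton_generator _).symm⟩
  have hQmem : (Q : 𝓞 E) ∈ P := by
    have h1 : P ∣ Ideal.span {W} := dvd_trans (dvd_pow_self P (by omega)) hPv
    have h2 : W ∈ P := (Ideal.span_singleton_le_iff_mem _).mp (Ideal.dvd_iff_le.mp h1)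
    rw [← h]
    exact P.mul_mem_left _ (P.pow_mem_of_mem h2 2 (by norm_num))
  have hpQ : p ∣ (Q : ℤ) := by
    have : ((Q : ℤ)) ∈ P.comap (algebraMap ℤ (𝓞 E)) := by
      rw [Ideal.mem_comap]; simpa using hQmem
    rwa [hp, Ideal.mem_span_singleton] at this
  have hp0 : p ≠ 0 := by
    rintro rfl
    exact hQ0 (by exact_mod_cast zero_dvd_iff.mp hpQ)
  have hpprime : Prime p := by
    rw [← Ideal.span_singleton_prime hp0, ← hp]; exact hcomap
  obtain ⟨Q', hQ'⟩ := hpQ
  have hpQ' : ¬ p ∣ Q' := by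
    intro hd
    have hsq : Squarefree (Q : ℤ) := Int.squarefree_natCast.mpr hQ
    have : p * p ∣ (Q : ℤ) := by rw [hQ']; exact mul_dvd_mul_left p hd
    exact hpprime.not_isUnit (hsq p this)
  have hQ'P : ¬ P ∣ Ideal.span {(Q' : 𝓞 E)} := by
    intro hd
    have h2 : (Q' : 𝓞 E) ∈ P := (Ideal.span_singleton_le_iff_mem _).mp (Ideal.dvd_iff_le.mp hd)
    have : Q' ∈ P.comap (algebraMap ℤ (𝓞 E)) := by
      rw [Ideal.mem_comap]; simpa using h2
    rw [hp, Ideal.mem_span_singleton] at this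
    exact hpQ' this
  have h2v : P ^ (2 * v) ∣ Ideal.span {(p : 𝓞 E)} := by
    refine hPprime.pow_dvd_of_dvd_mul_right _ hQ'P ?_
    rw [Ideal.span_singleton_mul_span_singleton]
    have e1 : ((p : 𝓞 E) * (Q' : 𝓞 E)) = Z * W ^ 2 := by
      rw [h]
      have := congrArg (fun z : ℤ => (z : 𝓞 E)) hQ'
      push_cast at this
      exact this.symm
    rw [e1, ← Ideal.span_singleton_mul_span_singleton, ← Ideal.span_singleton_pow]
    refine dvd_mul_of_dvd_right ?_ _
    rw [mul_comm 2 v, pow_mul]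
    exact pow_dvd_pow_of_dvd hPv 2
  have hmax : (Ideal.span {p} : Ideal ℤ).IsMaximal :=
    PrincipalIdealRing.isMaximal_of_irreducible hpprime.irreducible
  have h3 : P ^ (2 * v - 1) ∣ differentIdeal ℤ (𝓞 E) := by
    refine pow_sub_one_dvd_differentIdeal (A := ℤ) (p := Ideal.span {p}) P (2 * v) ?_ ?_
    · simpa using hp0
    · rw [Ideal.map_span, Set.image_singleton]
      simpa using h2v
  exact (pow_dvd_pow P (by omega)).trans h3

/-- Module A. -/
theorem discr_lower (E : Type) [Field E] [NumberField E] {Z W : 𝓞 E} {Q : ℕ}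
    (hQ : Squarefree Q) (h : Z * W ^ 2 = (Q : 𝓞 E)) :
    (Algebra.norm ℤ W).natAbs ≤ (NumberField.discr E).natAbs := by
  have h1 := span_dvd_different E hQ h
  have h2 : Ideal.absNorm (Ideal.span {W}) ∣ Ideal.absNorm (differentIdeal ℤ (𝓞 E)) :=
    Ideal.absNorm_dvd_absNorm_of_le (Ideal.dvd_iff_le.mp h1)
  rw [Ideal.absNorm_span_singleton, NumberField.absNorm_differentIdeal (K := E)] at h2
  exact Nat.le_of_dvd (Int.natAbs_pos.mpr (NumberField.discr_ne_zero E)) h2

end Pool.Agent.Pyth
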