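import Pool.Agent.Lib_helper77.Pyth.Lam
import Pool.Agent.Lib_helper77.Pyth.DiscrLower

namespace Pool.Agent.Pyth

open Polynomial NumberField Module

theorem TotReal.of_algebra (F E : Type) [Field F] [Field E] [Algebra F E]
    [Algebra.IsAlgebraic F E] (hE : TotReal E) : TotReal F := by
  intro φ x
  let _ : Algebra F ℂ := φ.toAlgebra
  let ψ : E →ₐ[F] ℂ := IsAlgClosed.lift
  have h := hE ψ.toRingHom (algebraMap F E x)
  have h2 : ψ.toRingHom (algebraMap F E x) = φ x := ψ.commutes x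
  rw [h2] at h
  exact h

theorem TotReal.of_subfield {F E : Subfield ℂ} (h : F ≤ E) [NumberField E] (hE : TotReal E) :
    TotReal F := by
  let _ : Algebra F E := (Subfield.inclusion h).toAlgebra
  have : Algebra.IsAlgebraic F E := by
    have : IsScalarTower ℚ F E := IsScalarTower.of_algebraMap_eq (fun x => by simp)
    exact Algebra.IsAlgebraic.tower_top (K := ℚ) F
  exact TotReal.of_algebra F E hE

variable {L : Type} [Field L] [NumberField L]

theorem norm_ne_zero' {x : L} (hx : x ≠ 0) : |((Algebra.norm ℚ x : ℚ) : ℝ)| ≠ 0 := by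
  have : Algebra.norm ℚ x ≠ 0 := fun h => hx (Algebra.norm_eq_zero_iff.mp h)
  simpa using this

theorem lam_mul {x y : L} (hx : x ≠ 0) (hy : y ≠ 0) : lam L (x * y) = lam L x + lam L y := by
  unfold lam
  rw [map_mul, Rat.cast_mul, abs_mul, Real.log_mul (norm_ne_zero' hx) (norm_ne_zero' hy), add_div]

theorem lam_pow (x : L) (n : ℕ) : lam L (x ^ n) = n * lam L x := by
  unfold lam
  rw [map_pow, Rat.cast_pow, abs_pow, Real.log_pow, mul_div_assoc]

theorem lam_natCast (q : ℕ) : lam L (q : L) = Real.log q := by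
  rcases Nat.eq_zero_or_pos q with h | h
  · subst h
    simp [lam]
  · have hq : ((q : ℕ) : L) ≠ 0 := by exact_mod_cast h.ne'
    rw [lam_eq_sum hq]
    have : ∀ φ : L →+* ℂ, Real.log ‖φ (q : L)‖ = Real.log q := by
      intro φ; rw [map_natCast, Complex.norm_natCast]
    simp_rw [this]
    rw [Finset.sum_const, Finset.card_univ, nsmul_eq_mul, card_embeddings,
      mul_div_cancel_left₀ _ (finrank_pos' (L := L)).ne']

theorem lam_le_of_norm_le {x : L} (hx : x ≠ 0) {M : ℝ} (h : ∀ φ : L →+* ℂ, ‖φ x‖ ≤ M) :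
    lam L x ≤ Real.log M := by
  rw [lam_eq_sum hx, div_le_iff₀ (finrank_pos' (L := L))]
  calc ∑ φ : L →+* ℂ, Real.log ‖φ x‖ ≤ ∑ _φ : L →+* ℂ, Real.log M := by
        refine Finset.sum_le_sum fun φ _ => Real.log_le_log ?_ (h φ)
        simpa using hx
    _ = Real.log M * (finrank ℚ L : ℝ) := by
        rw [Finset.sum_const, Finset.card_univ, nsmul_eq_mul, card_embeddings, mul_comm]

theorem log_discr_ge {Q : ℕ} (hQ : Squarefree Q) {Z W : 𝓞 L} (h : Z * W ^ 2 = (Q : 𝓞 L)) :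
    (finrank ℚ L : ℝ) * lam L (W : L) ≤ Real.log |(NumberField.discr L : ℝ)| := by
  have hQ0 : Q ≠ 0 := hQ.ne_zero
  have hW0 : W ≠ 0 := by
    rintro rfl
    have : (Q : 𝓞 L) = 0 := by rw [← h]; simp
    exact hQ0 (by exact_mod_cast this)
  have h1 := discr_lower L hQ h
  unfold lam
  rw [mul_div_cancel₀ _ (finrank_pos' (L := L)).ne']
  have h2 : ((Algebra.norm ℤ W : ℤ) : ℚ) = Algebra.norm ℚ (W : L) := Algebra.coe_norm_int W
  rw [← h2]
  have h3 : Algebra.norm ℤ W ≠ 0 := by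
    intro h0
    have : Algebra.norm ℚ (W : L) = 0 := by rw [← h2, h0]; simp
    rw [Algebra.norm_eq_zero_iff] at this
    exact hW0 (by exact_mod_cast this)
  refine Real.log_le_log ?_ ?_
  · simpa using h3
  · have h4 : |Algebra.norm ℤ W| ≤ |NumberField.discr L| := by
      rw [Int.abs_eq_natAbs, Int.abs_eq_natAbs]
      exact_mod_cast h1
    have h5 : ((|Algebra.norm ℤ W| : ℤ) : ℝ) ≤ ((|NumberField.discr L| : ℤ) : ℝ) := by
      exact_mod_cast h4
    simpa using h5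

/-- lower bound for the discriminant -/
theorem log_discr_lower (hL : TotReal L) {b k c : ℕ} (hb : 1 ≤ b) (hk : 1 ≤ k)
    (hc : c ≤ b ^ k) (hsq : Squarefree (4 * b ^ (2 * k) - c ^ 2)) {X W : L}
    (hX : IsIntegral ℤ X) (hW : IsIntegral ℤ W)
    (hXW : (4 * (b : L) ^ 2 - X ^ 2) * W ^ 2 = 4 * (b : L) ^ (2 * k) - (c : L) ^ 2)
    (hXb : ∀ φ : L →+* ℂ, |(φ X).re| ≤ 2 * b) :
    (finrank ℚ L : ℝ) * (((k : ℝ) - 1) * Real.log b - 1) ≤
      Real.log |(NumberField.discr L : ℝ)| := by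
  have hb0 : (0 : ℝ) < b := by exact_mod_cast hb
  have hc2 : c ^ 2 ≤ b ^ (2 * k) := by
    calc c ^ 2 ≤ (b ^ k) ^ 2 := Nat.pow_le_pow_left hc 2
      _ = b ^ (2 * k) := by rw [← pow_mul, mul_comm]
  have hc3 : c ^ 2 ≤ 4 * b ^ (2 * k) := hc2.trans (by omega)
  set Q : ℕ := 4 * b ^ (2 * k) - c ^ 2 with hQdef
  have hQ3 : 3 * b ^ (2 * k) ≤ Q := by rw [hQdef]; omega
  have hbk : 0 < b ^ (2 * k) := by positivity
  have hQ0 : Q ≠ 0 := by omega
  have hQc : (Q : L) = 4 * (b : L) ^ (2 * k) - (c : L) ^ 2 := by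
    rw [hQdef, Nat.cast_sub hc3]; push_cast; ring
  set Z : L := 4 * (b : L) ^ 2 - X ^ 2 with hZdef
  have hZint : IsIntegral ℤ Z := by
    refine IsIntegral.sub ?_ (hX.pow 2)
    have : (4 * (b : L) ^ 2) = algebraMap ℤ L (4 * (b : ℤ) ^ 2) := by simp
    rw [this]; exact isIntegral_algebraMap
  have hZW : Z * W ^ 2 = (Q : L) := by rw [hXW, hQc]
  have hprod : Z * W ^ 2 ≠ 0 := by rw [hZW]; exact_mod_cast hQ0
  have hZ0 : Z ≠ 0 := left_ne_zero_of_mul hprod
  have hW0 : W ≠ 0 := by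
    intro h; rw [h] at hprod; simp at hprod
  have h1 : lam L Z + 2 * lam L W = Real.log Q := by
    rw [← lam_natCast (L := L) Q, ← hZW, lam_mul hZ0 (pow_ne_zero 2 hW0), lam_pow]
    norm_num
  have h2 : lam L Z ≤ Real.log (4 * (b : ℝ) ^ 2) := by
    refine lam_le_of_norm_le hZ0 fun φ => ?_
    have him := hL φ X
    obtain ⟨r, hr⟩ : ∃ r : ℝ, φ X = (r : ℂ) :=
      ⟨(φ X).re, by apply Complex.ext <;> simp [him]⟩
    have hrb := hXb φ
    rw [hr, Complex.ofReal_re] at hrb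
    have e : φ Z = ((4 * (b : ℝ) ^ 2 - r ^ 2 : ℝ) : ℂ) := by
      rw [hZdef, map_sub, map_mul, map_pow, map_pow, map_natCast, map_ofNat, hr]
      push_cast
      ring
    rw [e, Complex.norm_real, Real.norm_eq_abs, abs_of_nonneg]
    · nlinarith [sq_nonneg r]
    · have h4 : r ^ 2 ≤ (2 * b) ^ 2 := by
        rw [← sq_abs r]
        exact pow_le_pow_left₀ (abs_nonneg _) hrb 2
      nlinarith
  have h3 : Real.log (3 * (b : ℝ) ^ (2 * k)) ≤ Real.log Q := by
    refine Real.log_le_log (by positivity) ?_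
    exact_mod_cast hQ3
  rw [Real.log_mul (by norm_num) (by positivity), Real.log_pow] at h3
  rw [Real.log_mul (by norm_num) (by positivity), Real.log_pow] at h2
  have h5 : Real.log 4 - Real.log 3 ≤ 1 := by
    rw [← Real.log_div (by norm_num) (by norm_num)]
    have := Real.log_le_sub_one_of_pos (show (0 : ℝ) < 4 / 3 by norm_num)
    linarith
  have h6 : ((k : ℝ) - 1) * Real.log b - 1 ≤ lam L W := by
    push_cast at h2 h3
    linarith
  have hZ' : ∃ Z' : 𝓞 L, algebraMap (𝓞 L) L Z' = Z := ⟨⟨Z, hZint⟩, rfl⟩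
  have hW' : ∃ W' : 𝓞 L, algebraMap (𝓞 L) L W' = W := ⟨⟨W, hW⟩, rfl⟩
  obtain ⟨Z', hZ'⟩ := hZ'
  obtain ⟨W', hW'⟩ := hW'
  have h7 : Z' * W' ^ 2 = (Q : 𝓞 L) := by
    apply RingOfIntegers.coe_injective
    rw [map_mul, map_pow, map_natCast, hZ', hW', hZW]
  have h8 := log_discr_ge hsq h7
  have h9 : ((W' : 𝓞 L) : L) = W := hW'
  rw [h9] at h8
  refine le_trans ?_ h8
  exact mul_le_mul_of_nonneg_left h6 (Nat.cast_nonneg _)

end Pool.Agent.Pyth
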