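import Pool.Agent.Lib_helper77.Pyth.FiberDet
import Pool.Agent.Lib_helper77.Pyth.LowerBound
import Pool.Agent.Lib_helper77.Pyth.MonoBasis

namespace Pool.Agent.Pyth

open Module Matrix NumberField


theorem range_cons_pair {E : Type} (x y : E) : Set.range ![x, y] = {x, y} := by
  ext z
  simp only [Set.mem_range, Set.mem_insert_iff, Set.mem_singleton_iff]
  constructor
  · rintro ⟨i, rfl⟩
    fin_cases i <;> simp
  · rintro (rfl | rfl)
    · exact ⟨0, rfl⟩
    · exact ⟨1, rfl⟩

theorem dim_span {F E : Type} [Field F] [Field E] [NumberField E] [Algebra F E]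
    (hE : TotReal E) [FiniteDimensional F E] {t : ℕ} (y : Fin t → E)
    (hgen : Algebra.adjoin F (Set.range y) = ⊤) (γ : F)
    (hγ : ∑ i, y i ^ 2 = algebraMap F E γ) :
    3 ≤ finrank F (Submodule.span F (insert 1 (Set.range y))) ∨ finrank F E ≤ 2 := by
  by_contra hcon
  push Not at hcon
  obtain ⟨h1, h2⟩ := hcon
  set V := Submodule.span F (insert (1 : E) (Set.range y)) with hV
  have hyV : ∀ i, y i ∈ V := fun i => Submodule.subset_span (Set.mem_insert_of_mem _ ⟨i, rfl⟩)
  have h1V : (1 : E) ∈ V := Submodule.subset_span (Set.mem_insert _ _)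
  by_cases hall : ∀ i, ∃ c : F, y i = algebraMap F E c
  · -- E = F
    have htop : (Submodule.span F {(1 : E)}) = ⊤ := by
      refine eq_top_of_stable y hgen ?_ ⟨1, Submodule.mem_span_singleton_self _, one_ne_zero⟩
      intro i u hu
      obtain ⟨c, hc⟩ := hall i
      rw [hc, ← Algebra.smul_def]
      exact Submodule.smul_mem _ _ hu
    have h3 : finrank F E ≤ 1 := by
      rw [← finrank_top F E, ← htop]
      exact (finrank_span_singleton (K := F) (one_ne_zero : (1 : E) ≠ 0)).le
    omega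
  · push Not at hall
    obtain ⟨j, hj⟩ := hall
    set θ := y j with hθ
    have hli : LinearIndependent F ![(1 : E), θ] := by
      rw [LinearIndependent.pair_iff]
      intro a b hab
      have hb : b = 0 := by
        by_contra hb
        apply hj (-(b⁻¹ * a))
        have h3 : b • θ = -(a • (1 : E)) := by rw [eq_neg_iff_add_eq_zero, add_comm]; exact hab
        have h4 : θ = b⁻¹ • (b • θ) := by rw [smul_smul, inv_mul_cancel₀ hb, one_smul]
        rw [h4, h3, Algebra.algebraMap_eq_smul_one, smul_neg, smul_smul, neg_smul]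
      subst hb
      rw [zero_smul, add_zero] at hab
      have := (smul_eq_zero.mp hab).resolve_right one_ne_zero
      exact ⟨this, rfl⟩
    set U := Submodule.span F (Set.range ![(1 : E), θ]) with hU
    have hUfr : finrank F U = 2 := by
      have := finrank_span_eq_card hli
      simpa using this
    have hUV : U = V := by
      apply Submodule.eq_of_le_of_finrank_le
      · rw [hU, Submodule.span_le]
        rintro _ ⟨i, rfl⟩
        fin_cases i
        · exact h1V
        · exact hyV j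
      · omega
    have hab : ∀ i, ∃ a b : F, y i = a • (1 : E) + b • θ := by
      intro i
      have h3 : y i ∈ U := by rw [hUV]; exact hyV i
      rw [hU, range_cons_pair] at h3
      obtain ⟨a, b, h4⟩ := Submodule.mem_span_pair.mp h3
      exact ⟨a, b, h4.symm⟩
    choose a b hab using hab
    have hbj : b j = 1 := by
      have h3 := hab j
      rw [LinearIndependent.pair_iff] at hli
      have h4 := hli (a j) (b j - 1) (by
        rw [sub_smul, one_smul, add_sub, ← h3]; exact sub_self _)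
      exact sub_eq_zero.mp h4.2
    -- Σ b_i² ≠ 0
    have hsum : ∑ i, b i ^ 2 ≠ 0 := by
      intro h0
      obtain ⟨φ⟩ : Nonempty (E →+* ℂ) := inferInstance
      have hr : ∀ i, φ (algebraMap F E (b i)) = (((φ (algebraMap F E (b i))).re : ℝ) : ℂ) := by
        intro i
        apply Complex.ext
        · simp
        · simp [hE φ (algebraMap F E (b i))]
      have h3 := congrArg (fun z => (φ (algebraMap F E z)).re) h0
      simp only [map_sum, map_pow, map_zero, Complex.zero_re, Complex.re_sum] at h3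
      have h4 : ∀ i, ((φ (algebraMap F E (b i))) ^ 2).re = (φ (algebraMap F E (b i))).re ^ 2 := by
        intro i
        rw [hr i, ← Complex.ofReal_pow, Complex.ofReal_re, Complex.ofReal_re]
      simp_rw [h4] at h3
      have h5 := (Finset.sum_eq_zero_iff_of_nonneg (fun i _ => sq_nonneg _)).mp h3 j (Finset.mem_univ _)
      rw [hbj] at h5
      simp at h5
    -- θ² ∈ U
    have hθ2 : θ ^ 2 ∈ U := by
      have h3 : (∑ i, b i ^ 2) • θ ^ 2 = (γ - ∑ i, a i ^ 2) • (1 : E) - (2 * ∑ i, a i * b i) • θ := by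
        have h4 : ∑ i, y i ^ 2 = (∑ i, a i ^ 2) • (1 : E) + (2 * ∑ i, a i * b i) • θ +
            (∑ i, b i ^ 2) • θ ^ 2 := by
          rw [Finset.mul_sum, Finset.sum_smul, Finset.sum_smul, Finset.sum_smul,
            ← Finset.sum_add_distrib, ← Finset.sum_add_distrib]
          refine Finset.sum_congr rfl fun i _ => ?_
          rw [hab i]
          simp only [Algebra.smul_def, map_mul, map_pow, map_ofNat]
          ring
        rw [hγ, Algebra.algebraMap_eq_smul_one] at h4
        rw [sub_smul, h4]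
        abel
      have h5 : θ ^ 2 = (∑ i, b i ^ 2)⁻¹ • ((γ - ∑ i, a i ^ 2) • (1 : E) - (2 * ∑ i, a i * b i) • θ) := by
        rw [← h3, smul_smul, inv_mul_cancel₀ hsum, one_smul]
      rw [h5]
      refine Submodule.smul_mem _ _ (Submodule.sub_mem _ (Submodule.smul_mem _ _ ?_)
        (Submodule.smul_mem _ _ ?_))
      · exact Submodule.subset_span ⟨0, rfl⟩
      · exact Submodule.subset_span ⟨1, rfl⟩
    have htop : U = ⊤ := by
      refine eq_top_of_stable y hgen ?_ ⟨1, Submodule.subset_span ⟨0, rfl⟩, one_ne_zero⟩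
      intro i u hu
      have h3 : ∀ u ∈ U, θ * u ∈ U := by
        intro u hu
        rw [hU, range_cons_pair] at hu
        obtain ⟨c, d, h4⟩ := Submodule.mem_span_pair.mp hu
        rw [← h4, mul_add, mul_smul_comm, mul_smul_comm, mul_one, ← pow_two]
        exact Submodule.add_mem _ (Submodule.smul_mem _ _ (Submodule.subset_span ⟨1, rfl⟩))
          (Submodule.smul_mem _ _ hθ2)
      rw [hab i, add_mul, smul_mul_assoc, smul_mul_assoc, one_mul]
      exact Submodule.add_mem _ (Submodule.smul_mem _ _ hu) (Submodule.smul_mem _ _ (h3 u hu))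
    rw [htop, finrank_top] at hUfr
    omega

theorem exists_embeddings_equiv (F E : Type) [Field F] [NumberField F] [Field E] [NumberField E]
    [Algebra F E] (ι S : Type) [Fintype ι] [Fintype S] (eF : ι ≃ (F →ₐ[ℚ] ℂ))
    (hS : Fintype.card S = finrank F E) :
    ∃ e : ι × S ≃ (E →ₐ[ℚ] ℂ), ∀ a κ (x : F), e (a, κ) (algebraMap F E x) = eF a x := by
  classical
  have : FiniteDimensional F E := FiniteDimensional.right ℚ F E
  have hfib : ∀ σ : F →ₐ[ℚ] ℂ, Nonempty (S ≃ @AlgHom F E ℂ _ _ _ _ σ.toRingHom.toAlgebra) := by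
    intro σ
    let _ : Algebra F ℂ := σ.toRingHom.toAlgebra
    have h1 : Fintype.card (E →ₐ[F] ℂ) = finrank F E := AlgHom.card F E ℂ
    exact ⟨Fintype.equivOfCardEq (by rw [hS, h1])⟩
  have eS := fun σ => (hfib σ).some
  let e' : (Σ _ : ι, S) ≃ Σ f : F →ₐ[ℚ] ℂ, @AlgHom F E ℂ _ _ _ _ f.toRingHom.toAlgebra :=
    Equiv.sigmaCongr eF (fun a => eS (eF a))
  refine ⟨(Equiv.sigmaEquivProd ι S).symm.trans (e'.trans algHomEquivSigma.symm), ?_⟩
  intro a κ x
  have h1 : ((Equiv.sigmaEquivProd ι S).symm.trans (e'.trans algHomEquivSigma.symm)) (a, κ) =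
      (algHomEquivSigma (A := ℚ) (B := F) (C := E) (D := ℂ)).symm ⟨eF a, eS (eF a) κ⟩ := rfl
  rw [h1]
  let _ : Algebra F ℂ := (eF a).toRingHom.toAlgebra
  exact (eS (eF a) κ).commutes x

theorem det_factor {ι S : Type} [Fintype ι] [DecidableEq ι] [Fintype S] [DecidableEq S]
    (Ω : Matrix ι ι ℂ) (Φ : ι → Matrix S S ℂ) (M : Matrix (ι × S) (ι × S) ℂ)
    (hM : ∀ i κ a κ', M (i, κ) (a, κ') = Ω i a * Φ a κ κ') :
    M.det = Ω.det ^ Fintype.card S * ∏ a, (Φ a).det := by
  have h1 : M = (Matrix.kroneckerMap (· * ·) Ω (1 : Matrix S S ℂ)) *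
      ((Matrix.blockDiagonal Φ).submatrix (Equiv.prodComm ι S) (Equiv.prodComm ι S)) := by
    ext ⟨i, κ⟩ ⟨a, κ'⟩
    rw [hM, Matrix.mul_apply, Fintype.sum_prod_type]
    simp only [Matrix.kroneckerMap_apply, Matrix.submatrix_apply, Equiv.prodComm_apply,
      Prod.swap_prod_mk, Matrix.blockDiagonal_apply]
    rw [Finset.sum_eq_single a]
    · rw [Finset.sum_eq_single κ]
      · simp
      · intro κ'' _ h
        rw [Matrix.one_apply_ne h.symm]; simp
      · simp
    · intro b _ h
      refine Finset.sum_eq_zero fun κ'' _ => ?_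
      rw [if_neg h, mul_zero]
    · simp
  rw [h1, Matrix.det_mul, Matrix.det_kronecker, Matrix.det_one, one_pow, mul_one,
    Matrix.det_submatrix_equiv_self, Matrix.det_blockDiagonal]

/-- Module B (upper bound for discriminants). -/
theorem discr_upper (F E : Type) [Field F] [NumberField F] [Field E] [NumberField E] [Algebra F E]
    (hE : TotReal E) (t : ℕ) (y : Fin t → E) (hy : ∀ i, IsIntegral ℤ (y i))
    (hgen : Algebra.adjoin F (Set.range y) = ⊤) (γ : F) (hγ0 : γ ≠ 0)
    (hγ : ∑ i, y i ^ 2 = algebraMap F E γ) :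
    Real.log |(NumberField.discr E : ℝ)| ≤
      (finrank F E : ℝ) * Real.log |(NumberField.discr F : ℝ)|
      + 2 * (finrank ℚ F : ℝ) * (Real.log ((finrank F E).factorial : ℝ)
          + (t : ℝ) * (finrank F E : ℝ) * Real.log 2)
      + (finrank ℚ F : ℝ) * (finrank F E : ℝ) ^ 2 / 4 * max 0 (lam F γ - Real.log 4) := by
  classical
  have : FiniteDimensional F E := FiniteDimensional.right ℚ F E
  have hF : TotReal F := TotReal.of_algebra F E hE
  obtain ⟨S, hcard, hli, hspan, hdeg⟩ := exists_monomial_basis F E t y hgen (dim_span hE y hgen γ hγ)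
  set μ := finrank F E with hμ
  have hμpos : 0 < μ := Module.finrank_pos
  have hcardS : Fintype.card S = μ := by rw [Fintype.card_coe, hcard]
  have hSne : Nonempty S := by
    rw [← Fintype.card_pos_iff, hcardS]; exact hμpos
  set ι := Free.ChooseBasisIndex ℤ (𝓞 F) with hι
  set bF : Basis ι ℚ F := integralBasis F with hbF
  set bS : Basis S F E := basisOfLinearIndependentOfCardEqFinrank hli hcardS with hbS
  have hbSa : ∀ κ : S, bS κ = mono y κ.1 := by
    intro κ; rw [hbS, coe_basisOfLinearIndependentOfCardEqFinrank]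
  set bE : Basis (ι × S) ℚ E := bF.smulTower bS with hbE
  have hbEa : ∀ i κ, bE (i, κ) = algebraMap F E (bF i) * mono y κ.1 := by
    intro i κ
    rw [hbE, Basis.smulTower_apply, hbSa, Algebra.smul_def]
  have hint : ∀ p, IsIntegral ℤ (bE p) := by
    rintro ⟨i, κ⟩
    rw [hbEa]
    refine IsIntegral.mul ?_ ?_
    · refine IsIntegral.map_of_comp_eq (algebraMap ℤ ℤ) (algebraMap F E) ?_ ?_
      · ext; simp
      · rw [hbF, integralBasis_apply]
        exact RingOfIntegers.isIntegral_coe _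
    · unfold mono
      exact IsIntegral.prod _ fun i _ => (hy i).pow _
  have hle := abs_discr_le_of_basis E bE hint
  -- embeddings
  have hcι : Fintype.card ι = Fintype.card (F →ₐ[ℚ] ℂ) := by
    rw [AlgHom.card, finrank_eq_card_basis bF]
  set eF : ι ≃ (F →ₐ[ℚ] ℂ) := Fintype.equivOfCardEq hcι with heF
  obtain ⟨e, he⟩ := exists_embeddings_equiv F E ι S eF hcardS
  rw [abs_discr_eq E bE e] at hle
  set Ω : Matrix ι ι ℂ := Matrix.of (fun i a => eF a (bF i)) with hΩ
  set Φ : ι → Matrix S S ℂ := fun a => Matrix.of (fun κ κ' : S => e (a, κ') (mono y κ.1)) with hΦ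
  have hdet := det_factor Ω Φ (Matrix.of (fun p q => e q (bE p))) (by
    intro i κ a κ'
    rw [Matrix.of_apply, hbEa, map_mul, he]
    rfl)
  rw [hdet, hcardS] at hle
  have hdF : |(NumberField.discr F : ℝ)| = ‖Ω.det‖ ^ 2 := by
    rw [← abs_discr_eq F bF eF, hbF, ← NumberField.coe_discr]
    simp
  -- bound for the blocks
  set D := ∑ κ ∈ S, tdeg κ with hD
  set ρ : ι → ℝ := fun a => Real.sqrt ((eF a γ).re) with hρ
  have hreal : ∀ q i, (e q (y i)).im = 0 := fun q i => hE (e q).toRingHom (y i)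
  have hsq : ∀ a κ, (eF a γ).re = ∑ i, (e (a, κ) (y i)).re ^ 2 := by
    intro a κ
    rw [← he a κ γ, ← hγ, map_sum, Complex.re_sum]
    refine Finset.sum_congr rfl fun i _ => ?_
    rw [map_pow, pow_two, Complex.mul_re, hreal]
    ring
  have hγpos : ∀ a, 0 < (eF a γ).re := by
    intro a
    obtain ⟨κ⟩ := hSne
    have h1 : 0 ≤ (eF a γ).re := by
      rw [hsq a κ]; exact Finset.sum_nonneg fun i _ => sq_nonneg _
    have h2 : (eF a γ).im = 0 := hF (eF a).toRingHom γ
    have h3 : eF a γ ≠ 0 := by simpa using hγ0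
    rcases h1.lt_or_eq with h | h
    · exact h
    · exact absurd (Complex.ext h.symm h2) h3
  have hρpos : ∀ a, 0 < ρ a := fun a => Real.sqrt_pos.mpr (hγpos a)
  have hblock : ∀ a, ‖(Φ a).det‖ ≤ (μ.factorial : ℝ) * (2 ^ (t * μ) * (ρ a / 2) ^ D) := by
    intro a
    have h1 := fiber_det_bound y S hspan (eF a).toRingHom (fun κ => (e (a, κ)).toRingHom)
      (fun κ x => he a κ x) (hρpos a) (fun κ i => hreal (a, κ) i) (by
        intro κ i
        rw [← Real.sqrt_sq_eq_abs]
        refine Real.sqrt_le_sqrt ?_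
        rw [hsq a κ]
        exact Finset.single_le_sum (f := fun i => (e (a, κ) (y i)).re ^ 2)
          (fun i _ => sq_nonneg _) (Finset.mem_univ i))
    rw [hcard] at h1
    refine h1.trans (le_of_eq ?_)
    congr 1
    rw [Finset.prod_mul_distrib, Finset.prod_const, Finset.card_univ, hcardS, ← pow_mul,
      Finset.prod_pow_eq_pow_sum, Finset.sum_coe_sort S (fun κ => tdeg κ)]
  have hB : ∀ a, 0 < (μ.factorial : ℝ) * (2 ^ (t * μ) * (ρ a / 2) ^ D) := by
    intro a
    have := hρpos a
    have h2 : (0 : ℝ) < μ.factorial := by exact_mod_cast Nat.factorial_pos μ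
    positivity
  have hprod : ∏ a, ‖(Φ a).det‖ ≤ ∏ a, ((μ.factorial : ℝ) * (2 ^ (t * μ) * (ρ a / 2) ^ D)) :=
    Finset.prod_le_prod (fun a _ => norm_nonneg _) (fun a _ => hblock a)
  have hle2 : |(NumberField.discr E : ℝ)| ≤ |(NumberField.discr F : ℝ)| ^ μ *
      (∏ a, ((μ.factorial : ℝ) * (2 ^ (t * μ) * (ρ a / 2) ^ D))) ^ 2 := by
    refine hle.trans ?_
    rw [norm_mul, norm_pow, norm_prod, mul_pow, ← pow_mul, mul_comm μ 2, pow_mul, ← hdF]
    refine mul_le_mul_of_nonneg_left ?_ (by positivity)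
    exact pow_le_pow_left₀ (Finset.prod_nonneg fun a _ => norm_nonneg _) hprod 2
  have hdEpos : 0 < |(NumberField.discr E : ℝ)| := by
    rw [abs_pos]; exact_mod_cast NumberField.discr_ne_zero E
  have hdFpos : 0 < |(NumberField.discr F : ℝ)| := by
    rw [abs_pos]; exact_mod_cast NumberField.discr_ne_zero F
  have hP : 0 < ∏ a, ((μ.factorial : ℝ) * (2 ^ (t * μ) * (ρ a / 2) ^ D)) :=
    Finset.prod_pos fun a _ => hB a
  have hlog := Real.log_le_log hdEpos hle2
  rw [Real.log_mul (pow_pos hdFpos _).ne' (pow_pos hP 2).ne', Real.log_pow, Real.log_pow,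
    Real.log_prod (fun a _ => (hB a).ne')] at hlog
  have hterm : ∀ a, Real.log ((μ.factorial : ℝ) * (2 ^ (t * μ) * (ρ a / 2) ^ D)) =
      Real.log (μ.factorial : ℝ) + (t : ℝ) * (μ : ℝ) * Real.log 2 +
        (D : ℝ) * (Real.log ((eF a γ).re) / 2 - Real.log 2) := by
    intro a
    have h1 := hρpos a
    have h2 : (0 : ℝ) < μ.factorial := by exact_mod_cast Nat.factorial_pos μ
    rw [Real.log_mul h2.ne' (by positivity), Real.log_mul (by positivity) (by positivity),
      Real.log_pow, Real.log_pow, Real.log_div h1.ne' two_ne_zero, hρ]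
    simp only []
    rw [Real.log_sqrt (hγpos a).le]
    push_cast
    ring
  simp_rw [hterm] at hlog
  have hcι2 : (Fintype.card ι : ℝ) = (finrank ℚ F : ℝ) := by
    rw [finrank_eq_card_basis bF]
  have hsumlog : ∑ a, Real.log ((eF a γ).re) = (finrank ℚ F : ℝ) * lam F γ := by
    rw [mul_lam_eq_sum hγ0]
    refine Fintype.sum_equiv (eF.trans (RingHom.equivRatAlgHom F ℂ).symm) _ _ (fun a => ?_)
    have h1 := norm_eq_re_of_pos hF (φ := (eF a).toRingHom) (x := γ) (hγpos a).le
    congr 1
    exact h1.symm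
  rw [Finset.sum_add_distrib, ← Finset.mul_sum, Finset.sum_sub_distrib, ← Finset.sum_div, hsumlog,
    Finset.sum_const, Finset.sum_const, Finset.card_univ, nsmul_eq_mul, nsmul_eq_mul, hcι2] at hlog
  have hlog4 : Real.log 4 = 2 * Real.log 2 := by
    rw [show (4 : ℝ) = 2 ^ 2 by norm_num, Real.log_pow]; norm_num
  have hD4 : (D : ℝ) ≤ (μ : ℝ) ^ 2 / 4 := by
    have : ((4 * D : ℕ) : ℝ) ≤ ((μ ^ 2 : ℕ) : ℝ) := by exact_mod_cast hdeg
    push_cast at this
    linarith
  have hδ : (0 : ℝ) < (finrank ℚ F : ℝ) := finrank_pos'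
  have hmax1 : lam F γ - Real.log 4 ≤ max 0 (lam F γ - Real.log 4) := le_max_right _ _
  have hmax0 : 0 ≤ max 0 (lam F γ - Real.log 4) := le_max_left _ _
  have hDnn : (0 : ℝ) ≤ (D : ℝ) := Nat.cast_nonneg _
  have hfin : (D : ℝ) * (lam F γ - Real.log 4) ≤
      (μ : ℝ) ^ 2 / 4 * max 0 (lam F γ - Real.log 4) :=
    (mul_le_mul_of_nonneg_left hmax1 hDnn).trans (mul_le_mul_of_nonneg_right hD4 hmax0)
  have hfin2 := mul_le_mul_of_nonneg_left hfin hδ.le
  rw [hlog4] at hfin2 ⊢
  have e1 : (finrank ℚ F : ℝ) * (μ : ℝ) ^ 2 / 4 * max 0 (lam F γ - 2 * Real.log 2) =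
      (finrank ℚ F : ℝ) * ((μ : ℝ) ^ 2 / 4 * max 0 (lam F γ - 2 * Real.log 2)) := by ring
  rw [e1]
  refine hlog.trans ?_
  push_cast
  nlinarith [hfin2]

end Pool.Agent.Pyth
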