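import Pool.Agent.Lib_helper77.Pyth.Defs

namespace Pool.Agent.Pyth

theorem card_le_of_diff {J r : ℕ} (hr : 0 < r) (S : Finset ℕ) (hS : S ⊆ Finset.range J)
    (h : ∀ i ∈ S, ∀ j ∈ S, i ≡ j [MOD r]) : S.card ≤ J / r + 1 := by
  have h1 : Set.InjOn (fun j => j / r) (S : Set ℕ) := by
    intro i hi j hj hij
    have h2 := h i hi j hj
    simp only at hij
    rw [← Nat.div_add_mod i r, ← Nat.div_add_mod j r, hij, h2]
  have h2 : S.image (fun j => j / r) ⊆ Finset.range (J / r + 1) := by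
    intro x hx
    rw [Finset.mem_image] at hx
    obtain ⟨j, hj, rfl⟩ := hx
    rw [Finset.mem_range]
    have := Finset.mem_range.mp (hS hj)
    exact Nat.lt_succ_of_le (Nat.div_le_div_right this.le)
  rw [← Finset.card_image_of_injOn h1]
  simpa using Finset.card_le_card h2

theorem sum_odd_sq (T : ℕ) :
    (∑ i ∈ Finset.Icc 1 T, (1 : ℝ) / (2 * (i : ℝ) + 1) ^ 2) ≤ 1 / 4 := by
  have h : ∀ T : ℕ, (∑ i ∈ Finset.Icc 1 T, (1 : ℝ) / (2 * (i : ℝ) + 1) ^ 2) ≤
      1 / 4 - 1 / (4 * ((T : ℝ) + 1)) := by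
    intro T
    induction T with
    | zero => norm_num
    | succ T ih =>
      rw [Finset.sum_Icc_succ_top (by omega)]
      push_cast
      have h2 : (1 : ℝ) / (2 * ((T : ℝ) + 1) + 1) ^ 2 ≤
          1 / (4 * ((T : ℝ) + 1)) - 1 / (4 * ((T : ℝ) + 1 + 1)) := by
        have hT : (0 : ℝ) ≤ T := Nat.cast_nonneg T
        rw [div_sub_div _ _ (by positivity) (by positivity), div_le_div_iff₀ (by positivity) (by positivity)]
        nlinarith
      linarith
  refine (h T).trans ?_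
  have : (0 : ℝ) ≤ 1 / (4 * ((T : ℝ) + 1)) := by positivity
  linarith

/-- Module D1. -/
theorem exists_squarefree (b k : ℕ) (hb : Even b) (hb4 : 4 ≤ b) (hk : 6 ≤ k) :
    ∃ c : ℕ, 1 ≤ c ∧ c ≤ b ^ k ∧ Squarefree (4 * b ^ (2 * k) - c ^ 2) := by
  by_contra hcon
  push Not at hcon
  set J : ℕ := b ^ (k - 1) with hJ
  set T : ℕ := Nat.sqrt (3 * b ^ k) with hT
  have hbJ : b * J = b ^ k := by
    rw [hJ, ← pow_succ']; congr 1; omega
  have hJpos : 0 < J := by positivity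
  have hcle : ∀ j ∈ Finset.range J, 1 + b * j ≤ b ^ k := by
    intro j hj
    have hj' := Finset.mem_range.mp hj
    rw [← hbJ]
    have : b * (j + 1) ≤ b * J := Nat.mul_le_mul_left b hj'
    nlinarith
  -- bad primes
  have hbad : ∀ j ∈ Finset.range J, ∃ i ∈ Finset.Icc 1 T, Nat.Coprime (2 * i + 1) b ∧
      ((2 * i + 1) ^ 2 ∣ 2 * b ^ k - (1 + b * j) ∨ (2 * i + 1) ^ 2 ∣ 2 * b ^ k + (1 + b * j)) := by
    intro j hj
    have hc := hcle j hj
    have hns := hcon (1 + b * j) (by omega) hc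
    have hfac : 4 * b ^ (2 * k) - (1 + b * j) ^ 2 =
        (2 * b ^ k - (1 + b * j)) * (2 * b ^ k + (1 + b * j)) := by
      have h1 : 1 + b * j ≤ 2 * b ^ k := by omega
      have h2 : (1 + b * j) ^ 2 ≤ 4 * b ^ (2 * k) := by
        calc (1 + b * j) ^ 2 ≤ (2 * b ^ k) ^ 2 := Nat.pow_le_pow_left h1 2
          _ = 4 * b ^ (2 * k) := by rw [mul_pow, ← pow_mul, mul_comm k 2]; norm_num
      zify [h1, h2]
      rw [pow_mul]
      ring
    -- primes dividing either factor are coprime to b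
    have hcopr : ∀ p : ℕ, p.Prime → (p ∣ 2 * b ^ k - (1 + b * j) ∨ p ∣ 2 * b ^ k + (1 + b * j)) →
        Nat.Coprime p b := by
      intro p hp hd
      rw [hp.coprime_iff_not_dvd]
      intro hpb
      have hpbk : p ∣ 2 * b ^ k := (dvd_pow hpb (by omega)).mul_left 2
      have hpc : p ∣ 1 + b * j := by
        rcases hd with hd | hd
        · have h1 : 1 + b * j ≤ 2 * b ^ k := by omega
          exact (Nat.dvd_sub_iff_right h1 hpbk).mp hd
        · exact (Nat.dvd_add_right hpbk).mp hd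
      have : p ∣ 1 := (Nat.dvd_add_left (hpb.mul_right j)).mp hpc
      exact hp.one_lt.ne' (Nat.dvd_one.mp this)
    have hexp : ∃ p : ℕ, p.Prime ∧ (p * p ∣ 2 * b ^ k - (1 + b * j) ∨ p * p ∣ 2 * b ^ k + (1 + b * j)) := by
      by_contra hno
      push Not at hno
      apply hns
      rw [hfac]
      have hco : Nat.Coprime (2 * b ^ k - (1 + b * j)) (2 * b ^ k + (1 + b * j)) := by
        rw [Nat.coprime_iff_gcd_eq_one]
        by_contra hg
        obtain ⟨p, hp, hpg⟩ := Nat.exists_prime_and_dvd hg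
        have hp1 := hpg.trans (Nat.gcd_dvd_left _ _)
        have hp2 := hpg.trans (Nat.gcd_dvd_right _ _)
        have hpb := hcopr p hp (Or.inl hp1)
        have h4 : p ∣ 4 * b ^ k := by
          have e : (2 * b ^ k - (1 + b * j)) + (2 * b ^ k + (1 + b * j)) = 4 * b ^ k := by omega
          rw [← e]; exact dvd_add hp1 hp2
        have hpbk : Nat.Coprime p (b ^ k) := hpb.pow_right k
        have h44 : p ∣ 4 := hpbk.dvd_of_dvd_mul_right h4
        have h2 : p ∣ 2 := by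
          have : p ∣ 2 ^ 2 := by norm_num; exact h44
          exact hp.dvd_of_dvd_pow this
        have hp2' : p = 2 := (Nat.prime_dvd_prime_iff_eq hp Nat.prime_two).mp h2
        rw [hp2'] at hpb
        obtain ⟨r, hr⟩ := hb
        have : 2 ∣ b := ⟨r, by omega⟩
        exact (Nat.prime_two.coprime_iff_not_dvd.mp hpb) this
      rw [Nat.squarefree_mul hco]
      refine ⟨?_, ?_⟩
      · rw [Nat.squarefree_iff_prime_squarefree]
        intro p hp hpd
        exact (hno p hp).1 hpd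
      · rw [Nat.squarefree_iff_prime_squarefree]
        intro p hp hpd
        exact (hno p hp).2 hpd
    obtain ⟨p, hp, hpd⟩ := hexp
    have hpb : Nat.Coprime p b := hcopr p hp (hpd.imp (fun h => (dvd_mul_right p p).trans h)
      (fun h => (dvd_mul_right p p).trans h))
    have hpodd : p ≠ 2 := by
      rintro rfl
      obtain ⟨r, hr⟩ := hb
      exact (Nat.prime_two.coprime_iff_not_dvd.mp hpb) ⟨r, by omega⟩
    obtain ⟨i, hi⟩ := hp.odd_of_ne_two hpodd
    have hi1 : 1 ≤ i := by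
      rcases Nat.eq_zero_or_pos i with h | h
      · subst h; exact absurd hi (by simpa using hp.one_lt.ne')
      · exact h
    have hle : p * p ≤ 3 * b ^ k := by
      rcases hpd with h | h
      · refine (Nat.le_of_dvd ?_ h).trans ?_ <;> omega
      · refine (Nat.le_of_dvd ?_ h).trans ?_ <;> omega
    have hpT : p ≤ T := Nat.le_sqrt.mpr hle
    refine ⟨i, Finset.mem_Icc.mpr ⟨hi1, by omega⟩, by rw [← hi]; exact hpb, ?_⟩
    rw [← hi, pow_two]
    exact hpd
  -- counting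
  set A : ℕ → Finset ℕ := fun i => (Finset.range J).filter
    (fun j => Nat.Coprime (2 * i + 1) b ∧ (2 * i + 1) ^ 2 ∣ 2 * b ^ k - (1 + b * j)) with hA
  set A' : ℕ → Finset ℕ := fun i => (Finset.range J).filter
    (fun j => Nat.Coprime (2 * i + 1) b ∧ (2 * i + 1) ^ 2 ∣ 2 * b ^ k + (1 + b * j)) with hA'
  have hcover : Finset.range J ⊆ (Finset.Icc 1 T).biUnion (fun i => A i ∪ A' i) := by
    intro j hj
    obtain ⟨i, hi, hco, hd⟩ := hbad j hj
    rw [Finset.mem_biUnion]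
    refine ⟨i, hi, ?_⟩
    rw [Finset.mem_union]
    rcases hd with hd | hd
    · exact Or.inl (Finset.mem_filter.mpr ⟨hj, hco, hd⟩)
    · exact Or.inr (Finset.mem_filter.mpr ⟨hj, hco, hd⟩)
  have hcardA : ∀ i, (A i).card ≤ J / (2 * i + 1) ^ 2 + 1 := by
    intro i
    refine card_le_of_diff (by positivity) _ (Finset.filter_subset _ _) ?_
    intro j hj j' hj'
    obtain ⟨hjJ, hco, hd⟩ := Finset.mem_filter.mp hj
    obtain ⟨hjJ', -, hd'⟩ := Finset.mem_filter.mp hj'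
    have hc := hcle j hjJ
    have hc' := hcle j' hjJ'
    rw [Nat.modEq_iff_dvd]
    have h1 : (((2 * i + 1) ^ 2 : ℕ) : ℤ) ∣ (b : ℤ) * ((j' : ℤ) - j) := by
      have e1 : (((2 * i + 1) ^ 2 : ℕ) : ℤ) ∣ ((2 * b ^ k - (1 + b * j) : ℕ) : ℤ) := by
        exact_mod_cast hd
      have e2 : (((2 * i + 1) ^ 2 : ℕ) : ℤ) ∣ ((2 * b ^ k - (1 + b * j') : ℕ) : ℤ) := by
        exact_mod_cast hd'
      have e3 := dvd_sub e1 e2
      rw [Nat.cast_sub (by omega), Nat.cast_sub (by omega)] at e3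
      have e4 : ((2 * b ^ k : ℕ) : ℤ) - ((1 + b * j : ℕ) : ℤ) -
          (((2 * b ^ k : ℕ) : ℤ) - ((1 + b * j' : ℕ) : ℤ)) = (b : ℤ) * ((j' : ℤ) - j) := by
        push_cast; ring
      rwa [e4] at e3
    have hco2 : IsCoprime (((2 * i + 1) ^ 2 : ℕ) : ℤ) (b : ℤ) := by
      rw [Nat.isCoprime_iff_coprime]; exact hco.pow_left 2
    exact hco2.dvd_of_dvd_mul_left h1
  have hcardA' : ∀ i, (A' i).card ≤ J / (2 * i + 1) ^ 2 + 1 := by
    intro i
    refine card_le_of_diff (by positivity) _ (Finset.filter_subset _ _) ?_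
    intro j hj j' hj'
    obtain ⟨hjJ, hco, hd⟩ := Finset.mem_filter.mp hj
    obtain ⟨hjJ', -, hd'⟩ := Finset.mem_filter.mp hj'
    rw [Nat.modEq_iff_dvd]
    have h1 : (((2 * i + 1) ^ 2 : ℕ) : ℤ) ∣ (b : ℤ) * ((j' : ℤ) - j) := by
      have e1 : (((2 * i + 1) ^ 2 : ℕ) : ℤ) ∣ ((2 * b ^ k + (1 + b * j) : ℕ) : ℤ) := by
        exact_mod_cast hd
      have e2 : (((2 * i + 1) ^ 2 : ℕ) : ℤ) ∣ ((2 * b ^ k + (1 + b * j') : ℕ) : ℤ) := by
        exact_mod_cast hd'
      have e3 := dvd_sub e2 e1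
      have e4 : ((2 * b ^ k + (1 + b * j') : ℕ) : ℤ) - ((2 * b ^ k + (1 + b * j) : ℕ) : ℤ) =
          (b : ℤ) * ((j' : ℤ) - j) := by
        push_cast; ring
      rwa [e4] at e3
    have hco2 : IsCoprime (((2 * i + 1) ^ 2 : ℕ) : ℤ) (b : ℤ) := by
      rw [Nat.isCoprime_iff_coprime]; exact hco.pow_left 2
    exact hco2.dvd_of_dvd_mul_left h1
  have hcount : (J : ℝ) ≤ ∑ i ∈ Finset.Icc 1 T, 2 * ((J : ℝ) * (1 / (2 * i + 1) ^ 2) + 1) := by
    have h1 : J ≤ ∑ i ∈ Finset.Icc 1 T, ((A i).card + (A' i).card) := by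
      calc J = (Finset.range J).card := by simp
        _ ≤ ((Finset.Icc 1 T).biUnion (fun i => A i ∪ A' i)).card := Finset.card_le_card hcover
        _ ≤ ∑ i ∈ Finset.Icc 1 T, (A i ∪ A' i).card := Finset.card_biUnion_le
        _ ≤ ∑ i ∈ Finset.Icc 1 T, ((A i).card + (A' i).card) :=
          Finset.sum_le_sum fun i _ => Finset.card_union_le _ _
    have h2 : (J : ℝ) ≤ ∑ i ∈ Finset.Icc 1 T, (((A i).card : ℝ) + ((A' i).card : ℝ)) := by
      exact_mod_cast h1
    refine h2.trans (Finset.sum_le_sum fun i _ => ?_)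
    have h3 : ((J / (2 * i + 1) ^ 2 : ℕ) : ℝ) ≤ (J : ℝ) * (1 / (2 * i + 1) ^ 2) := by
      have := @Nat.cast_div_le ℝ _ _ _ J ((2 * i + 1) ^ 2)
      push_cast at this
      rw [mul_one_div]
      exact this
    have h4 : ((A i).card : ℝ) ≤ ((J / (2 * i + 1) ^ 2 : ℕ) : ℝ) + 1 := by
      exact_mod_cast hcardA i
    have h5 : ((A' i).card : ℝ) ≤ ((J / (2 * i + 1) ^ 2 : ℕ) : ℝ) + 1 := by
      exact_mod_cast hcardA' i
    linarith
  have hcount2 : (J : ℝ) ≤ J / 2 + 2 * T := by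
    have h1 : (∑ i ∈ Finset.Icc 1 T, 2 * ((J : ℝ) * (1 / (2 * (i : ℝ) + 1) ^ 2) + 1)) =
        2 * (J : ℝ) * (∑ i ∈ Finset.Icc 1 T, (1 : ℝ) / (2 * (i : ℝ) + 1) ^ 2) + 2 * (T : ℝ) := by
      rw [← Finset.mul_sum, Finset.sum_add_distrib, ← Finset.mul_sum]
      simp only [Finset.sum_const, Nat.card_Icc, nsmul_eq_mul, mul_one]
      rw [Nat.add_sub_cancel]
      ring
    rw [h1] at hcount
    have h2 := sum_odd_sq T
    have h3 : 2 * (J : ℝ) * (∑ i ∈ Finset.Icc 1 T, (1 : ℝ) / (2 * (i : ℝ) + 1) ^ 2) ≤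
        2 * (J : ℝ) * (1 / 4) :=
      mul_le_mul_of_nonneg_left h2 (by positivity)
    linarith
  -- T is small
  have hT2 : T * T ≤ 3 * b ^ k := Nat.sqrt_le _
  have hTJ : 8 * T < J * 2 := by
    by_contra hge
    push Not at hge
    have h1 : (J * 2) * (J * 2) ≤ (8 * T) * (8 * T) := Nat.mul_le_mul hge hge
    have h2 : (8 * T) * (8 * T) ≤ 64 * (3 * b ^ k) := by nlinarith
    have h3 : J * J = b ^ (k - 2) * b ^ k := by
      rw [hJ, ← pow_add, ← pow_add]; congr 1; omega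
    have h4 : 4 ^ 4 ≤ b ^ (k - 2) := by
      calc 4 ^ 4 ≤ b ^ 4 := Nat.pow_le_pow_left hb4 4
        _ ≤ b ^ (k - 2) := Nat.pow_le_pow_right (by omega) (by omega)
    have h5 : 0 < b ^ k := by positivity
    have h6 : 4 ^ 4 * b ^ k ≤ J * J := by rw [h3]; exact Nat.mul_le_mul_right _ h4
    nlinarith
  have hTJ' : 8 * (T : ℝ) < J * 2 := by exact_mod_cast hTJ
  linarith

end Pool.Agent.Pyth
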