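import Pool.Agent.Lib_helper77.Pyth.LowerBound
import Pool.Agent.Lib_helper77.Pyth.DiscrUpper
import Pool.Agent.Lib_helper77.Pyth.Sqfree
import Pool.Agent.Lib_helper77.Pyth.Dickson
import Pool.Agent.Lib_helper93.Pyth.Chebyshev

namespace Pool.Agent.Pyth

open Polynomial NumberField Module IntermediateField

/-- a root of a monic polynomial with integral coefficients is integral -/
theorem isIntegral_of_monic_root {Ω : Type} [Field Ω] {H : Polynomial Ω} (hH : H.Monic)
    (hc : ∀ i, IsIntegral ℤ (H.coeff i)) {x : Ω} (hx : H.eval x = 0) : IsIntegral ℤ x := by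
  have h1 : (↑H.coeffs : Set Ω) ⊆ (integralClosure ℤ Ω).toSubring := by
    intro a ha
    obtain ⟨i, -, rfl⟩ := Polynomial.mem_coeffs_iff.mp ha
    exact hc i
  have hx2 : IsIntegral (integralClosure ℤ Ω) x := by
    refine ⟨H.toSubring (integralClosure ℤ Ω).toSubring h1, ?_, ?_⟩
    · exact (Polynomial.monic_toSubring _ _ _).mpr hH
    · have h2 : eval₂ (Subring.subtype (integralClosure ℤ Ω).toSubring) x
          (H.toSubring (integralClosure ℤ Ω).toSubring h1) = 0 := by
        rw [← eval_map, Polynomial.map_toSubring, hx]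
      exact h2
  exact isIntegral_trans (R := ℤ) (A := integralClosure ℤ Ω) x hx2

theorem exists_extension (L : Type) [Field L] [NumberField L] (hL : TotReal L) (Ω : Type)
    [Field Ω] [IsAlgClosed Ω] [Algebra L Ω] (β : L) (hβ : IsIntegral ℤ β)
    (B : ℝ) (K : ℕ) (hK : 1 ≤ K) (G : Polynomial L) (η : L)
    (hGm : G.Monic) (hGdeg : G.natDegree = K) (hGint : ∀ i, IsIntegral ℤ (G.coeff i))
    (hηint : IsIntegral ℤ η) (hη0 : η ≠ 0)
    (hG : ∀ φ : L →+* ℂ, ∀ X : ℝ, |X| ≤ B → ∀ x : ℂ, (G.map φ).eval x = φ η * (X : ℂ) →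
      x.im = 0 ∧ x.re ^ 2 < (φ β).re)
    (b k c : ℕ) (hb : 1 ≤ b) (hbB : 2 * (b : ℝ) ≤ B) (hk : 1 ≤ k) (hc : c ≤ b ^ k) :
    ∃ (E : IntermediateField L Ω) (x y X W : E), NumberField E ∧ TotReal E ∧
      finrank L E ≤ 2 * (K * k) ∧ IsIntegral ℤ x ∧ IsIntegral ℤ y ∧
      x ^ 2 + y ^ 2 = algebraMap L E β ∧ Algebra.adjoin L {x, y} = ⊤ ∧
      IsIntegral ℤ X ∧ IsIntegral ℤ W ∧
      (4 * (b : E) ^ 2 - X ^ 2) * W ^ 2 = 4 * (b : E) ^ (2 * k) - (c : E) ^ 2 ∧
      ∀ φ : E →+* ℂ, |(φ X).re| ≤ 2 * b := by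
  have hbk : 0 < b ^ k := by positivity
  obtain ⟨P, S, hPm, hPdeg, hPdvd, hPreal⟩ := exists_dickson b k c hb hk (by omega)
  have : CharZero Ω := charZero_of_injective_algebraMap (algebraMap L Ω).injective
  -- the root X₀
  obtain ⟨X₀, hX₀⟩ : ∃ X₀ : Ω, aeval X₀ P = 0 := by
    have hmon : (P.map (algebraMap ℤ Ω)).Monic := hPm.map _
    have hdeg : (P.map (algebraMap ℤ Ω)).degree ≠ 0 := by
      have h1 : (P.map (algebraMap ℤ Ω)).natDegree = k := by
        rw [hPm.natDegree_map]; exact hPdeg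
      intro h
      have := natDegree_eq_of_degree_eq_some (n := 0) h
      omega
    obtain ⟨z, hz⟩ := IsAlgClosed.exists_root _ hdeg
    refine ⟨z, ?_⟩
    rw [aeval_def, ← eval_map]; exact hz
  have hX₀int : IsIntegral ℤ X₀ := ⟨P, hPm, by rw [← aeval_def]; exact hX₀⟩
  -- the root x₀
  set H : Polynomial Ω := G.map (algebraMap L Ω) - C (algebraMap L Ω η * X₀) with hH
  have hGmap : (G.map (algebraMap L Ω)).Monic := hGm.map _
  have hGmapdeg : (G.map (algebraMap L Ω)).natDegree = K := by
    rw [hGm.natDegree_map]; exact hGdeg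
  have hdeglt : (C (algebraMap L Ω η * X₀)).degree < (G.map (algebraMap L Ω)).degree := by
    refine lt_of_le_of_lt degree_C_le ?_
    rw [Polynomial.degree_eq_natDegree hGmap.ne_zero, hGmapdeg]
    exact_mod_cast hK
  have hHm : H.Monic := hGmap.sub_of_left hdeglt
  have hHdeg : H.natDegree = K := by
    rw [hH, natDegree_sub_eq_left_of_natDegree_lt, hGmapdeg]
    rw [hGmapdeg, natDegree_C]; omega
  obtain ⟨x₀, hx₀⟩ : ∃ x₀ : Ω, H.eval x₀ = 0 := by
    refine IsAlgClosed.exists_root _ ?_
    intro h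
    have := natDegree_eq_of_degree_eq_some (n := 0) h
    omega
  have hx₀' : (G.map (algebraMap L Ω)).eval x₀ = algebraMap L Ω η * X₀ := by
    rw [hH, eval_sub, eval_C, sub_eq_zero] at hx₀; exact hx₀
  have hηint' : IsIntegral ℤ (algebraMap L Ω η) := hηint.map (algebraMap L Ω).toIntAlgHom
  have hβint' : IsIntegral ℤ (algebraMap L Ω β) := hβ.map (algebraMap L Ω).toIntAlgHom
  have hx₀int : IsIntegral ℤ x₀ := by
    refine isIntegral_of_monic_root hHm ?_ hx₀
    intro i
    rw [hH, coeff_sub, coeff_map, coeff_C]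
    refine IsIntegral.sub ((hGint i).map (algebraMap L Ω).toIntAlgHom) ?_
    split_ifs
    · exact hηint'.mul hX₀int
    · exact isIntegral_zero
  -- the root y₀
  obtain ⟨y₀, hy₀⟩ : ∃ y₀ : Ω, y₀ ^ 2 = algebraMap L Ω β - x₀ ^ 2 :=
    IsAlgClosed.exists_pow_nat_eq _ (by norm_num)
  have hy₀int : IsIntegral ℤ y₀ := by
    refine IsIntegral.of_pow (n := 2) (by norm_num) ?_
    rw [hy₀]; exact hβint'.sub (hx₀int.pow 2)
  set E : IntermediateField L Ω := IntermediateField.adjoin L {x₀, y₀} with hE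
  have hx₀E : x₀ ∈ E := IntermediateField.subset_adjoin _ _ (by simp)
  have hy₀E : y₀ ∈ E := IntermediateField.subset_adjoin _ _ (by simp)
  have hX₀E : X₀ ∈ E := by
    have h1 : X₀ = (algebraMap L Ω η)⁻¹ * (G.map (algebraMap L Ω)).eval x₀ := by
      rw [hx₀', ← mul_assoc, inv_mul_cancel₀ (by simpa using hη0), one_mul]
    rw [h1]
    refine E.mul_mem (E.inv_mem (E.algebraMap_mem η)) ?_
    rw [eval_map, eval₂_eq_sum_range]
    exact E.sum_mem fun i _ => E.mul_mem (E.algebraMap_mem _) (pow_mem hx₀E _)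
  set x : E := ⟨x₀, hx₀E⟩ with hx
  set y : E := ⟨y₀, hy₀E⟩ with hy
  set X : E := ⟨X₀, hX₀E⟩ with hX
  have hinj : Function.Injective (E.val) := E.val.injective
  have hxint : IsIntegral ℤ x := (isIntegral_algHom_iff (E.val.restrictScalars ℤ) hinj).mp hx₀int
  have hyint : IsIntegral ℤ y := (isIntegral_algHom_iff (E.val.restrictScalars ℤ) hinj).mp hy₀int
  have hXint : IsIntegral ℤ X := (isIntegral_algHom_iff (E.val.restrictScalars ℤ) hinj).mp hX₀int
  have hfd : FiniteDimensional L E := by
    rw [hE]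
    refine IntermediateField.finiteDimensional_adjoin ?_
    intro z hz
    rcases hz with rfl | hz
    · exact hx₀int.tower_top
    · rw [Set.mem_singleton_iff] at hz; subst hz; exact hy₀int.tower_top
  have hNF : NumberField E := NumberField.of_module_finite L E
  have hxy : x ^ 2 + y ^ 2 = algebraMap L E β := by
    apply hinj
    simp only [map_add, map_pow]
    change x₀ ^ 2 + y₀ ^ 2 = algebraMap L Ω β
    rw [hy₀]; ring
  have hXP : aeval X P = 0 := by
    apply hinj
    rw [map_zero]
    have : E.val (aeval X P) = aeval X₀ P := by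
      have := Polynomial.aeval_algHom_apply (E.val.restrictScalars ℤ) X P
      exact this.symm
    rw [this, hX₀]
  have hXreal : ∀ φ : E →+* ℂ, (φ X).im = 0 ∧ |(φ X).re| ≤ 2 * b := by
    intro φ
    apply hPreal
    have := Polynomial.aeval_algHom_apply φ.toIntAlgHom X P
    change aeval (φ X) P = φ (aeval X P) at this
    rw [this, hXP, map_zero]
  -- adjoin
  have hadj : Algebra.adjoin L {x, y} = ⊤ := by
    have h1 : (IntermediateField.adjoin L {x₀, y₀}).toSubalgebra = Algebra.adjoin L {x₀, y₀} := by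
      refine IntermediateField.adjoin_toSubalgebra_of_isAlgebraic ?_
      intro z hz
      rcases hz with rfl | hz
      · exact (hx₀int.tower_top (A := L)).isAlgebraic
      · rw [Set.mem_singleton_iff] at hz; subst hz
        exact (hy₀int.tower_top (A := L)).isAlgebraic
    rw [eq_top_iff]
    intro z _
    have hz : (z : Ω) ∈ Algebra.adjoin L {x₀, y₀} := by
      rw [← h1]; exact z.2
    have h2 : (Algebra.adjoin L {x, y}).map E.val = Algebra.adjoin L {x₀, y₀} := by
      rw [AlgHom.map_adjoin, Set.image_pair]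
      rfl
    rw [← h2] at hz
    obtain ⟨w, hw, hwz⟩ := hz
    have : w = z := hinj hwz
    rw [← this]; exact hw
  -- total reality
  have hEreal : TotReal E := by
    intro φ z
    have hxr : ∃ r : ℝ, φ x = (r : ℂ) ∧ r ^ 2 < (φ (algebraMap L E β)).re := by
      obtain ⟨h1, h2⟩ := hXreal φ
      have hXr : φ X = (((φ X).re : ℝ) : ℂ) := by apply Complex.ext <;> simp [h1]
      set φL : L →+* ℂ := φ.comp (algebraMap L E) with hφL
      have h3 : (G.map φL).eval (φ x) = φL η * (((φ X).re : ℝ) : ℂ) := by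
        rw [← hXr]
        have e1 : (G.map φL).eval (φ x) = φ ((G.map (algebraMap L E)).eval x) := by
          rw [hφL, ← Polynomial.map_map, Polynomial.eval_map, Polynomial.eval₂_hom]
        have e2 : (G.map (algebraMap L E)).eval x = algebraMap L E η * X := by
          apply hinj
          rw [map_mul]
          have e3 : E.val ((G.map (algebraMap L E)).eval x) = (G.map (algebraMap L Ω)).eval x₀ := by
            rw [Polynomial.eval_map, Polynomial.eval_map]
            change E.val.toRingHom _ = _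
            rw [Polynomial.hom_eval₂]
            rfl
          rw [e3, hx₀']
          rfl
        rw [e1, e2, map_mul]
        rfl
      obtain ⟨h4, h5⟩ := hG φL _ (h2.trans hbB) _ h3
      refine ⟨(φ x).re, by apply Complex.ext <;> simp [h4], h5⟩
    obtain ⟨r, hr, hr2⟩ := hxr
    have hβr : ∃ s : ℝ, φ (algebraMap L E β) = (s : ℂ) := by
      have := hL (φ.comp (algebraMap L E)) β
      exact ⟨(φ (algebraMap L E β)).re, by
        apply Complex.ext
        · simp
        · simpa using this⟩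
    obtain ⟨s, hs⟩ := hβr
    rw [hs, Complex.ofReal_re] at hr2
    have hyr : ∃ t : ℝ, φ y = (t : ℂ) := by
      have h1 : (φ y) ^ 2 = ((s - r ^ 2 : ℝ) : ℂ) := by
        have := congrArg φ hxy
        rw [map_add, map_pow, map_pow, hr, hs] at this
        push_cast
        rw [← this]; ring
      have h2 : (0 : ℝ) ≤ s - r ^ 2 := by linarith
      have h3 : (φ y) ^ 2 = ((Real.sqrt (s - r ^ 2) : ℝ) : ℂ) ^ 2 := by
        rw [h1, ← Complex.ofReal_pow, Real.sq_sqrt h2]
      rcases sq_eq_sq_iff_eq_or_eq_neg.mp h3 with h | h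
      · exact ⟨_, h⟩
      · exact ⟨-Real.sqrt (s - r ^ 2), by rw [h]; push_cast; ring⟩
    obtain ⟨t, ht⟩ := hyr
    have hz : z ∈ Algebra.adjoin L {x, y} := by rw [hadj]; trivial
    have key : ∃ u : ℝ, φ z = (u : ℂ) := by
      induction hz using Algebra.adjoin_induction with
      | mem w hw =>
        rcases hw with rfl | hw
        · exact ⟨r, hr⟩
        · rw [Set.mem_singleton_iff] at hw; subst hw; exact ⟨t, ht⟩
      | algebraMap a =>
        have := hL (φ.comp (algebraMap L E)) a
        exact ⟨(φ (algebraMap L E a)).re, by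
          apply Complex.ext
          · simp
          · simpa using this⟩
      | add u v _ _ hu hv =>
        obtain ⟨u', hu'⟩ := hu; obtain ⟨v', hv'⟩ := hv
        exact ⟨u' + v', by rw [map_add, hu', hv']; push_cast; ring⟩
      | mul u v _ _ hu hv =>
        obtain ⟨u', hu'⟩ := hu; obtain ⟨v', hv'⟩ := hv
        exact ⟨u' * v', by rw [map_mul, hu', hv']; push_cast; ring⟩
    obtain ⟨u, hu⟩ := key
    rw [hu]; simp
  -- degree
  have hdegE : finrank L E ≤ 2 * (K * k) := by
    have hx₀L : IsIntegral L x₀ := hx₀int.tower_top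
    have hy₀L : IsIntegral L y₀ := hy₀int.tower_top
    have h1 : finrank L L⟮x₀⟯ ≤ K * k := by
      rw [IntermediateField.adjoin.finrank hx₀L]
      set R : Polynomial L := (P.map (algebraMap ℤ L)).comp (C η⁻¹ * G) with hR
      have hPL : (P.map (algebraMap ℤ L)).natDegree = k := by
        rw [hPm.natDegree_map]; exact hPdeg
      have hRdeg : R.natDegree = k * K := by
        rw [hR, natDegree_comp, hPL, natDegree_C_mul (inv_ne_zero hη0), hGdeg]
      have hR0 : R ≠ 0 := by
        intro h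
        rw [h, natDegree_zero] at hRdeg
        have : 0 < k * K := by positivity
        omega
      have hroot : aeval x₀ R = 0 := by
        rw [hR, aeval_comp]
        have e1 : aeval x₀ (C η⁻¹ * G) = X₀ := by
          rw [map_mul, aeval_C]
          have : aeval x₀ G = (G.map (algebraMap L Ω)).eval x₀ := by
            rw [aeval_def, eval_map]
          rw [this, hx₀', map_inv₀, ← mul_assoc, inv_mul_cancel₀ (by simpa using hη0), one_mul]
        rw [e1, aeval_map_algebraMap, hX₀]
      have h3 := natDegree_le_natDegree (minpoly.degree_le_of_ne_zero L x₀ hR0 hroot)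
      rw [hRdeg] at h3
      linarith [Nat.mul_comm k K]
    have h2 : finrank L⟮x₀⟯ L⟮x₀⟯⟮y₀⟯ ≤ 2 := by
      rw [IntermediateField.adjoin.finrank hy₀L.tower_top]
      set gx : L⟮x₀⟯ := IntermediateField.AdjoinSimple.gen L x₀ with hgx
      set R : Polynomial L⟮x₀⟯ := Polynomial.X ^ 2 - C (algebraMap L L⟮x₀⟯ β - gx ^ 2) with hR
      have hRm : R.Monic := monic_X_pow_sub_C _ (by norm_num)
      have hRdeg : R.natDegree = 2 := natDegree_X_pow_sub_C
      have hroot : aeval y₀ R = 0 := by
        rw [hR]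
        simp only [map_sub, map_pow, aeval_X, aeval_C]
        rw [hy₀, hgx, IntermediateField.AdjoinSimple.algebraMap_gen]
        rw [← IsScalarTower.algebraMap_apply]
        ring
      have h3 := natDegree_le_natDegree (minpoly.degree_le_of_ne_zero _ y₀ hRm.ne_zero hroot)
      rwa [hRdeg] at h3
    have h3 : L⟮x₀⟯⟮y₀⟯.restrictScalars L = E := by
      rw [hE]; exact IntermediateField.adjoin_simple_adjoin_simple L x₀ y₀
    rw [← h3]
    have h4 : finrank L (L⟮x₀⟯⟮y₀⟯.restrictScalars L) = finrank L L⟮x₀⟯ * finrank L⟮x₀⟯ L⟮x₀⟯⟮y₀⟯ := by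
      rw [Module.finrank_mul_finrank]
      rfl
    rw [h4]
    calc finrank L L⟮x₀⟯ * finrank L⟮x₀⟯ L⟮x₀⟯⟮y₀⟯ ≤ (K * k) * 2 := Nat.mul_le_mul h1 h2
      _ = 2 * (K * k) := by ring
  refine ⟨E, x, y, X, aeval X S, hNF, hEreal, hdegE, hxint, hyint, hxy, hadj, hXint, ?_, ?_,
    fun φ => (hXreal φ).2⟩
  · rw [aeval_eq_sum_range]
    refine IsIntegral.sum _ fun i _ => ?_
    exact (hXint.pow i).smul _
  · obtain ⟨T, hT⟩ := hPdvd
    have h1 := congrArg (aeval X) hT
    simp only [map_sub, map_mul, map_pow, aeval_C, aeval_X, hXP, zero_mul] at h1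
    rw [sub_eq_zero] at h1
    push_cast at h1
    simpa using h1

end Pool.Agent.Pyth
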