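import Pool.Agent.Lib_helper77.Pyth.Cheb
import Pool.Agent.Lib_helper77.Pyth.DiscrBasis

namespace Pool.Agent.Pyth

open Module Matrix NumberField

theorem map_mono {E : Type} [Field E] {t : ℕ} (y : Fin t → E) (τ : E →+* ℂ) (κ : Fin t →₀ ℕ) :
    τ (mono y κ) = ∏ i, τ (y i) ^ κ i := by
  unfold mono
  rw [map_prod]
  refine Finset.prod_congr rfl fun i _ => map_pow _ _ _

theorem fiber_det_bound {F E : Type} [Field F] [Field E] [Algebra F E] {t : ℕ} (y : Fin t → E)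
    (S : Finset (Fin t →₀ ℕ))
    (hspan : ∀ κ ∈ S, ∀ κ' : Fin t →₀ ℕ, tdeg κ' < tdeg κ →
        mono y κ' ∈ Submodule.span F (Set.image (mono y) {κ'' | κ'' ∈ S ∧ tdeg κ'' < tdeg κ}))
    (σ : F →+* ℂ) (τ : S → (E →+* ℂ)) (hτ : ∀ κ (a : F), τ κ (algebraMap F E a) = σ a)
    {ρ : ℝ} (hρ : 0 < ρ) (hreal : ∀ κ i, (τ κ (y i)).im = 0) (hbd : ∀ κ i, |(τ κ (y i)).re| ≤ ρ) :
    ‖(Matrix.of (fun κ κ' : S => τ κ' (mono y κ.1)) : Matrix S S ℂ).det‖ ≤
      (S.card.factorial : ℝ) * ∏ κ : S, (2 ^ t * (ρ / 2) ^ tdeg κ.1) := by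
  classical
  set Φ : Matrix S S ℂ := Matrix.of (fun κ κ' : S => τ κ' (mono y κ.1)) with hΦ
  choose Λ C hΛ hC using fun κ : Fin t →₀ ℕ => exists_multi_cheb hρ (t := t) κ
  -- coefficients
  have hg : ∀ (κ : S) (l : Fin t →₀ ℕ), ∃ g : S → F, (∀ κ'', ¬ tdeg κ''.1 < tdeg κ.1 → g κ'' = 0) ∧
      (tdeg l < tdeg κ.1 → mono y l = ∑ κ'' : S, g κ'' • mono y κ''.1) := by
    intro κ l
    by_cases hl : tdeg l < tdeg κ.1
    · have h1 := hspan κ.1 κ.2 l hl
      have h2 : {κ'' | κ'' ∈ S ∧ tdeg κ'' < tdeg κ.1} =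
          ((S.filter (fun κ'' => tdeg κ'' < tdeg κ.1) : Finset (Fin t →₀ ℕ)) : Set (Fin t →₀ ℕ)) := by
        ext κ''; simp
      rw [h2, Submodule.mem_span_image_finset_iff_exists_fun'] at h1
      obtain ⟨c, hc⟩ := h1
      refine ⟨fun κ'' => if tdeg κ''.1 < tdeg κ.1 then c κ''.1 else 0, ?_, fun _ => ?_⟩
      · intro κ'' h; simp only []; rw [if_neg h]
      · rw [← hc, Finset.sum_filter]
        rw [← Finset.sum_coe_sort S (fun κ'' => if tdeg κ'' < tdeg κ.1 then c κ'' • mono y κ'' else 0)]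
        refine Finset.sum_congr rfl fun κ'' _ => ?_
        simp only []
        split_ifs
        · rfl
        · rw [zero_smul]
    · exact ⟨fun _ => 0, fun _ _ => rfl, fun h => absurd h hl⟩
  choose g hg0 hg1 using hg
  set U : Matrix S S ℂ := Matrix.of (fun κ κ'' : S => (if κ = κ'' then 1 else 0) +
    ∑ l ∈ Λ κ.1, ((C κ.1 l : ℝ) : ℂ) * σ (g κ l κ'')) with hU
  have hcard : Fintype.card S = S.card := Fintype.card_coe S
  have key := norm_det_le_of_triangular (fun κ : S => tdeg κ.1) Φ U ?_ ?_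
    (fun κ : S => 2 ^ t * (ρ / 2) ^ tdeg κ.1) ?_
  · rw [hcard] at key; exact key
  · intro κ
    rw [hU, Matrix.of_apply, if_pos rfl]
    have : ∑ l ∈ Λ κ.1, ((C κ.1 l : ℝ) : ℂ) * σ (g κ l κ) = 0 := by
      refine Finset.sum_eq_zero fun l _ => ?_
      rw [hg0 κ l κ (lt_irrefl _), map_zero, mul_zero]
    rw [this, add_zero]
  · intro κ κ'' hne hdeg
    rw [hU, Matrix.of_apply, if_neg hne, zero_add]
    refine Finset.sum_eq_zero fun l _ => ?_
    rw [hg0 κ l κ'' (not_lt.mpr hdeg), map_zero, mul_zero]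
  · intro κ κ'
    set v : Fin t → ℝ := fun i => (τ κ' (y i)).re with hv
    have hvτ : ∀ i, τ κ' (y i) = (v i : ℂ) := by
      intro i
      apply Complex.ext
      · simp [hv]
      · simp [hreal κ' i]
    have hmono : ∀ l : Fin t →₀ ℕ, τ κ' (mono y l) = ((mono v l : ℝ) : ℂ) := by
      intro l
      rw [map_mono]
      unfold mono
      push_cast
      refine Finset.prod_congr rfl fun i _ => by rw [hvτ]
    have h1 : (U * Φ) κ κ' = (((mono v κ.1 + ∑ l ∈ Λ κ.1, C κ.1 l * mono v l : ℝ)) : ℂ) := by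
      rw [Matrix.mul_apply]
      have h2 : ∀ κ'' : S, U κ κ'' * Φ κ'' κ' = (if κ = κ'' then Φ κ'' κ' else 0) +
          ∑ l ∈ Λ κ.1, ((C κ.1 l : ℝ) : ℂ) * (σ (g κ l κ'') * τ κ' (mono y κ''.1)) := by
        intro κ''
        rw [hU, Matrix.of_apply, add_mul, Finset.sum_mul]
        congr 1
        · split_ifs <;> simp
        · refine Finset.sum_congr rfl fun l _ => ?_
          rw [hΦ, Matrix.of_apply]; ring
      rw [Finset.sum_congr rfl (fun κ'' _ => h2 κ''), Finset.sum_add_distrib, Finset.sum_comm]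
      rw [Finset.sum_ite_eq Finset.univ κ (fun κ'' => Φ κ'' κ'), if_pos (Finset.mem_univ _)]
      push_cast
      rw [hΦ, Matrix.of_apply, hmono]
      congr 1
      refine Finset.sum_congr rfl fun l hl => ?_
      rw [← Finset.mul_sum]
      congr 1
      have h3 := hg1 κ l (hΛ κ.1 l hl)
      rw [← hmono, h3, map_sum]
      refine Finset.sum_congr rfl fun κ'' _ => ?_
      rw [Algebra.smul_def, map_mul, hτ]
    rw [h1, Complex.norm_real, Real.norm_eq_abs]
    exact hC κ.1 v (fun i => hbd κ' i)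

end Pool.Agent.Pyth
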