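import Pool.Agent.Lib_helper77.Pyth.Defs

namespace Pool.Agent.Pyth

open Polynomial NumberField Module

variable {L : Type} [Field L] [NumberField L]

theorem norm_eq_prod (x : L) :
    ((Algebra.norm ℚ x : ℚ) : ℂ) = ∏ φ : L →+* ℂ, φ x := by
  have h := Algebra.norm_eq_prod_embeddings ℚ ℂ x
  have h2 : (∏ σ : L →ₐ[ℚ] ℂ, σ x) = ∏ φ : L →+* ℂ, φ x :=
    Fintype.prod_equiv (RingHom.equivRatAlgHom L ℂ).symm _ _ (fun σ => rfl)
  rw [← h2, ← h]
  rfl

theorem abs_norm_eq_prod (x : L) :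
    |((Algebra.norm ℚ x : ℚ) : ℝ)| = ∏ φ : L →+* ℂ, ‖φ x‖ := by
  have h := congrArg norm (norm_eq_prod x)
  rw [norm_prod] at h
  rw [← h]
  rw [← Complex.ofReal_ratCast, Complex.norm_real, Real.norm_eq_abs]

theorem finrank_pos' : (0 : ℝ) < (finrank ℚ L : ℝ) := by
  exact_mod_cast Module.finrank_pos

theorem mul_lam_eq_sum {x : L} (hx : x ≠ 0) :
    (finrank ℚ L : ℝ) * lam L x = ∑ φ : L →+* ℂ, Real.log ‖φ x‖ := by
  unfold lam
  rw [mul_div_cancel₀ _ (finrank_pos' (L := L)).ne', abs_norm_eq_prod, Real.log_prod]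
  intro φ _
  simpa using hx

theorem lam_eq_sum {x : L} (hx : x ≠ 0) :
    lam L x = (∑ φ : L →+* ℂ, Real.log ‖φ x‖) / (finrank ℚ L : ℝ) := by
  rw [← mul_lam_eq_sum hx, mul_div_cancel_left₀ _ (finrank_pos' (L := L)).ne']

theorem card_embeddings : (Fintype.card (L →+* ℂ) : ℝ) = (finrank ℚ L : ℝ) := by
  exact_mod_cast NumberField.Embeddings.card L ℂ

omit [NumberField L] in
theorem norm_eq_re_of_pos (hL : TotReal L) {φ : L →+* ℂ} {x : L} (h : 0 ≤ (φ x).re) :
    ‖φ x‖ = (φ x).re := by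
  have him := hL φ x
  have : φ x = ((φ x).re : ℂ) := by
    apply Complex.ext <;> simp [him]
  rw [this, Complex.norm_real, Real.norm_eq_abs, Complex.ofReal_re, abs_of_nonneg h]

/-- Module F (AM-GM). -/
theorem lam_amgm (L : Type) [Field L] [NumberField L] (hL : TotReal L) (N : ℕ) (hN : 1 ≤ N)
    (γ : Fin N → L) (hpos : ∀ (φ : L →+* ℂ) i, 0 < (φ (γ i)).re) :
    (∑ i, lam L (γ i)) / N + Real.log N ≤ lam L (∑ i, γ i) := by
  have hN0 : (0 : ℝ) < N := by exact_mod_cast hN
  obtain ⟨φ₀⟩ : Nonempty (L →+* ℂ) := inferInstance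
  have hne : ∀ i, γ i ≠ 0 := by
    intro i h
    have := hpos φ₀ i
    rw [h] at this; simp at this
  have : Nonempty (Fin N) := ⟨⟨0, hN⟩⟩
  have hsumpos : ∀ φ : L →+* ℂ, 0 < (φ (∑ i, γ i)).re := by
    intro φ
    rw [map_sum, Complex.re_sum]
    exact Finset.sum_pos (fun i _ => hpos φ i) Finset.univ_nonempty
  have hsne : (∑ i, γ i) ≠ 0 := by
    intro h
    have := hsumpos φ₀
    rw [h] at this; simp at this
  have hd : (0 : ℝ) < (finrank ℚ L : ℝ) := finrank_pos'
  rw [lam_eq_sum hsne]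
  simp_rw [lam_eq_sum (hne _)]
  rw [← Finset.sum_div, Finset.sum_comm, div_right_comm, Finset.sum_div]
  have hlogN : Real.log N = (∑ _φ : L →+* ℂ, Real.log N) / (finrank ℚ L : ℝ) := by
    rw [Finset.sum_const, Finset.card_univ, nsmul_eq_mul, card_embeddings,
      mul_div_cancel_left₀ _ hd.ne']
  rw [hlogN, ← add_div, ← Finset.sum_add_distrib]
  refine div_le_div_of_nonneg_right (Finset.sum_le_sum fun φ _ => ?_) hd.le
  rw [norm_eq_re_of_pos hL (hsumpos φ).le, map_sum, Complex.re_sum]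
  have hi : ∀ i, ‖φ (γ i)‖ = (φ (γ i)).re := fun i => norm_eq_re_of_pos hL (hpos φ i).le
  simp_rw [hi]
  have hconc := strictConcaveOn_log_Ioi.concaveOn.le_map_sum (t := (Finset.univ : Finset (Fin N)))
    (w := fun _ => (1 / (N : ℝ))) (p := fun i => (φ (γ i)).re)
    (fun i _ => by positivity)
    (by simp only [Finset.sum_const, Finset.card_univ, Fintype.card_fin, nsmul_eq_mul]
        field_simp)
    (fun i _ => hpos φ i)
  simp only [smul_eq_mul, ← Finset.mul_sum] at hconc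
  have hsp : 0 < ∑ i, (φ (γ i)).re := Finset.sum_pos (fun i _ => hpos φ i) Finset.univ_nonempty
  rw [Real.log_mul (by positivity) hsp.ne', one_div, Real.log_inv] at hconc
  rw [div_eq_inv_mul]
  linarith

/-- invariance of `lam` under extension -/
theorem lam_algebraMap (F E : Type) [Field F] [NumberField F] [Field E] [NumberField E]
    [Algebra F E] (x : F) : lam E (algebraMap F E x) = lam F x := by
  unfold lam
  have h1 : Algebra.norm ℚ (algebraMap F E x) = (Algebra.norm ℚ x) ^ (finrank F E) := by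
    rw [← Algebra.norm_norm (R := ℚ) (S := F), Algebra.norm_algebraMap, map_pow]
  have h2 : (finrank ℚ E : ℝ) = (finrank ℚ F : ℝ) * (finrank F E : ℝ) := by
    rw [← Nat.cast_mul, Module.finrank_mul_finrank]
  have h3 : (0 : ℝ) < (finrank F E : ℝ) := by
    have : FiniteDimensional F E := FiniteDimensional.right ℚ F E
    exact_mod_cast Module.finrank_pos
  rw [h1, h2, Rat.cast_pow, abs_pow, Real.log_pow, mul_comm (finrank ℚ F : ℝ), mul_div_mul_left _ _ h3.ne']

theorem lam_nonneg {x : L} (hx : IsIntegral ℤ x) : 0 ≤ lam L x := by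
  unfold lam
  refine div_nonneg ?_ (Nat.cast_nonneg _)
  by_cases h0 : x = 0
  · subst h0
    have : Nontrivial L := inferInstance
    simp [Algebra.norm_zero]
  · have h1 : IsIntegral ℤ (Algebra.norm ℚ x) := Algebra.isIntegral_norm ℚ hx
    obtain ⟨z, hz⟩ := IsIntegrallyClosed.isIntegral_iff.mp h1
    have hz' : (Algebra.norm ℚ x : ℚ) = (z : ℚ) := by rw [← hz]; simp
    rw [hz']
    have hz0 : z ≠ 0 := by
      rintro rfl
      have : Algebra.norm ℚ x = 0 := by rw [hz']; simp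
      rw [Algebra.norm_eq_zero_iff] at this
      exact h0 this
    have h2 : (1 : ℝ) ≤ |((z : ℚ) : ℝ)| := by
      have : (1 : ℤ) ≤ |z| := Int.one_le_abs hz0
      have h3 : ((1 : ℤ) : ℝ) ≤ ((|z| : ℤ) : ℝ) := by exact_mod_cast this
      simpa using h3
    exact Real.log_nonneg h2

end Pool.Agent.Pyth
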