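import Pool.Agent.Lib_helper77.Pyth.Unram
import Pool.Agent.Lib_helper93.Pyth.Gap

namespace Pool.Agent.Pyth

open NumberField Module

/-- an algebraic integer all of whose conjugates are small is zero -/
theorem eq_zero_of_small {L : Type} [Field L] [NumberField L] {x : L} (hx : IsIntegral ℤ x)
    (h : ∀ φ : L →+* ℂ, ‖φ x‖ < 1) : x = 0 := by
  by_contra hx0
  have h1 := lam_nonneg hx
  rw [lam_eq_sum hx0] at h1
  have h2 : (∑ φ : L →+* ℂ, Real.log ‖φ x‖) < 0 := by
    refine Finset.sum_neg (fun φ _ => ?_) ?_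
    · refine Real.log_neg ?_ (h φ)
      simpa using hx0
    · obtain ⟨φ⟩ : Nonempty (L →+* ℂ) := inferInstance
      exact ⟨φ, Finset.mem_univ _⟩
  have h3 := div_neg_of_neg_of_pos h2 (finrank_pos' (L := L))
  linarith

theorem integral_of_mul_sq {L : Type} [Field L] [NumberField L] {p : ℕ} (hp : p.Prime)
    (hd : ¬ (p : ℤ) ∣ NumberField.discr L) {y : L} (hy : IsIntegral ℤ ((p : L) * y ^ 2)) :
    IsIntegral ℤ y := by
  have hp0 : (p : L) ≠ 0 := by exact_mod_cast hp.ne_zero
  have hpint : IsIntegral ℤ (p : L) := by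
    have : (p : L) = algebraMap ℤ L (p : ℤ) := by simp
    rw [this]; exact isIntegral_algebraMap
  have h1 : IsIntegral ℤ ((p : L) * y) := by
    refine IsIntegral.of_pow (n := 2) two_pos ?_
    have : ((p : L) * y) ^ 2 = (p : L) * ((p : L) * y ^ 2) := by ring
    rw [this]; exact hpint.mul hy
  obtain ⟨b', hb'⟩ := dvd_of_sq_dvd L p hp hd ⟨(p : L) * y, h1⟩ ⟨(p : L) * y ^ 2, hy⟩ (by
    apply RingOfIntegers.coe_injective
    rw [map_pow, map_mul, map_natCast]
    change ((p : L) * y) ^ 2 = (p : L) * ((p : L) * y ^ 2)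
    ring)
  have h2 := congrArg (algebraMap (𝓞 L) L) hb'
  rw [map_mul, map_natCast] at h2
  have h3 : (p : L) * y = (p : L) * (b' : L) := h2
  have h4 : y = (b' : L) := mul_left_cancel₀ hp0 h3
  rw [h4]
  exact b'.isIntegral_coe

theorem no_root {L : Type} [Field L] [NumberField L] {p q : ℕ} (hp : p.Prime) (hpq : p = 4 * q + 1)
    (hd : ¬ (p : ℤ) ∣ NumberField.discr L) (r : L) : r ^ 2 ≠ (q : L) + 1 * r := by
  intro h
  have hp0 : (p : L) ≠ 0 := by exact_mod_cast hp.ne_zero
  set s : L := 2 * r - 1 with hs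
  have h1 : s ^ 2 = (p : L) := by
    rw [hs, hpq]; push_cast
    linear_combination 4 * h
  have h2 : IsIntegral ℤ ((p : L) * (s / p) ^ 2) := by
    have : (p : L) * (s / p) ^ 2 = 1 := by
      rw [div_pow, h1]; field_simp
    rw [this]; exact isIntegral_one
  have h3 := integral_of_mul_sq hp hd h2
  have hs0 : s ≠ 0 := by
    intro h0; rw [h0] at h1; apply hp0; rw [← h1]; ring
  have h4 := lam_nonneg h3
  have h5 : (1 : L) = (p : L) * (s / p) ^ 2 := by
    rw [div_pow, h1]; field_simp
  have h6 : lam L (1 : L) = lam L (p : L) + 2 * lam L (s / p) := by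
    conv_lhs => rw [h5]
    rw [lam_mul hp0 (pow_ne_zero 2 (div_ne_zero hs0 hp0)), lam_pow]
    norm_num
  have h7 : lam L (1 : L) = 0 := by
    have := lam_natCast (L := L) 1
    simpa using this
  rw [h7, lam_natCast] at h6
  have h8 : 0 < Real.log p := Real.log_pos (by exact_mod_cast hp.one_lt)
  linarith

section Quad

open QuadraticAlgebra

variable {L : Type} [Field L] {q : ℕ}

theorem quad_decomp (z : QuadraticAlgebra L (q : L) (1 : L)) :
    z = algebraMap L _ z.re + algebraMap L _ z.im * omega := by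
  ext <;> simp

theorem quad_omega_sq : (omega : QuadraticAlgebra L (q : L) (1 : L)) * omega =
    ((q : ℕ) : QuadraticAlgebra L (q : L) (1 : L)) + omega := by
  have := omega_mul_omega_eq_algebraMap (a := (q : L)) (b := (1 : L))
  rw [map_natCast, map_one, one_mul] at this
  exact this

theorem quad_numberField [NumberField L] [Fact (∀ r : L, r ^ 2 ≠ (q : L) + 1 * r)] :
    NumberField (QuadraticAlgebra L (q : L) (1 : L)) := by
  have hcast : ∀ x : ℚ, algebraMap ℚ (QuadraticAlgebra L (q : L) (1 : L)) x =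
      algebraMap L (QuadraticAlgebra L (q : L) (1 : L)) (algebraMap ℚ L x) := by
    intro x
    simp
  have hst : IsScalarTower ℚ L (QuadraticAlgebra L (q : L) (1 : L)) :=
    IsScalarTower.of_algebraMap_eq hcast
  have hfin : FiniteDimensional ℚ (QuadraticAlgebra L (q : L) (1 : L)) :=
    Module.Finite.trans (R := ℚ) L _
  exact { to_charZero := inferInstance, to_finiteDimensional := hfin }

theorem quad_omega_integral [Fact (∀ r : L, r ^ 2 ≠ (q : L) + 1 * r)] :
    IsIntegral ℤ (omega : QuadraticAlgebra L (q : L) (1 : L)) := by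
  refine ⟨Polynomial.X ^ 2 - Polynomial.X - Polynomial.C (q : ℤ), by monicity!, ?_⟩
  simp only [Polynomial.eval₂_sub, Polynomial.eval₂_pow, Polynomial.eval₂_X, Polynomial.eval₂_C]
  rw [pow_two, quad_omega_sq]
  simp

theorem quad_totReal [Fact (∀ r : L, r ^ 2 ≠ (q : L) + 1 * r)] (hL : TotReal L) :
    TotReal (QuadraticAlgebra L (q : L) (1 : L)) := by
  intro φ z
  have h1 : ∀ x : L, (φ (algebraMap L _ x)).im = 0 := fun x =>
    hL (φ.comp (algebraMap L (QuadraticAlgebra L (q : L) (1 : L)))) x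
  have h2 : (φ omega).im = 0 := by
    have h3 := congrArg φ (quad_omega_sq (L := L) (q := q))
    rw [map_mul, map_add, map_natCast] at h3
    have h4 := congrArg Complex.re h3
    have h5 := congrArg Complex.im h3
    rw [Complex.mul_re, Complex.add_re, Complex.natCast_re] at h4
    rw [Complex.mul_im, Complex.add_im, Complex.natCast_im] at h5
    by_contra h
    have h6 : (φ omega).re = 1 / 2 := by
      have : (φ omega).im * (2 * (φ omega).re - 1) = 0 := by linarith
      rcases mul_eq_zero.mp this with h7 | h7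
      · exact absurd h7 h
      · linarith
    rw [h6] at h4
    have h8 : (0 : ℝ) ≤ (q : ℝ) := Nat.cast_nonneg _
    nlinarith [mul_self_nonneg (φ omega).im]
  rw [quad_decomp z, map_add, map_mul, Complex.add_im, Complex.mul_im, h1, h1, h2]
  ring

theorem quad_integral [NumberField L] [Fact (∀ r : L, r ^ 2 ≠ (q : L) + 1 * r)] {p : ℕ}
    (hp : p.Prime) (hpq : p = 4 * q + 1) (hd : ¬ (p : ℤ) ∣ NumberField.discr L)
    {z : QuadraticAlgebra L (q : L) (1 : L)} (hz : IsIntegral ℤ z) :
    IsIntegral ℤ z.re ∧ IsIntegral ℤ z.im := by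
  have hinj : Function.Injective (algebraMap L (QuadraticAlgebra L (q : L) (1 : L))) :=
    (algebraMap L (QuadraticAlgebra L (q : L) (1 : L))).injective
  have hdesc : ∀ x : L, IsIntegral ℤ (algebraMap L (QuadraticAlgebra L (q : L) (1 : L)) x) →
      IsIntegral ℤ x := by
    intro x hx
    obtain ⟨P, hP, hPx⟩ := hx
    refine ⟨P, hP, hinj ?_⟩
    rw [map_zero, ← hPx, Polynomial.hom_eval₂]
    congr 1
  have hstar : IsIntegral ℤ (star z) := by
    obtain ⟨P, hP, hPz⟩ := hz
    refine ⟨P, hP, ?_⟩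
    have := congrArg (starRingEnd (QuadraticAlgebra L (q : L) (1 : L))) hPz
    rw [Polynomial.hom_eval₂, map_zero] at this
    rw [← this]
    congr 1
    exact RingHom.ext_int _ _
  have h1 : IsIntegral ℤ (2 * z.re + z.im) := by
    apply hdesc
    have : algebraMap L (QuadraticAlgebra L (q : L) (1 : L)) (2 * z.re + z.im) = z + star z := by
      ext
      · simp; ring
      · simp
    rw [this]
    exact hz.add hstar
  have h2 : IsIntegral ℤ (norm z) := by
    apply hdesc
    rw [algebraMap_norm_eq_mul_star]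
    exact hz.mul hstar
  have h4 : IsIntegral ℤ (4 : L) := by
    have : (4 : L) = algebraMap ℤ L 4 := by simp
    rw [this]; exact isIntegral_algebraMap
  have h3 : IsIntegral ℤ ((p : L) * z.im ^ 2) := by
    have : (p : L) * z.im ^ 2 = (2 * z.re + z.im) ^ 2 - 4 * norm z := by
      rw [norm_def, hpq]; push_cast; ring
    rw [this]
    exact (h1.pow 2).sub (h4.mul h2)
  have him : IsIntegral ℤ z.im := integral_of_mul_sq hp hd h3
  refine ⟨?_, him⟩
  apply hdesc
  have h5 : algebraMap L (QuadraticAlgebra L (q : L) (1 : L)) z.re =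
      z - algebraMap L _ z.im * omega := by
    conv_rhs => rw [quad_decomp z]
    simp
  rw [h5]
  exact hz.sub ((map_isIntegral_int (algebraMap L _) him).mul quad_omega_integral)

theorem quad_not_sumSq [NumberField L] [Fact (∀ r : L, r ^ 2 ≠ (q : L) + 1 * r)] (hL : TotReal L)
    {p : ℕ} (hp : p.Prime) (hpq : p = 4 * q + 1) (hd : ¬ (p : ℤ) ∣ NumberField.discr L)
    (n : ℕ) (α : L) (hαn : ¬ SumSq L n α) (hα : ∀ φ : L →+* ℂ, (φ α).re < q) :
    ¬ SumSq (QuadraticAlgebra L (q : L) (1 : L)) (n + 1)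
      (algebraMap L (QuadraticAlgebra L (q : L) (1 : L)) α + omega ^ 2) := by
  classical
  rintro ⟨f, hf, hsum⟩
  set x : Fin (n + 1) → L := fun i => (f i).re with hx
  set y : Fin (n + 1) → L := fun i => (f i).im with hy
  have hxi : ∀ i, IsIntegral ℤ (x i) := fun i => (quad_integral hp hpq hd (hf i)).1
  have hyi : ∀ i, IsIntegral ℤ (y i) := fun i => (quad_integral hp hpq hd (hf i)).2
  -- real and imaginary part
  have hre : α + q = ∑ i, x i ^ 2 + q * ∑ i, y i ^ 2 := by
    have h1 := congrArg (reₗ (R := L) (a := (q : L)) (b := (1 : L))) hsum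
    rw [map_add, map_sum] at h1
    have h2 : reₗ (R := L) (a := (q : L)) (b := (1 : L)) (algebraMap L _ α) = α := rfl
    have h3 : reₗ (R := L) (a := (q : L)) (b := (1 : L)) (omega ^ 2) = q := by
      change (omega ^ 2 : QuadraticAlgebra L (q : L) (1 : L)).re = q
      rw [pow_two]; simp
    have h4 : ∀ i, reₗ (R := L) (a := (q : L)) (b := (1 : L)) (f i ^ 2) = x i ^ 2 + q * y i ^ 2 := by
      intro i
      change (f i ^ 2 : QuadraticAlgebra L (q : L) (1 : L)).re = _
      rw [pow_two]; simp [x, y]; ring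
    rw [h2, h3] at h1
    simp_rw [h4] at h1
    rw [h1, Finset.sum_add_distrib, Finset.mul_sum]
  have him : 1 = 2 * ∑ i, x i * y i + ∑ i, y i ^ 2 := by
    have h1 := congrArg (imₗ (R := L) (a := (q : L)) (b := (1 : L))) hsum
    rw [map_add, map_sum] at h1
    have h2 : imₗ (R := L) (a := (q : L)) (b := (1 : L)) (algebraMap L _ α) = 0 := rfl
    have h3 : imₗ (R := L) (a := (q : L)) (b := (1 : L)) (omega ^ 2) = 1 := by
      change (omega ^ 2 : QuadraticAlgebra L (q : L) (1 : L)).im = 1
      rw [pow_two]; simp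
    have h4 : ∀ i, imₗ (R := L) (a := (q : L)) (b := (1 : L)) (f i ^ 2) =
        2 * (x i * y i) + y i ^ 2 := by
      intro i
      change (f i ^ 2 : QuadraticAlgebra L (q : L) (1 : L)).im = _
      rw [pow_two]; simp [x, y]; ring
    rw [h2, h3] at h1
    simp_rw [h4] at h1
    rw [zero_add] at h1
    rw [h1, Finset.sum_add_distrib, Finset.mul_sum]
  -- reality
  have hsqre : ∀ (φ : L →+* ℂ) (a : L), (φ (a ^ 2)).re = (φ a).re ^ 2 := by
    intro φ a
    rw [map_pow, pow_two, Complex.mul_re, hL φ a]; ring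
  have hsumre : ∀ (φ : L →+* ℂ) (s : Finset (Fin (n + 1))) (a : Fin (n + 1) → L),
      (φ (∑ i ∈ s, a i ^ 2)).re = ∑ i ∈ s, (φ (a i)).re ^ 2 := by
    intro φ s a
    rw [map_sum, Complex.re_sum]
    exact Finset.sum_congr rfl fun i _ => hsqre φ _
  have hsmall : ∀ a : L, IsIntegral ℤ a → (∀ φ : L →+* ℂ, |(φ a).re| < 1) → a = 0 := by
    intro a ha h
    refine eq_zero_of_small ha fun φ => ?_
    have him := hL φ a
    have : φ a = ((φ a).re : ℂ) := by apply Complex.ext <;> simp [him]
    rw [this, Complex.norm_real, Real.norm_eq_abs]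
    exact h φ
  have hqpos : (0 : ℝ) < q := by
    rcases Nat.eq_zero_or_pos q with h | h
    · subst h; rw [hpq] at hp; norm_num at hp
    · exact_mod_cast h
  set Y : L := ∑ i, y i ^ 2 with hY
  have hYint : IsIntegral ℤ Y := IsIntegral.sum _ fun i _ => (hyi i).pow 2
  have hY0 : Y ≠ 0 := by
    intro h0
    obtain ⟨φ⟩ : Nonempty (L →+* ℂ) := inferInstance
    have h1 := hsumre φ Finset.univ y
    rw [← hY, h0, map_zero, Complex.zero_re] at h1
    have h2 := (Finset.sum_eq_zero_iff_of_nonneg (fun i _ => sq_nonneg _)).mp h1.symm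
    have h3 : ∀ i, y i = 0 := by
      intro i
      have h4 : (φ (y i)).re = 0 := by
        have := h2 i (Finset.mem_univ i)
        simpa using this
      have h5 : φ (y i) = 0 := Complex.ext h4 (hL φ (y i))
      simpa using h5
    have h4 : ∑ i, x i * y i = 0 := Finset.sum_eq_zero fun i _ => by rw [h3 i, mul_zero]
    rw [h4, h0] at him
    simp at him
  have hYpos : ∀ φ : L →+* ℂ, 0 < (φ Y).re := by
    intro φ
    have h1 : 0 ≤ (φ Y).re := by
      rw [hY, hsumre]; exact Finset.sum_nonneg fun i _ => sq_nonneg _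
    rcases h1.lt_or_eq with h | h
    · exact h
    · exfalso
      apply hY0
      have : φ Y = 0 := Complex.ext h.symm (hL φ Y)
      simpa using this
  have hYlt : ∀ φ : L →+* ℂ, (φ Y).re < 2 := by
    intro φ
    have h1 := congrArg (fun z => (φ z).re) hre
    simp only [map_add, map_mul, map_natCast, Complex.add_re, Complex.mul_re, Complex.natCast_re,
      Complex.natCast_im, zero_mul, sub_zero] at h1
    have h2 : 0 ≤ (φ (∑ i, x i ^ 2)).re := by
      rw [hsumre]; exact Finset.sum_nonneg fun i _ => sq_nonneg _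
    have h3 := hα φ
    by_contra h4
    push Not at h4
    nlinarith
  have hY1 : Y = 1 := by
    have : Y - 1 = 0 := by
      refine hsmall _ (hYint.sub isIntegral_one) fun φ => ?_
      rw [map_sub, map_one, Complex.sub_re, Complex.one_re, abs_lt]
      constructor
      · linarith [hYpos φ]
      · linarith [hYlt φ]
    exact sub_eq_zero.mp this
  -- one of the `y j` is nonzero, hence a unit square
  obtain ⟨j, hj⟩ : ∃ j, y j ≠ 0 := by
    by_contra h
    push Not at h
    apply hY0
    rw [hY]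
    exact Finset.sum_eq_zero fun i _ => by rw [h i]; ring
  have hsplit : Y = y j ^ 2 + ∑ i ∈ Finset.univ.erase j, y i ^ 2 :=
    (Finset.add_sum_erase _ _ (Finset.mem_univ j)).symm
  have hrest : ∑ i ∈ Finset.univ.erase j, y i ^ 2 = 0 := by
    refine hsmall _ (IsIntegral.sum _ fun i _ => (hyi i).pow 2) fun φ => ?_
    have h1 : 0 ≤ (φ (∑ i ∈ Finset.univ.erase j, y i ^ 2)).re := by
      rw [hsumre]; exact Finset.sum_nonneg fun i _ => sq_nonneg _
    rw [abs_of_nonneg h1]
    have h2 := congrArg (fun z => (φ z).re) hsplit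
    simp only [map_add, Complex.add_re] at h2
    rw [hY1, map_one, Complex.one_re, hsqre] at h2
    have h3 : 0 < (φ (y j)).re ^ 2 := by
      have h4 : (φ (y j)).re ≠ 0 := by
        intro h5
        apply hj
        have : φ (y j) = 0 := Complex.ext h5 (hL φ (y j))
        simpa using this
      positivity
    linarith
  have hyz : ∀ i, i ≠ j → y i = 0 := by
    intro i hij
    obtain ⟨φ⟩ : Nonempty (L →+* ℂ) := inferInstance
    have h1 := hsumre φ (Finset.univ.erase j) y
    rw [hrest, map_zero, Complex.zero_re] at h1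
    have h2 := (Finset.sum_eq_zero_iff_of_nonneg (fun i _ => sq_nonneg _)).mp h1.symm i
      (Finset.mem_erase.mpr ⟨hij, Finset.mem_univ i⟩)
    have h4 : (φ (y i)).re = 0 := by simpa using h2
    have h5 : φ (y i) = 0 := Complex.ext h4 (hL φ (y i))
    simpa using h5
  have hxj : x j = 0 := by
    rw [hY1] at him
    have h1 : ∑ i, x i * y i = x j * y j :=
      Finset.sum_eq_single j (fun i _ hij => by rw [hyz i hij, mul_zero])
        (fun h => absurd (Finset.mem_univ j) h)
    have h2 : x j * y j = 0 := by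
      have : (2 : L) * (x j * y j) = 0 := by rw [← h1]; linear_combination -him
      simpa using this
    exact (mul_eq_zero.mp h2).resolve_right hj
  have hαsum : α = ∑ i, x i ^ 2 := by
    rw [hY1] at hre
    linear_combination hre
  apply hαn
  refine ⟨fun i => x (j.succAbove i), fun i => hxi _, ?_⟩
  rw [hαsum, Fin.sum_univ_succAbove _ j, hxj]
  ring

end Quad

/-- one more square is needed in a suitable quadratic extension -/
theorem long_step (n : ℕ) (L : Type) [Field L] [NumberField L] (hL : TotReal L) (α : L)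
    (hα : ∃ m, SumSq L m α) (hαn : ¬ SumSq L n α) :
    ∃ (L' : Type) (_ : Field L') (_ : NumberField L'), TotReal L' ∧
      ∃ α' : L', (∃ m, SumSq L' m α') ∧ ¬ SumSq L' (n + 1) α' := by
  classical
  obtain ⟨m, hm⟩ := hα
  -- choice of the prime
  obtain ⟨B, hB⟩ : ∃ B : ℕ, ∀ φ : L →+* ℂ, (φ α).re < B := by
    obtain ⟨B, hB⟩ := exists_nat_gt (∑ φ : L →+* ℂ, |(φ α).re|)
    refine ⟨B, fun φ => lt_of_le_of_lt ?_ hB⟩
    refine (le_abs_self _).trans ?_
    exact Finset.single_le_sum (f := fun φ : L →+* ℂ => |(φ α).re|) (fun _ _ => abs_nonneg _)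
      (Finset.mem_univ φ)
  obtain ⟨p, hp, hpgt, hpmod⟩ := Nat.exists_prime_gt_modEq_one (k := 4)
    (4 * B + (NumberField.discr L).natAbs + 4) (by norm_num)
  obtain ⟨q, hpq⟩ : ∃ q, p = 4 * q + 1 := by
    refine ⟨p / 4, ?_⟩
    have : p % 4 = 1 := hpmod
    omega
  have hqB : B < q := by omega
  have hd : ¬ (p : ℤ) ∣ NumberField.discr L := by
    intro h
    have h1 := Int.natAbs_dvd_natAbs.mpr h
    have h2 := Nat.le_of_dvd (Int.natAbs_pos.mpr (NumberField.discr_ne_zero L)) h1
    simp at h2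
    omega
  have hfact : Fact (∀ r : L, r ^ 2 ≠ (q : L) + 1 * r) := ⟨no_root hp hpq hd⟩
  refine ⟨QuadraticAlgebra L (q : L) (1 : L), inferInstance, quad_numberField, quad_totReal hL,
    algebraMap L (QuadraticAlgebra L (q : L) (1 : L)) α + QuadraticAlgebra.omega ^ 2, ?_, ?_⟩
  · exact ⟨m + 1, (hm.map (algebraMap L _)).add_sq quad_omega_integral⟩
  · refine quad_not_sumSq hL hp hpq hd n α hαn fun φ => (hB φ).trans ?_
    exact_mod_cast hqB

theorem exists_long_type (n : ℕ) : ∃ (L : Type) (_ : Field L) (_ : NumberField L), TotReal L ∧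
    ∃ α : L, (∃ m, SumSq L m α) ∧ ¬ SumSq L n α := by
  induction n with
  | zero =>
    refine ⟨ℚ, inferInstance, inferInstance, ?_, 1, ⟨1, fun _ => 1, fun _ => isIntegral_one, by simp⟩, ?_⟩
    · intro φ x
      have : φ x = (x : ℂ) := by simp
      rw [this]; simp
    · rintro ⟨f, -, h⟩
      simp at h
  | succ n ih =>
    obtain ⟨L, _, _, hL, α, hα, hαn⟩ := ih
    exact long_step n L hL α hα hαn

/-- Module E (base case: long elements exist). -/
theorem exists_long (n : ℕ) : ∃ (L : Subfield ℂ) (_ : NumberField L), TotReal L ∧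
    ∃ α : L, (∃ m, SumSq L m α) ∧ ¬ SumSq L n α := by
  obtain ⟨L, _, _, hL, α, ⟨m, hm⟩, hαn⟩ := exists_long_type n
  obtain ⟨φ₀⟩ : Nonempty (L →+* ℂ) := inferInstance
  let e : L ≃+* φ₀.fieldRange := RingEquiv.ofBijective φ₀.rangeRestrictField
    ⟨φ₀.rangeRestrictField.injective, fun y => by
      obtain ⟨x, hx⟩ := y.2
      exact ⟨x, Subtype.ext hx⟩⟩
  have hnf : NumberField φ₀.fieldRange := NumberField.of_ringEquiv L _ e
  refine ⟨φ₀.fieldRange, hnf, ?_, e α, ⟨m, hm.map e.toRingHom⟩, ?_⟩
  · intro φ x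
    have := hL (φ.comp e.toRingHom) (e.symm x)
    simpa using this
  · intro h
    apply hαn
    have := h.map e.symm.toRingHom
    simpa using this

end Pool.Agent.Pyth
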