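import Pool.Agent.Lib_helper77.Pyth.Defs

namespace Pool.Agent.Pyth

theorem numeric_growth (C ε : ℝ) (hε : 0 < ε) :
    ∃ M : ℕ, ∀ m : ℕ, M ≤ m → C + 2 * Real.log m < m * ε := by
  have h1 := Real.isLittleO_log_id_atTop.bound (show (0 : ℝ) < ε / 4 by positivity)
  rw [Filter.eventually_atTop] at h1
  obtain ⟨a, ha⟩ := h1
  obtain ⟨M₁, hM₁⟩ := exists_nat_gt a
  obtain ⟨M₂, hM₂⟩ := exists_nat_gt (2 * |C| / ε)
  refine ⟨max (max M₁ M₂) 1, fun m hm => ?_⟩
  have hm1 : (M₁ : ℝ) ≤ m := by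
    exact_mod_cast (le_max_left M₁ M₂).trans ((le_max_left _ _).trans hm)
  have hm2 : (M₂ : ℝ) ≤ m := by
    exact_mod_cast (le_max_right M₁ M₂).trans ((le_max_left _ _).trans hm)
  have hm3 : (1 : ℝ) ≤ m := by exact_mod_cast (le_max_right _ _).trans hm
  have h2 := ha m (by linarith)
  simp only [id, Real.norm_eq_abs] at h2
  have h3 : Real.log m ≤ ε / 4 * m := by
    have h4 : |((m : ℕ) : ℝ)| = m := abs_of_nonneg (by positivity)
    rw [h4] at h2
    exact (le_abs_self _).trans h2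
  have h5 : 2 * |C| < m * ε := by
    have : 2 * |C| / ε < m := lt_of_lt_of_le hM₂ hm2
    rwa [div_lt_iff₀ hε] at this
  have h6 := le_abs_self C
  nlinarith

theorem log_factorial_le (m : ℕ) : Real.log (m.factorial : ℝ) ≤ m * Real.log m := by
  rcases Nat.eq_zero_or_pos m with h | h
  · subst h; simp
  · rw [← Real.log_pow]
    refine Real.log_le_log (by exact_mod_cast m.factorial_pos) ?_
    exact_mod_cast Nat.factorial_le_pow m

/-- the final contradiction -/
theorem numeric_main {d μ s K k n : ℕ} (hd : 1 ≤ d) (hμ : 2 ≤ μ) (hs : 1 ≤ s) (hK : 1 ≤ K)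
    {ℓ lb A lam lD lD' c₁ ε : ℝ} (hlb : 0 ≤ lb) (hA : 0 ≤ A)
    (hε : 16 * ε = lam - A) (hε0 : 0 < ε) (hc₁ : c₁ ≤ 2 * K * ε)
    (hlbK : K * lam / 2 - c₁ ≤ lb)
    (hm : ((μ * s : ℕ) : ℝ) ≤ 2 * (K * k))
    (h1 : lD' ≤ μ * ℓ + 2 * d * (Real.log (μ.factorial : ℝ) + n * μ * Real.log 2)
      + d * (μ : ℝ) ^ 2 / 4 * A)
    (h2 : lD ≤ s * lD' + 2 * (d * μ) * (Real.log (s.factorial : ℝ) + 2 * s * Real.log 2)
      + (d * μ) * (s : ℝ) ^ 2 / 4 * lam)
    (h3 : (d * (μ * s : ℝ)) * (((k : ℝ) - 1) * lb - 1) ≤ lD) :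
    ((μ * s : ℕ) : ℝ) * ε ≤
      (ℓ / d + 2 * (n + 2) * Real.log 2 + lb + 1 + lam / 2) + 2 * Real.log ((μ * s : ℕ) : ℝ) := by
  have hd0 : (0 : ℝ) < d := by exact_mod_cast hd
  have hμ2 : (2 : ℝ) ≤ μ := by exact_mod_cast hμ
  have hμ0 : (0 : ℝ) < μ := by linarith
  have hs1 : (1 : ℝ) ≤ s := by exact_mod_cast hs
  have hs0 : (0 : ℝ) < s := by linarith
  have hK1 : (1 : ℝ) ≤ K := by exact_mod_cast hK
  have hK0 : (0 : ℝ) < K := by linarith
  have hlam : 0 < lam := by linarith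
  set m : ℝ := (μ : ℝ) * s with hmdef
  have hm0 : 0 < m := by positivity
  have hcast : ((μ * s : ℕ) : ℝ) = m := by push_cast; rfl
  rw [hcast] at hm ⊢
  have f1 := log_factorial_le μ
  have f2 := log_factorial_le s
  have hlogm : Real.log m = Real.log μ + Real.log s := Real.log_mul hμ0.ne' hs0.ne'
  have hdm : 0 < (d : ℝ) * m := by positivity
  -- combined upper bound
  have h4 : lD ≤ m * ℓ + 2 * (d * m) * Real.log m + 2 * (d * m) * ((n + 2) * Real.log 2)
      + (d * m) / 4 * (μ * A + s * lam) := by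
    have e1 : (s : ℝ) * lD' ≤ s * (μ * ℓ + 2 * d * (μ * Real.log μ + n * μ * Real.log 2)
        + d * (μ : ℝ) ^ 2 / 4 * A) := by
      refine mul_le_mul_of_nonneg_left (h1.trans ?_) hs0.le
      have : 2 * (d : ℝ) * Real.log (μ.factorial : ℝ) ≤ 2 * d * (μ * Real.log μ) :=
        mul_le_mul_of_nonneg_left f1 (by positivity)
      linarith
    have e2 : 2 * ((d : ℝ) * μ) * Real.log (s.factorial : ℝ) ≤ 2 * (d * μ) * (s * Real.log s) :=
      mul_le_mul_of_nonneg_left f2 (by positivity)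
    have e3 : (s : ℝ) * (μ * ℓ + 2 * d * (μ * Real.log μ + n * μ * Real.log 2)
        + d * (μ : ℝ) ^ 2 / 4 * A) + 2 * (d * μ) * (s * Real.log s)
        + 2 * (d * μ) * (2 * s * Real.log 2) + (d * μ) * (s : ℝ) ^ 2 / 4 * lam =
        m * ℓ + 2 * (d * m) * Real.log m + 2 * (d * m) * ((n + 2) * Real.log 2)
      + (d * m) / 4 * (μ * A + s * lam) := by
      rw [hlogm, hmdef]; ring
    rw [← e3]
    linarith
  have h5 : ((k : ℝ) - 1) * lb - 1 ≤ ℓ / d + 2 * Real.log m + 2 * ((n + 2) * Real.log 2)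
      + (μ * A + s * lam) / 4 := by
    have h6 := h3.trans h4
    have h7 : m * ℓ + 2 * (d * m) * Real.log m + 2 * (d * m) * ((n + 2) * Real.log 2)
      + (d * m) / 4 * (μ * A + s * lam) = (d * m) * (ℓ / d + 2 * Real.log m +
        2 * ((n + 2) * Real.log 2) + (μ * A + s * lam) / 4) := by
      field_simp
    rw [h7] at h6
    exact le_of_mul_le_mul_left h6 hdm
  have h8 : m / (2 * K) ≤ k := by
    rw [div_le_iff₀ (by positivity)]
    linarith
  have h9 : m * lam / 4 - m * ε ≤ k * lb := by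
    have e1 : m / (2 * K) * (K * lam / 2 - c₁) ≤ k * lb := by
      calc m / (2 * K) * (K * lam / 2 - c₁) ≤ m / (2 * K) * lb :=
            mul_le_mul_of_nonneg_left hlbK (by positivity)
        _ ≤ k * lb := mul_le_mul_of_nonneg_right h8 hlb
    have e2 : m / (2 * K) * c₁ ≤ m * ε := by
      calc m / (2 * K) * c₁ ≤ m / (2 * K) * (2 * K * ε) :=
            mul_le_mul_of_nonneg_left hc₁ (by positivity)
        _ = m * ε := by field_simp
    have e3 : m / (2 * K) * (K * lam / 2 - c₁) = m * lam / 4 - m / (2 * K) * c₁ := by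
      field_simp
      ring
    rw [e3] at e1
    linarith
  have h10 : m * lam / 4 - m * ε - (μ * A + s * lam) / 4 ≤
      ℓ / d + 2 * Real.log m + 2 * ((n + 2) * Real.log 2) + lb + 1 := by linarith
  have h11 : m * ε - lam / 2 ≤ m * lam / 4 - m * ε - (μ * A + s * lam) / 4 := by
    rcases Nat.lt_or_ge s 2 with h | h
    · have hs' : s = 1 := by omega
      have hs'' : (s : ℝ) = 1 := by exact_mod_cast hs'
      have hmμ : m = μ := by rw [hmdef, hs'', mul_one]
      rw [hs'', ← hmμ]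
      have : m * (16 * ε) = m * lam - m * A := by rw [hε]; ring
      have : 0 ≤ m * ε := by positivity
      linarith
    · have hs2 : (2 : ℝ) ≤ s := by exact_mod_cast h
      have e1 : (μ : ℝ) + s ≤ m / 2 + 2 := by
        have := mul_nonneg (sub_nonneg.mpr hμ2) (sub_nonneg.mpr hs2)
        rw [hmdef]; nlinarith
      have e2 : μ * A + s * lam ≤ (m / 2 + 2) * lam := by
        have : (μ : ℝ) * A ≤ μ * lam := mul_le_mul_of_nonneg_left (by linarith) hμ0.le
        have := mul_le_mul_of_nonneg_right e1 hlam.le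
        nlinarith
      have e3 : m * (16 * ε) ≤ m * lam := mul_le_mul_of_nonneg_left (by linarith) hm0.le
      linarith
  linarith

end Pool.Agent.Pyth
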