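import Pool.Agent.Lib_helper77.Pyth.Extension
import Pool.Agent.Lib_helper77.Pyth.Numeric

namespace Pool.Agent.Pyth

open Polynomial NumberField Module

theorem one_le_abs_discr (L : Type) [Field L] [NumberField L] :
    0 ≤ Real.log |(NumberField.discr L : ℝ)| := by
  refine Real.log_nonneg ?_
  have h : (1 : ℤ) ≤ |NumberField.discr L| := Int.one_le_abs (NumberField.discr_ne_zero L)
  have h2 : ((1 : ℤ) : ℝ) ≤ ((|NumberField.discr L| : ℤ) : ℝ) := by exact_mod_cast h
  simpa using h2

theorem sum_pair {E : Type} [Field E] (x y : E) : ∑ i, (![x, y] i) ^ 2 = x ^ 2 + y ^ 2 := by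
  rw [Fin.sum_univ_two]; rfl

theorem range_pair {E : Type} (x y : E) : Set.range ![x, y] = {x, y} := by
  ext z
  simp only [Set.mem_range, Set.mem_insert_iff, Set.mem_singleton_iff]
  constructor
  · rintro ⟨i, rfl⟩
    fin_cases i <;> simp
  · rintro (rfl | rfl)
    · exact ⟨0, rfl⟩
    · exact ⟨1, rfl⟩

/-- if `α` becomes a sum of `n` squares in `E`, then the discriminant of `E` is small -/
theorem key_bound (L : Type) [Field L] [NumberField L] (n : ℕ) (α β : L)
    (hα : ¬ SumSq L n α) (hα4 : Real.log 4 ≤ lam L α) (hβ0 : β ≠ 0)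
    (hlt : lam L α < lam L β) (E : Type) [Field E] [NumberField E] [Algebra L E]
    (hE : TotReal E) (x y : E) (hx : IsIntegral ℤ x) (hy : IsIntegral ℤ y)
    (hxy : x ^ 2 + y ^ 2 = algebraMap L E β) (hadj : Algebra.adjoin L {x, y} = ⊤)
    (hsum : SumSq E n (algebraMap L E α)) :
    ∃ (μ s : ℕ) (lD' : ℝ), 2 ≤ μ ∧ 1 ≤ s ∧ μ * s = finrank L E ∧
      lD' ≤ μ * Real.log |(NumberField.discr L : ℝ)|
        + 2 * (finrank ℚ L : ℝ) * (Real.log (μ.factorial : ℝ) + n * μ * Real.log 2)
        + (finrank ℚ L : ℝ) * (μ : ℝ) ^ 2 / 4 * (lam L α - Real.log 4) ∧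
      Real.log |(NumberField.discr E : ℝ)| ≤ s * lD' + 2 * ((finrank ℚ L : ℝ) * μ) *
        (Real.log (s.factorial : ℝ) + 2 * s * Real.log 2)
        + ((finrank ℚ L : ℝ) * μ) * (s : ℝ) ^ 2 / 4 * (lam L β - Real.log 4) := by
  obtain ⟨f, hf, hfα⟩ := hsum
  have : FiniteDimensional L E := FiniteDimensional.right ℚ L E
  set L'' : IntermediateField L E := IntermediateField.adjoin L (Set.range f) with hL''
  have hfmem : ∀ i, f i ∈ L'' := fun i => IntermediateField.subset_adjoin _ _ ⟨i, rfl⟩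
  set g : Fin n → L'' := fun i => ⟨f i, hfmem i⟩ with hg
  have hNF : NumberField L'' := NumberField.of_module_finite L L''
  have hα0 : α ≠ 0 := by
    rintro rfl
    have : (0 : ℝ) < Real.log 4 := Real.log_pos (by norm_num)
    have h0 : lam L (0 : L) = 0 := by
      have := lam_natCast (L := L) 0
      simpa using this
    linarith
  have hinj : Function.Injective L''.val := L''.val.injective
  have hgint : ∀ i, IsIntegral ℤ (g i) := fun i =>
    (isIntegral_algHom_iff (L''.val.restrictScalars ℤ) hinj).mp (hf i)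
  have hgsum : ∑ i, g i ^ 2 = algebraMap L L'' α := by
    apply hinj
    rw [map_sum]
    simp only [map_pow]
    have : L''.val (algebraMap L L'' α) = algebraMap L E α := rfl
    rw [this, hfα]
    rfl
  have hgadj : Algebra.adjoin L (Set.range g) = ⊤ := by
    have h1 : L''.toSubalgebra = Algebra.adjoin L (Set.range f) :=
      IntermediateField.adjoin_toSubalgebra_of_isAlgebraic
        (fun z _ => (Algebra.IsIntegral.isIntegral (R := L) z).isAlgebraic)
    rw [eq_top_iff]
    intro z _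
    have hz : (z : E) ∈ Algebra.adjoin L (Set.range f) := by
      rw [← h1]; exact z.2
    have h2 : (Algebra.adjoin L (Set.range g)).map L''.val = Algebra.adjoin L (Set.range f) := by
      rw [AlgHom.map_adjoin, ← Set.range_comp]
      rfl
    rw [← h2] at hz
    obtain ⟨w, hw, hwz⟩ := hz
    have : w = z := hinj hwz
    rw [← this]; exact hw
  have hL''real : TotReal L'' := TotReal.of_algebra L'' E hE
  have hUB1 := discr_upper L L'' hL''real n g hgint hgadj α hα0 hgsum
  -- second step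
  have hβ'0 : algebraMap L L'' β ≠ 0 := by simpa using hβ0
  have hadj2 : Algebra.adjoin L'' (Set.range ![x, y]) = ⊤ := by
    rw [range_pair, eq_top_iff]
    intro z hztop
    clear hztop
    have hz : z ∈ Algebra.adjoin L {x, y} := by rw [hadj]; trivial
    induction hz using Algebra.adjoin_induction with
    | mem w hw => exact Algebra.subset_adjoin hw
    | algebraMap a =>
      have : algebraMap L E a = algebraMap L'' E (algebraMap L L'' a) := rfl
      rw [this]; exact Subalgebra.algebraMap_mem _ _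
    | add u v _ _ hu hv => exact Subalgebra.add_mem _ hu hv
    | mul u v _ _ hu hv => exact Subalgebra.mul_mem _ hu hv
  have hUB2 := discr_upper L'' E hE 2 ![x, y]
    (by intro i; fin_cases i <;> simpa) hadj2 (algebraMap L L'' β) hβ'0
    (by rw [sum_pair, hxy]; rfl)
  rw [lam_algebraMap] at hUB2
  have hmax1 : max 0 (lam L α - Real.log 4) = lam L α - Real.log 4 :=
    max_eq_right (by linarith)
  have hmax2 : max 0 (lam L β - Real.log 4) = lam L β - Real.log 4 :=
    max_eq_right (by linarith)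
  rw [hmax1] at hUB1
  rw [hmax2] at hUB2
  have hfr : (finrank ℚ L'' : ℝ) = (finrank ℚ L : ℝ) * (finrank L L'' : ℝ) := by
    rw [← Nat.cast_mul, Module.finrank_mul_finrank]
  rw [hfr] at hUB2
  refine ⟨finrank L L'', finrank L'' E, Real.log |(NumberField.discr L'' : ℝ)|, ?_,
    Module.finrank_pos, Module.finrank_mul_finrank L L'' E, hUB1, ?_⟩
  · by_contra hlt2
    have h1 : finrank L L'' = 1 := by
      have := Module.finrank_pos (R := L) (M := L'')
      omega
    have hbot : L'' = ⊥ := IntermediateField.finrank_eq_one_iff.mp h1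
    apply hα
    have hmem : ∀ i, ∃ a : L, algebraMap L E a = f i := by
      intro i
      have := hfmem i
      rw [hbot, IntermediateField.mem_bot] at this
      exact this
    choose a ha using hmem
    have hinjLE : Function.Injective (algebraMap L E) := (algebraMap L E).injective
    refine ⟨a, fun i => ?_, ?_⟩
    · have := hf i
      rw [← ha i] at this
      exact (isIntegral_algHom_iff (algebraMap L E).toIntAlgHom hinjLE).mp this
    · apply hinjLE
      rw [map_sum, hfα]
      refine Finset.sum_congr rfl fun i _ => ?_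
      rw [map_pow, ha i]
  · push_cast at hUB2
    exact hUB2

/-- upper bound for the discriminant of `E = L(x,y)` -/
theorem simple_bound (L : Type) [Field L] [NumberField L] (β : L) (hβ0 : β ≠ 0)
    (hβ4 : Real.log 4 ≤ lam L β) (E : Type) [Field E] [NumberField E] [Algebra L E]
    (hE : TotReal E) (x y : E) (hx : IsIntegral ℤ x) (hy : IsIntegral ℤ y)
    (hxy : x ^ 2 + y ^ 2 = algebraMap L E β) (hadj : Algebra.adjoin L {x, y} = ⊤) :
    Real.log |(NumberField.discr E : ℝ)| ≤
      (finrank L E : ℝ) * Real.log |(NumberField.discr L : ℝ)|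
      + 2 * (finrank ℚ L : ℝ) * ((finrank L E : ℝ) * (finrank L E : ℝ)
          + 2 * (finrank L E : ℝ) * Real.log 2)
      + (finrank ℚ L : ℝ) * (finrank L E : ℝ) ^ 2 / 4 * (lam L β - Real.log 4) := by
  have : FiniteDimensional L E := FiniteDimensional.right ℚ L E
  have hUB := discr_upper L E hE 2 ![x, y] (by intro i; fin_cases i <;> simpa)
    (by rw [range_pair, hadj]) β hβ0 (by rw [sum_pair, hxy])
  rw [max_eq_right (by linarith)] at hUB
  have h1 := log_factorial_le (finrank L E)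
  have h2 : Real.log (finrank L E : ℝ) ≤ (finrank L E : ℝ) := by
    have h3 : (0 : ℝ) < (finrank L E : ℝ) := by exact_mod_cast Module.finrank_pos
    have := Real.log_le_sub_one_of_pos h3
    linarith
  have h4 : Real.log ((finrank L E).factorial : ℝ) ≤ (finrank L E : ℝ) * (finrank L E : ℝ) :=
    h1.trans (mul_le_mul_of_nonneg_left h2 (Nat.cast_nonneg _))
  have h5 : 2 * (finrank ℚ L : ℝ) * Real.log ((finrank L E).factorial : ℝ) ≤
      2 * (finrank ℚ L : ℝ) * ((finrank L E : ℝ) * (finrank L E : ℝ)) :=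
    mul_le_mul_of_nonneg_left h4 (by positivity)
  push_cast at hUB
  linarith

theorem tower_step_aux (L : Type) [Field L] [NumberField L] (hL : TotReal L) (Ω : Type)
    [Field Ω] [IsAlgClosed Ω] [Algebra L Ω] (n : ℕ) (α β : L)
    (hα : ¬ SumSq L n α) (hα4 : Real.log 4 ≤ lam L α)
    (hβ : IsIntegral ℤ β) (hβpos : ∀ φ : L →+* ℂ, 0 < (φ β).re) (hlt : lam L α < lam L β) :
    ∃ (E : IntermediateField L Ω), NumberField E ∧ TotReal E ∧ 2 ≤ finrank L E ∧
      SumSq E 2 (algebraMap L E β) ∧ ¬ SumSq E n (algebraMap L E α) := by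
  set A : ℝ := lam L α - Real.log 4 with hA
  set lm : ℝ := lam L β - Real.log 4 with hlm
  have hA0 : 0 ≤ A := by linarith
  have hlm0 : 0 < lm := by linarith
  have hβ0 : β ≠ 0 := by
    rintro rfl
    obtain ⟨φ⟩ : Nonempty (L →+* ℂ) := inferInstance
    have := hβpos φ
    simp at this
  obtain ⟨c, hc0, hcheb⟩ := exists_near_chebyshev L hL β hβ hβpos (by linarith)
  set ε : ℝ := (lm - A) / 16 with hε
  have hε0 : 0 < ε := by
    have : 0 < lm - A := by linarith
    positivity
  set c₁ : ℝ := Real.log 4 - Real.log c with hc₁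
  -- choose K₀
  obtain ⟨K₀, hK₀⟩ : ∃ K₀ : ℕ, ∀ K : ℕ, K₀ ≤ K → 1 ≤ K ∧ 8 ≤ c * Real.exp (K * lm / 2) ∧
      c₁ ≤ 2 * K * ε := by
    obtain ⟨a, ha⟩ := exists_nat_gt (c₁ / (2 * ε))
    obtain ⟨a', ha'⟩ := exists_nat_gt (2 * Real.log (8 / c) / lm)
    refine ⟨max (max a a') 1, fun K hK => ⟨(le_max_right _ _).trans hK, ?_, ?_⟩⟩
    · have h1 : (a' : ℝ) ≤ K := by
        exact_mod_cast (le_max_right a a').trans ((le_max_left _ _).trans hK)
      have h2 : 2 * Real.log (8 / c) / lm < K := lt_of_lt_of_le ha' h1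
      rw [div_lt_iff₀ hlm0] at h2
      have h3 : Real.log (8 / c) ≤ K * lm / 2 := by linarith
      have h4 : 8 / c ≤ Real.exp (K * lm / 2) := by
        rw [← Real.exp_log (show (0 : ℝ) < 8 / c by positivity)]
        exact Real.exp_le_exp.mpr h3
      rw [div_le_iff₀ hc0] at h4
      linarith
    · have h1 : (a : ℝ) ≤ K := by
        exact_mod_cast (le_max_left a a').trans ((le_max_left _ _).trans hK)
      have h2 : c₁ / (2 * ε) < K := lt_of_lt_of_le ha h1
      rw [div_lt_iff₀ (by positivity)] at h2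
      linarith
  obtain ⟨K, hKK₀, G, η, hGm, hGdeg, hGint, hηint, hη0, hG⟩ := hcheb K₀
  obtain ⟨hK1, hu8, hc₁K⟩ := hK₀ K hKK₀
  set u : ℝ := c * Real.exp (K * lm / 2) with hu
  have hu0 : 0 < u := by linarith
  set b : ℕ := 2 * ⌊u / 4⌋₊ with hb
  have hfl : (⌊u / 4⌋₊ : ℝ) ≤ u / 4 := Nat.floor_le (by positivity)
  have hfl2 : u / 4 < ⌊u / 4⌋₊ + 1 := Nat.lt_floor_add_one _
  have hfl3 : 2 ≤ ⌊u / 4⌋₊ := by
    apply Nat.le_floor
    push_cast
    linarith
  have hb4 : 4 ≤ b := by omega
  have hbeven : Even b := ⟨⌊u / 4⌋₊, by rw [hb]; ring⟩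
  have hbu : 2 * (b : ℝ) ≤ u := by rw [hb]; push_cast; linarith
  have hbl : u / 4 ≤ b := by rw [hb]; push_cast; linarith
  have hb0 : (0 : ℝ) < b := by linarith
  set lb : ℝ := Real.log b with hlb
  have hb1 : (1 : ℝ) < b := by
    have : (4 : ℝ) ≤ b := by exact_mod_cast hb4
    linarith
  have hlb0 : 0 < lb := Real.log_pos hb1
  have hlbK : K * lm / 2 - c₁ ≤ lb := by
    have h1 : Real.log (u / 4) ≤ lb := Real.log_le_log (by positivity) hbl
    rw [Real.log_div hu0.ne' (by norm_num), hu, Real.log_mul hc0.ne' (Real.exp_pos _).ne',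
      Real.log_exp] at h1
    rw [hc₁]; linarith
  set d : ℕ := finrank ℚ L with hd
  have hd1 : 1 ≤ d := Module.finrank_pos
  have hd0 : (0 : ℝ) < d := by exact_mod_cast hd1
  set ℓ : ℝ := Real.log |(NumberField.discr L : ℝ)| with hℓ
  have hℓ0 : 0 ≤ ℓ := one_le_abs_discr L
  obtain ⟨M, hM⟩ := numeric_growth (ℓ / d + 2 * (n + 2) * Real.log 2 + lb + 1 + lm / 2) ε hε0
  set M' : ℕ := max M 2 with hM'
  -- choose k
  obtain ⟨k₀, hk₀⟩ := exists_nat_gt ((1 + ℓ / d + 4 * Real.log 2 + M' * (2 + lm / 4)) / lb + 1)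
  set k : ℕ := max k₀ 6 with hk
  have hk6 : 6 ≤ k := le_max_right _ _
  have hkbig : 1 + ℓ / d + 4 * Real.log 2 + M' * (2 + lm / 4) < ((k : ℝ) - 1) * lb := by
    have h1 : (k₀ : ℝ) ≤ k := by exact_mod_cast le_max_left k₀ 6
    have h2 : (1 + ℓ / d + 4 * Real.log 2 + M' * (2 + lm / 4)) / lb < (k : ℝ) - 1 := by linarith
    rwa [div_lt_iff₀ hlb0] at h2
  obtain ⟨c', hc'1, hc'2, hsq⟩ := exists_squarefree b k hbeven hb4 hk6
  obtain ⟨E, x, y, X, W, hNF, hEreal, hdeg, hxint, hyint, hxy, hadj, hXint, hWint, hXW, hXb⟩ :=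
    exists_extension L hL Ω β hβ u K hK1 G η hGm hGdeg hGint hηint hη0
      (fun φ X hX x hx => hG φ X hX x hx)
      b k c' (by omega) hbu (by omega) hc'2
  have hlow := log_discr_lower hEreal (by omega) (by omega) hc'2 hsq hXint hWint hXW hXb
  have hfrE : (finrank ℚ E : ℝ) = (d : ℝ) * (finrank L E : ℝ) := by
    rw [← Nat.cast_mul, Module.finrank_mul_finrank]
  rw [hfrE] at hlow
  have hsimple := simple_bound L β hβ0 (by linarith) E hEreal x y hxint hyint hxy hadj
  have hMm : M' ≤ finrank L E := by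
    by_contra hcon
    push Not at hcon
    have hcon' : (finrank L E : ℝ) ≤ M' := by exact_mod_cast hcon.le
    set m : ℝ := (finrank L E : ℝ) with hm
    have hm0 : 0 < m := by
      rw [hm]
      have : FiniteDimensional L E := FiniteDimensional.right ℚ L E
      exact_mod_cast Module.finrank_pos
    have h1 := hlow.trans hsimple
    have h2 : m * ℓ + 2 * (d : ℝ) * (m * m + 2 * m * Real.log 2) + (d : ℝ) * m ^ 2 / 4 * lm =
        (d * m) * (ℓ / d + 2 * m + 4 * Real.log 2 + m * lm / 4) := by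
      field_simp
      ring
    rw [h2] at h1
    have h3 := le_of_mul_le_mul_left h1 (by positivity)
    have h4 : m * (2 + lm / 4) ≤ M' * (2 + lm / 4) :=
      mul_le_mul_of_nonneg_right hcon' (by positivity)
    linarith
  refine ⟨E, hNF, hEreal, (le_max_right M 2).trans hMm, ⟨![x, y], ?_, ?_⟩, ?_⟩
  · intro i; fin_cases i <;> simpa
  · rw [sum_pair, hxy]
  · intro hsum
    obtain ⟨μ, s, lD', hμ2, hs1, hμs, h1, h2⟩ := key_bound L n α β hα hα4 hβ0 hlt E hEreal x y
      hxint hyint hxy hadj hsum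
    have hmcast : (finrank L E : ℝ) = (μ : ℝ) * s := by rw [← hμs]; push_cast; ring
    rw [hmcast] at hlow
    have hfin := numeric_main (n := n) (k := k) hd1 hμ2 hs1 hK1 hlb0.le hA0
      (show 16 * ε = lm - A by rw [hε]; ring) hε0 hc₁K hlbK
      (by rw [hμs]; exact_mod_cast (by linarith : finrank L E ≤ 2 * (K * k)))
      h1 h2 hlow
    have hbig := hM (μ * s) (by rw [hμs]; exact (le_max_left M 2).trans hMm)
    linarith

/-- Module G (tower step). -/
theorem tower_step (L : Subfield ℂ) [NumberField L] (hL : TotReal L) (n : ℕ) (α β : L)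
    (hα : ¬ SumSq L n α) (hα4 : Real.log 4 ≤ lam L α)
    (hβ : IsIntegral ℤ β) (hβpos : ∀ φ : L →+* ℂ, 0 < (φ β).re) (hlt : lam L α < lam L β) :
    ∃ (L' : Subfield ℂ) (h : L ≤ L'), NumberField L' ∧ TotReal L' ∧ L ≠ L' ∧
      SumSq L' 2 (Subfield.inclusion h β) ∧ ¬ SumSq L' n (Subfield.inclusion h α) := by
  obtain ⟨E, hNF, hEreal, hdeg, hsum, hnsum⟩ := tower_step_aux L hL ℂ n α β hα hα4 hβ hβpos hlt
  have hle : L ≤ E.toSubfield := by
    intro z hz
    exact E.algebraMap_mem ⟨z, hz⟩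
  refine ⟨E.toSubfield, hle, hNF, hEreal, ?_, hsum, hnsum⟩
  intro heq
  have hbot : E = ⊥ := by
    rw [eq_bot_iff]
    intro z hz
    have hz' : z ∈ L := by rw [heq]; exact hz
    rw [IntermediateField.mem_bot]
    exact ⟨⟨z, hz'⟩, rfl⟩
  have : finrank L E = 1 := by rw [hbot]; exact IntermediateField.finrank_bot
  omega

end Pool.Agent.Pyth
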