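import Mathlib

namespace Pool.Agent.Pyth

open Module NumberField Matrix

theorem dvd_trace_of_sq (L : Type) [Field L] [NumberField L] (p : ℕ) (y z : 𝓞 L)
    (h : y ^ 2 = (p : 𝓞 L) * z) (hp : p.Prime) : (p : ℤ) ∣ Algebra.trace ℤ (𝓞 L) y := by
  classical
  have : Fact p.Prime := ⟨hp⟩
  set b := RingOfIntegers.basis L with hb
  rw [Algebra.trace_eq_matrix_trace b]
  set M := Algebra.leftMulMatrix b y with hM
  set f := Int.castRingHom (ZMod p) with hf
  have h1 : M ^ 2 = (p : ℤ) • Algebra.leftMulMatrix b z := by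
    rw [hM, ← map_pow, h, ← map_zsmul, zsmul_eq_mul, Int.cast_natCast]
  have h2 : (f.mapMatrix M) ^ 2 = 0 := by
    rw [← map_pow, h1]
    ext i j
    rw [RingHom.mapMatrix_apply, Matrix.map_apply, Matrix.smul_apply, smul_eq_mul, map_mul,
      Matrix.zero_apply]
    simp [f]
  have h3 := Matrix.isNilpotent_trace_of_isNilpotent (M := f.mapMatrix M) ⟨2, h2⟩
  have h4 := h3.eq_zero
  have h5 : (f.mapMatrix M).trace = f (M.trace) := by
    rw [Matrix.trace, Matrix.trace, map_sum]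
    rfl
  rw [h5] at h4
  exact (ZMod.intCast_zmod_eq_zero_iff_dvd _ _).mp h4

/-- if `p` does not divide the discriminant, then `p ∣ b²` implies `p ∣ b` -/
theorem dvd_of_sq_dvd (L : Type) [Field L] [NumberField L] (p : ℕ) (hp : p.Prime)
    (hd : ¬ (p : ℤ) ∣ NumberField.discr L) (b c : 𝓞 L) (h : b ^ 2 = (p : 𝓞 L) * c) :
    ∃ b' : 𝓞 L, b = (p : 𝓞 L) * b' := by
  classical
  have : Fact p.Prime := ⟨hp⟩
  set ω := RingOfIntegers.basis L with hω
  set f := Int.castRingHom (ZMod p) with hf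
  set T := Algebra.traceMatrix ℤ ω with hT
  set x : Free.ChooseBasisIndex ℤ (𝓞 L) → ℤ := fun i => ω.repr b i with hx
  have hdet : (f.mapMatrix T).det ≠ 0 := by
    rw [← RingHom.map_det]
    intro h0
    apply hd
    have := (ZMod.intCast_zmod_eq_zero_iff_dvd _ _).mp h0
    exact this
  have hmul : (f.mapMatrix T) *ᵥ (fun i => f (x i)) = 0 := by
    funext i
    have h1 : (T *ᵥ x) i = Algebra.trace ℤ (𝓞 L) (b * ω i) := by
      rw [Matrix.mulVec, dotProduct]
      have h2 : b * ω i = ∑ j, x j • (ω i * ω j) := by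
        conv_lhs => rw [← ω.sum_repr b]
        rw [Finset.sum_mul]
        refine Finset.sum_congr rfl fun j _ => ?_
        rw [smul_mul_assoc, mul_comm]
      rw [h2, map_sum]
      refine Finset.sum_congr rfl fun j _ => ?_
      rw [map_smul, smul_eq_mul, mul_comm]
      rfl
    have h3 : (p : ℤ) ∣ Algebra.trace ℤ (𝓞 L) (b * ω i) :=
      dvd_trace_of_sq L p (b * ω i) (c * ω i ^ 2) (by rw [mul_pow, h]; ring) hp
    rw [← h1] at h3
    have h4 := (ZMod.intCast_zmod_eq_zero_iff_dvd _ _).mpr h3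
    have h5 : ((f.mapMatrix T) *ᵥ (fun i => f (x i))) i = f ((T *ᵥ x) i) := by
      rw [Matrix.mulVec, Matrix.mulVec, dotProduct, dotProduct, map_sum]
      refine Finset.sum_congr rfl fun j _ => ?_
      rw [map_mul]
      rfl
    rw [h5]
    exact h4
  have hz := Matrix.eq_zero_of_mulVec_eq_zero hdet hmul
  have hdiv : ∀ i, ∃ k : ℤ, x i = (p : ℤ) * k := by
    intro i
    have h1 : f (x i) = 0 := congrFun hz i
    exact (ZMod.intCast_zmod_eq_zero_iff_dvd _ _).mp h1
  choose k hk using hdiv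
  refine ⟨∑ i, k i • ω i, ?_⟩
  conv_lhs => rw [← ω.sum_repr b]
  rw [Finset.mul_sum]
  refine Finset.sum_congr rfl fun i _ => ?_
  have h1 : ω.repr b i = (p : ℤ) * k i := hk i
  rw [h1, mul_smul]
  simp

end Pool.Agent.Pyth
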